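import Pool.Agent.H370R2.Local
import Pool.Agent.H370R2.Rect
import Pool.Agent.W169.HF.DefsB

/-! # Zeros of functions with the local data of an L-function: counts and logarithmic derivative -/

set_option autoImplicit false

open Complex Filter Topology Set MeasureTheory Metric
open scoped ComplexConjugate
open Pool.Agent.W169.HF

namespace Q270GD

/-- normalised local data of an L-function -/
structure ND (K ℓ : ℝ) (f : ℂ → ℂ) : Prop where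
  ud : UD K (3 / 2) ℓ 1 f
  zer : ∀ u, f u = 0 → |u.re| ≤ 1 / 2

/-- the size of `log |f|` near height `t` -/
noncomputable def Bt (K ℓ t : ℝ) : ℝ := 13 * ℓ + 350 * K * (1 + t ^ 2)

/-- multiplicity -/
noncomputable def mu (f : ℂ → ℂ) (z : ℂ) : ℕ := analyticOrderNatAt f z

lemma ND.diff {K ℓ : ℝ} {f : ℂ → ℂ} (h : ND K ℓ f) : Differentiable ℂ f := h.ud.slow.1

lemma ND.ana {K ℓ : ℝ} {f : ℂ → ℂ} (h : ND K ℓ f) (s : Set ℂ) : AnalyticOnNhd ℂ f s := fun z _ =>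
  h.diff.analyticAt z

lemma Bt_ge {K ℓ : ℝ} (hK : 1 ≤ K) (hℓ : 0 ≤ ℓ) (t : ℝ) : 350 ≤ Bt K ℓ t := by
  unfold Bt
  have h1 : 1 ≤ K * (1 + t ^ 2) := by nlinarith [sq_nonneg t]
  linarith

lemma norm_c (t : ℝ) : ‖(⟨3, t⟩ : ℂ)‖ ^ 2 = 9 + t ^ 2 := by
  rw [← Complex.normSq_eq_norm_sq, Complex.normSq_apply]
  ring

lemma ball_re_im {z : ℂ} {t R : ℝ} (hz : z ∈ closedBall (⟨3, t⟩ : ℂ) R) : |z.re - 3| ≤ R ∧ |z.im - t| ≤ R := by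
  rw [mem_closedBall, dist_eq_norm] at hz
  have h1 := Complex.abs_re_le_norm (z - ⟨3, t⟩)
  have h2 := Complex.abs_im_le_norm (z - ⟨3, t⟩)
  rw [sub_re] at h1
  rw [sub_im] at h2
  exact ⟨h1.trans hz, h2.trans hz⟩

lemma up_ball {K ℓ : ℝ} {f : ℂ → ℂ} (h : ND K ℓ f) (hK : 1 ≤ K) (hℓ : 0 ≤ ℓ) (t : ℝ) :
    ∀ z ∈ closedBall (⟨3, t⟩ : ℂ) 10, ‖f z‖ ≤ Real.exp (13 * ℓ + K * (340 + 2 * t ^ 2)) := by
  intro z hz
  obtain ⟨h1, h2⟩ := ball_re_im hz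
  have h3 := h.ud.up z
  rw [one_mul] at h3
  refine h3.trans (Real.exp_le_exp.2 ?_)
  have h1' := abs_le.1 h1
  have h2' := abs_le.1 h2
  have h4 : max |z.re| (3 / 2) ≤ 13 := by
    apply max_le _ (by norm_num)
    rw [abs_le]
    constructor <;> linarith [h1'.1, h1'.2]
  have h5 : ‖z‖ ≤ 10 + ‖(⟨3, t⟩ : ℂ)‖ := by
    rw [mem_closedBall, dist_eq_norm] at hz
    calc ‖z‖ = ‖(z - ⟨3, t⟩) + ⟨3, t⟩‖ := by rw [sub_add_cancel]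
      _ ≤ ‖z - ⟨3, t⟩‖ + ‖(⟨3, t⟩ : ℂ)‖ := norm_add_le _ _
      _ ≤ _ := by linarith
  have h6 : ‖z‖ ^ 2 ≤ 339 + 2 * t ^ 2 := by
    have h7 : ‖z‖ ^ 2 ≤ (10 + ‖(⟨3, t⟩ : ℂ)‖) ^ 2 := pow_le_pow_left₀ (norm_nonneg _) h5 2
    have h8 := norm_c t
    nlinarith [sq_nonneg (‖(⟨3, t⟩ : ℂ)‖ - 10)]
  have h7 : ℓ * max |z.re| (3 / 2) ≤ ℓ * 13 := mul_le_mul_of_nonneg_left h4 hℓ
  have h8 : K * (1 + ‖z‖ ^ 2) ≤ K * (340 + 2 * t ^ 2) := mul_le_mul_of_nonneg_left (by linarith) (by linarith)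
  linarith

lemma lo_c {K ℓ : ℝ} {f : ℂ → ℂ} (h : ND K ℓ f) (hℓ : 0 ≤ ℓ) (t : ℝ) :
    Real.exp (-(K * (10 + t ^ 2))) ≤ ‖f ⟨3, t⟩‖ := by
  have h1 := h.ud.lo ⟨3, t⟩ (by norm_num)
  rw [one_mul, norm_c] at h1
  refine le_trans (Real.exp_le_exp.2 ?_) h1
  show -(K * (10 + t ^ 2)) ≤ ℓ * 3 - K * (1 + (9 + t ^ 2))
  nlinarith

lemma log_c {K ℓ : ℝ} {f : ℂ → ℂ} (h : ND K ℓ f) (hK : 1 ≤ K) (hℓ : 0 ≤ ℓ) (t : ℝ) :
    Real.log (Real.exp (13 * ℓ + K * (340 + 2 * t ^ 2)) / ‖f ⟨3, t⟩‖) ≤ Bt K ℓ t := by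
  have h1 := lo_c h hℓ t
  have h2 : 0 < ‖f ⟨3, t⟩‖ := (Real.exp_pos _).trans_le h1
  rw [Real.log_div (Real.exp_pos _).ne' h2.ne', Real.log_exp]
  have h3 : -(K * (10 + t ^ 2)) ≤ Real.log ‖f ⟨3, t⟩‖ := by
    have := Real.log_le_log (Real.exp_pos _) h1
    rwa [Real.log_exp] at this
  unfold Bt
  nlinarith [mul_nonneg (by linarith : (0 : ℝ) ≤ K) (sq_nonneg t)]

lemma log_tn : 1 / 10 ≤ Real.log (10 / 9) := by
  have := Real.one_sub_inv_le_log_of_pos (show (0 : ℝ) < 10 / 9 by norm_num)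
  norm_num at this ⊢
  linarith

lemma M_ge {K ℓ : ℝ} (hK : 1 ≤ K) (hℓ : 0 ≤ ℓ) (t : ℝ) : 1 ≤ Real.exp (13 * ℓ + K * (340 + 2 * t ^ 2)) :=
  Real.one_le_exp (by positivity)

lemma ne_c {K ℓ : ℝ} {f : ℂ → ℂ} (h : ND K ℓ f) (hℓ : 0 ≤ ℓ) (t : ℝ) : f ⟨3, t⟩ ≠ 0 :=
  norm_pos_iff.1 ((Real.exp_pos _).trans_le (lo_c h hℓ t))

/-- number of zeros in a ball -/
lemma count {K ℓ : ℝ} {f : ℂ → ℂ} (h : ND K ℓ f) (hK : 1 ≤ K) (hℓ : 0 ≤ ℓ) (t : ℝ) (S : Finset ℂ)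
    (hS : ∀ z ∈ S, z ∈ closedBall (⟨3, t⟩ : ℂ) 9) : ∑ z ∈ S, (mu f z : ℝ) ≤ 10 * Bt K ℓ t := by
  have h1 := H370.Loc.jensen_mult (f := f) (c := ⟨3, t⟩) (r := 9) (R := 10) (by norm_num) (by norm_num)
    (M_ge hK hℓ t) (h.ana _) (ne_c h hℓ t) (up_ball h hK hℓ t) S hS
  refine h1.trans ?_
  have h2 := log_c h hK hℓ t
  have h3 := log_tn
  have h4 := Bt_ge hK hℓ t
  rw [div_le_iff₀ (by linarith)]
  nlinarith

/-- the logarithmic derivative -/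
lemma ld {K ℓ : ℝ} {f : ℂ → ℂ} (h : ND K ℓ f) (hK : 1 ≤ K) (hℓ : 0 ≤ ℓ) (t : ℝ) :
    ∀ z ∈ closedBall (⟨3, t⟩ : ℂ) 7, ∀ δ : ℝ, 0 < δ → (∀ ρ, f ρ = 0 → δ ≤ ‖z - ρ‖) →
      f z ≠ 0 ∧ ‖deriv f z / f z‖ ≤ 10 * Bt K ℓ t / δ + 1300 * Bt K ℓ t := by
  intro z hz δ hδ hd
  have hc := ne_c h hℓ t
  have hcb := up_ball h hK hℓ t ⟨3, t⟩ (mem_closedBall_self (by norm_num))
  obtain ⟨h1, h2⟩ := H370.Loc.landau (f := f) (c := ⟨3, t⟩) (r := 9) (r1 := 8) (r2 := 7) (R := 10)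
    (by norm_num) (by norm_num) (by norm_num) (by norm_num) (by norm_num) (M_ge hK hℓ t) hcb (h.ana _) hc
    (up_ball h hK hℓ t) z hz δ hδ (fun ρ _ hρ => hd ρ hρ)
  refine ⟨h1, h2.trans ?_⟩
  have h3 := log_c h hK hℓ t
  have h4 := log_tn
  have h5 := Bt_ge hK hℓ t
  obtain ⟨L, hL⟩ : ∃ L : ℝ, L = Real.log (Real.exp (13 * ℓ + K * (340 + 2 * t ^ 2)) / ‖f ⟨3, t⟩‖) := ⟨_, rfl⟩
  rw [← hL] at h3 ⊢
  have h6 : L / Real.log (10 / 9) ≤ 10 * Bt K ℓ t := by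
    rw [div_le_iff₀ (by linarith)]
    nlinarith
  have h7 : Real.log (9 / (10 - 9)) ≤ 8 := by
    have := Real.log_le_sub_one_of_pos (show (0 : ℝ) < 9 by norm_num)
    norm_num at this ⊢
    exact this
  have h8 : 0 ≤ Real.log (9 / (10 - 9)) := Real.log_nonneg (by norm_num)
  have h9 : L / Real.log (10 / 9) * Real.log (9 / (10 - 9)) ≤ 10 * Bt K ℓ t * 8 :=
    mul_le_mul h6 h7 h8 (by linarith)
  have h10 : L / Real.log (10 / 9) / δ ≤ 10 * Bt K ℓ t / δ := div_le_div_of_nonneg_right h6 hδ.le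
  have h11 : 2 * (L + L / Real.log (10 / 9) * Real.log (9 / (10 - 9)) + 1) * 8 / (9 - 8) / (8 - 7) ≤
      1300 * Bt K ℓ t := by
    norm_num at h9 ⊢
    linarith
  linarith

/-- the zeros in a ball -/
lemma zeros_ball {K ℓ : ℝ} {f : ℂ → ℂ} (h : ND K ℓ f) (hK : 1 ≤ K) (hℓ : 0 ≤ ℓ) (t : ℝ) :
    ∃ S : Finset ℂ, (∀ z ∈ closedBall (⟨3, t⟩ : ℂ) 9, f z = 0 → z ∈ S) ∧ (S.card : ℝ) ≤ 10 * Bt K ℓ t := by
  classical
  obtain ⟨s, g, hs, hg, hfg, hg0, hcard⟩ := H370.Loc.extract (f := f) (c := ⟨3, t⟩) (r := 9) (R := 10)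
    (by norm_num) (by norm_num) (M_ge hK hℓ t) (h.ana _) (ne_c h hℓ t) (up_ball h hK hℓ t)
  refine ⟨s.toFinset, fun z hz hz0 => ?_, ?_⟩
  · by_contra hcon
    rw [Multiset.mem_toFinset] at hcon
    have h1 := hfg z
    rw [hz0] at h1
    rcases mul_eq_zero.1 h1.symm with h2 | h2
    · exact H370.Loc.Pf_ne_zero (z := z) (s := s) (fun ρ hρ he => hcon (by rw [he]; exact hρ)) h2
    · exact hg0 z hz h2
  · have h1 : (s.toFinset.card : ℝ) ≤ Multiset.card s := by exact_mod_cast Multiset.toFinset_card_le s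
    have h2 := log_c h hK hℓ t
    have h3 := log_tn
    have h4 := Bt_ge hK hℓ t
    refine h1.trans (hcard.trans ?_)
    rw [div_le_iff₀ (by linarith)]
    nlinarith

/-- a point of the strip is in the ball -/
lemma in_ball {z : ℂ} {t a b R : ℝ} (hR : 0 ≤ R) (h1 : |z.re - 3| ≤ a) (h2 : |z.im - t| ≤ b)
    (h : a ^ 2 + b ^ 2 ≤ R ^ 2) : z ∈ closedBall (⟨3, t⟩ : ℂ) R := by
  rw [mem_closedBall, dist_eq_norm]
  refine le_of_sq_le_sq ?_ hR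
  rw [← Complex.normSq_eq_norm_sq, Complex.normSq_apply, sub_re, sub_im]
  have h3 : (z.re - 3) * (z.re - 3) ≤ a ^ 2 := by
    rw [← pow_two, ← sq_abs]
    exact pow_le_pow_left₀ (abs_nonneg _) h1 2
  have h4 : (z.im - t) * (z.im - t) ≤ b ^ 2 := by
    rw [← pow_two, ← sq_abs]
    exact pow_le_pow_left₀ (abs_nonneg _) h2 2
  show (z.re - 3) * (z.re - 3) + (z.im - t) * (z.im - t) ≤ R ^ 2
  linarith

/-- good heights -/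
lemma good {K ℓ : ℝ} {f : ℂ → ℂ} (h : ND K ℓ f) (hK : 1 ≤ K) (hℓ : 0 ≤ ℓ) (T : ℝ) :
    ∃ U ∈ Icc T (T + 1), ∀ x : ℝ, |x| ≤ 3 → f ⟨x, U⟩ ≠ 0 ∧
      ‖deriv f ⟨x, U⟩ / f ⟨x, U⟩‖ ≤ 5000 * (Bt K ℓ T) ^ 2 := by
  classical
  obtain ⟨S, hS, hc⟩ := zeros_ball h hK hℓ T
  obtain ⟨U, hU, hΓ⟩ := H370.Loc.pigeon (S.image Complex.im) T
  refine ⟨U, hU, fun x hx => ?_⟩
  have hx' := abs_le.1 hx
  obtain ⟨n, hn⟩ : ∃ n : ℝ, n = ((S.image Complex.im).card : ℝ) := ⟨_, rfl⟩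
  rw [← hn] at hΓ
  have hn0 : 0 ≤ n := by rw [hn]; positivity
  have hnB : n ≤ 10 * Bt K ℓ T := by
    rw [hn]
    refine le_trans ?_ hc
    exact_mod_cast Finset.card_image_le
  have hB := Bt_ge hK hℓ T
  have hBU : Bt K ℓ U ≤ 3 * Bt K ℓ T := by
    unfold Bt
    have h1 : 1 + U ^ 2 ≤ 3 * (1 + T ^ 2) := by nlinarith [hU.1, hU.2, sq_nonneg (U - T), sq_nonneg (T - 1), sq_nonneg (T + 1)]
    have h2 : 350 * K * (1 + U ^ 2) ≤ 350 * K * (3 * (1 + T ^ 2)) :=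
      mul_le_mul_of_nonneg_left h1 (by linarith)
    linarith
  have hδ : 0 < 1 / (2 * (n + 1)) := by positivity
  obtain ⟨h1, h2⟩ := ld h hK hℓ U ⟨x, U⟩ (in_ball (by norm_num) (a := 6) (b := 0)
    (by show |x - 3| ≤ 6; rw [abs_le]; constructor <;> linarith [hx'.1, hx'.2])
    (by show |U - U| ≤ 0; simp) (by norm_num)) (1 / (2 * (n + 1))) hδ (fun ρ hρ => by
      have hre := h.zer ρ hρ
      have hre' := abs_le.1 hre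
      have hi := Complex.abs_im_le_norm ((⟨x, U⟩ : ℂ) - ρ)
      rw [sub_im] at hi
      change |U - ρ.im| ≤ _ at hi
      rcases le_or_gt |ρ.im - T| 3 with h3 | h3
      · have h4 : ρ ∈ S := hS ρ (in_ball (by norm_num) (a := 4) (b := 3)
          (by rw [abs_le]; constructor <;> linarith [hre'.1, hre'.2]) h3 (by norm_num)) hρ
        exact (hΓ ρ.im (Finset.mem_image_of_mem _ h4)).trans hi
      · have h5 : 1 / (2 * (n + 1)) ≤ 1 := by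
          rw [div_le_one (by positivity)]
          linarith
        have h6 : 1 ≤ |U - ρ.im| := by
          have h7 : |ρ.im - T| ≤ |U - ρ.im| + 1 := by
            rw [abs_le]
            have := abs_le.1 (le_refl |U - ρ.im|)
            constructor <;> linarith [this.1, this.2, hU.1, hU.2]
          linarith
        linarith)
  refine ⟨h1, h2.trans ?_⟩
  have h3 : 10 * Bt K ℓ U / (1 / (2 * (n + 1))) = 20 * Bt K ℓ U * (n + 1) := by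
    field_simp
    ring
  rw [h3]
  have hBU0 : 0 ≤ Bt K ℓ U := by linarith [Bt_ge hK hℓ U]
  have h4 : 20 * Bt K ℓ U * (n + 1) ≤ 20 * (3 * Bt K ℓ T) * (10 * Bt K ℓ T + 1) := by gcongr
  nlinarith

/-- the logarithmic derivative on the line of abscissa 3 -/
lemma ld3 {K ℓ : ℝ} {f : ℂ → ℂ} (h : ND K ℓ f) (hK : 1 ≤ K) (hℓ : 0 ≤ ℓ) (t : ℝ) :
    f ⟨3, t⟩ ≠ 0 ∧ ‖deriv f ⟨3, t⟩ / f ⟨3, t⟩‖ ≤ 1310 * Bt K ℓ t := by
  obtain ⟨h1, h2⟩ := ld h hK hℓ t ⟨3, t⟩ (mem_closedBall_self (by norm_num)) 1 one_pos (fun ρ hρ => by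
    have hre' := abs_le.1 (h.zer ρ hρ)
    have hi := Complex.abs_re_le_norm ((⟨3, t⟩ : ℂ) - ρ)
    rw [sub_re] at hi
    change |3 - ρ.re| ≤ _ at hi
    have := le_abs_self (3 - ρ.re)
    linarith [hre'.2])
  refine ⟨h1, h2.trans ?_⟩
  rw [div_one]
  linarith

end Q270GD
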