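import Pool.Agent.Q270.GD.C9

/-! # Automorphic L-functions: zero counts give bounds -/

set_option autoImplicit false

open Complex Filter Topology Set MeasureTheory Metric
open scoped ComplexConjugate
open Pool.Agent.W169.HF H353.E H353.F
open Q270LD (Prof)

namespace Q270GD

/-- few zeros off the line give a bound -/
theorem nd_size {K κ : ℝ} (hK : 1 ≤ K) (hκ : 0 < κ) : ∃ δ η R ℓ0 : ℝ, 0 < δ ∧ 0 < η ∧ 1 ≤ R ∧ 1 ≤ ℓ0 ∧
    ∀ (ℓ : ℝ) (f : ℂ → ℂ), ℓ0 ≤ ℓ → ND K ℓ f → Off f δ η R ℓ → ‖f 0‖ ≤ Real.exp (κ * ℓ) := by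
  obtain ⟨ϑ, hϑ⟩ : ∃ ϑ : ℝ, ϑ = min (κ / 2) 1 := ⟨_, rfl⟩
  have hϑ0 : 0 < ϑ := by rw [hϑ]; exact lt_min (by positivity) one_pos
  have hϑ1 : ϑ ≤ 1 := by rw [hϑ]; exact min_le_right _ _
  have hϑκ : ϑ ≤ κ / 2 := by rw [hϑ]; exact min_le_left _ _
  obtain ⟨κ1, R, ℓ1, hκ1, hR, HL⟩ := lcx_all K (3 / 2) ϑ (κ / 2) 1 hK (by norm_num) (by norm_num) hϑ0
    (by linarith) (by positivity) le_rfl
  obtain ⟨κ2, R2, hκ2, hR2, HT⟩ := tcz_all (5 / 2) (3 / 2) ϑ κ1 R (by norm_num) (by norm_num) (by norm_num) hϑ0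
    hϑ1 hκ1 hR
  obtain ⟨M, hM⟩ : ∃ M : ℝ, M = K * (1 + 2 * R2 ^ 2) := ⟨_, rfl⟩
  have hM0 : 0 ≤ M := by rw [hM]; positivity
  refine ⟨κ2, κ2, R2, max (max 1 ℓ1) (M + M / κ2), hκ2, hκ2, hR.trans hR2,
    (le_max_left _ _).trans (le_max_left _ _), fun ℓ f hℓ h hO => ?_⟩
  have hℓ1 : 1 ≤ ℓ := ((le_max_left _ _).trans (le_max_left _ _)).trans hℓ
  have hℓa : ℓ1 ≤ ℓ := ((le_max_right _ _).trans (le_max_left _ _)).trans hℓ
  have hℓM' : M + M / κ2 ≤ ℓ := (le_max_right _ _).trans hℓ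
  have hMκ : 0 ≤ M / κ2 := by positivity
  have hℓM : M ≤ ℓ := by linarith
  have hℓM2 : M ≤ κ2 * ℓ := by
    have h1 : M / κ2 ≤ ℓ := by linarith
    rw [div_le_iff₀ hκ2] at h1
    linarith
  have hnu : ∀ u : ℂ, |u.re| ≤ R2 → |u.im| ≤ R2 → K * (1 + ‖u‖ ^ 2) ≤ M := fun u h1 h2 => by
    rw [hM]
    have := nsq h1 h2
    exact mul_le_mul_of_nonneg_left (by linarith) (by linarith)
  have h1 := HT ℓ 1 f (by linarith) one_pos h.diff
    (fun u hu1 hu2 hu3 => by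
      have h2 := h.ud.up u
      refine h2.trans ?_
      rw [one_mul, one_mul]
      apply Real.exp_le_exp.2
      rw [abs_of_nonneg hu1]
      have h3 : max u.re (3 / 2) ≤ u.re + 3 / 2 := max_le (by linarith) (by linarith)
      have h4 := mul_le_mul_of_nonneg_left h3 (by linarith : (0 : ℝ) ≤ ℓ)
      have h5 := hnu u (by rw [abs_of_nonneg hu1]; exact hu2) hu3
      linarith)
    (fun u hu1 hu2 hu3 => by
      have hu0 : |u.re| ≤ R2 := by rw [abs_of_nonneg (by linarith)]; exact hu2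
      have h5 := hnu u hu0 hu3
      have h2 := h.ud.up u
      have h3 := h.ud.lo u hu1
      rw [abs_of_nonneg (by linarith), max_eq_left hu1] at h2
      rw [one_mul] at h2 h3
      rw [one_mul, one_mul]
      constructor
      · refine le_trans (Real.exp_le_exp.2 ?_) h3
        linarith
      · refine h2.trans (Real.exp_le_exp.2 ?_)
        linarith)
    (fun S hS => hO S fun z hz => by
      obtain ⟨h2, h3, h4, h5⟩ := hS z hz
      exact ⟨h2, h3.trans (le_abs_self _), h5⟩)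
  have h2 := HL ℓ 1 f hℓa h.ud (fun u hu1 hu2 => by
    have := h1 u (by rw [hu1]) (by rw [hu1]; linarith) hu2
    rwa [hu1] at this) 0 (by simp; linarith) (by simp)
  rw [one_mul] at h2
  refine h2.trans (Real.exp_le_exp.2 ?_)
  nlinarith

/-- the data of an L-function -/
def Dt {m : ℕ} (N : ℝ) (μ : Fin m → ℂ) (Λ : ℂ → ℂ) : Prop := ∃ (α : Fin m → ℕ → ℂ) (e : ℂ),
  DatumT (1 / 2) N μ α e Λ ∧ ∀ s : ℂ, 1 < s.re → Λ s ≠ 0

/-- a finite set of zeros in the region with profile `r` at height `T` -/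
def Zs (Λ : ℂ → ℂ) (r : ℝ → ℝ) (T : ℝ) (F : Finset ℂ) : Prop := ∀ z ∈ F, Λ z = 0 ∧ |z.im - T| < r (z.re - 1 / 2)

lemma log_near {m : ℕ} {N : ℝ} {μ : Fin m → ℂ} (hN : 1 ≤ N) {y v V0 : ℝ} (hV : 0 ≤ V0) (hv : |v| ≤ V0) :
    Real.log (cnd N μ y) ≤ Real.log (cnd N μ (y + v)) + m * Real.log (1 + V0) ∧
    Real.log (cnd N μ (y + v)) ≤ Real.log (cnd N μ y) + m * Real.log (1 + V0) := by
  have h1 := logm_shift hN μ (y := y) (y' := y + v) (R := V0) (by rw [add_sub_cancel_left, abs_of_nonneg hV]; exact hv)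
  have h2 := logm_shift hN μ (y := y + v) (y' := y) (R := V0) (by
    rw [abs_of_nonneg hV, abs_sub_comm, add_sub_cancel_left]; exact hv)
  rw [abs_of_nonneg hV] at h1 h2
  exact ⟨h1, h2⟩

/-- **Zero counts give bounds on the critical line.** -/
theorem cnt_size (m : ℕ) (hm : 1 ≤ m) {r : ℝ → ℝ} (hr : Prof r) {κ : ℝ} (hκ : 0 < κ) :
    ∃ η W0 C0 : ℝ, 0 < η ∧ 0 ≤ W0 ∧ ∀ (N : ℝ) (μ : Fin m → ℂ) (Λ : ℂ → ℂ), Dt N μ Λ → ∀ y : ℝ,
      C0 ≤ Real.log (cnd N μ y) → (∀ v : ℝ, |v| ≤ W0 → ∃ F : Finset ℂ, Zs Λ r (y + v) F ∧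
        (r 0 / Real.pi - η) * Real.log (cnd N μ (y + v)) ≤ ∑ z ∈ F, (analyticOrderNatAt Λ z : ℝ)) →
      ‖LL μ Λ (1 / 2 + (y : ℂ) * I)‖ ≤ Real.exp (κ * Real.log (cnd N μ y)) := by
  have hm' : (1 : ℝ) ≤ m := by exact_mod_cast hm
  obtain ⟨K, hK, HN⟩ := nd_of m hm
  obtain ⟨δ, η', R, ℓa, hδ, hη', hR, hℓa, HS⟩ := nd_size hK hκ
  obtain ⟨η1, V0, ℓb, hη1, hη1r, hV0, hℓb, HF⟩ := few hK hr hδ hη' (R := R)
  have hr0 := hr.pos
  have hpi := Real.pi_pos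
  obtain ⟨c, hc⟩ : ∃ c : ℝ, c = r 0 / Real.pi - η1 := ⟨_, rfl⟩
  have hc0 : 0 ≤ c := by linarith
  obtain ⟨C1, hC1⟩ : ∃ C1 : ℝ, C1 = m * Real.log (1 + V0) + 10 * m := ⟨_, rfl⟩
  have hl0 : 0 ≤ m * Real.log (1 + V0) := mul_nonneg (by linarith) (Real.log_nonneg (by linarith))
  have hC10 : 0 ≤ C1 := by rw [hC1]; positivity
  refine ⟨η1 / 2, V0, 2 * (ℓa + ℓb) + 14 * m + C1 + 2 * (c * C1) / η1 + 2 * (462 * m + 5 * m * κ) / κ,
    by positivity, hV0, ?_⟩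
  rintro N μ Λ ⟨α, e, d, hnz⟩ y hC hyp
  have nd := HN N μ α e Λ d hnz y
  obtain ⟨hb1, hb2⟩ := el_bd d.one_le d.re_le y
  have k1 : 0 ≤ 2 * (c * C1) / η1 := by positivity
  have k2 : 0 ≤ 2 * (462 * m + 5 * m * κ) / κ := by positivity
  obtain ⟨L, hL⟩ : ∃ L : ℝ, L = Real.log (cnd N μ y) := ⟨_, rfl⟩
  rw [← hL] at hC hb1 hb2 ⊢
  have hℓa' : ℓa ≤ el N μ y := by linarith
  have hℓb' : ℓb ≤ el N μ y := by linarith
  have hyp' : Hyp (fn N μ Λ y) r (r 0 / Real.pi - η1) V0 (el N μ y) := by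
    intro v hv
    obtain ⟨F, hF, hF2⟩ := hyp v hv
    obtain ⟨F', hF', hs⟩ := to_fn hm d.one_le d.re_le d.entire y F (fun z hz => (hF z hz).1)
    refine ⟨F', fun u hu => ?_, ?_⟩
    · obtain ⟨h1, h2⟩ := hF' u hu
      refine ⟨h1, ?_⟩
      have h3 := (hF _ h2).2
      have e1 : (1 / 2 + (y : ℂ) * I + u).re - 1 / 2 = u.re := by simp
      have e2 : (1 / 2 + (y : ℂ) * I + u).im - (y + v) = u.im - v := by simp
      rwa [e1, e2] at h3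
    · rw [hs]
      refine le_trans ?_ hF2
      have h1 := (log_near (μ := μ) d.one_le hV0 hv (y := y)).1
      rw [← hL] at h1
      rw [← hc]
      have e1 : r 0 / Real.pi - η1 / 2 = c + η1 / 2 := by rw [hc]; ring
      rw [e1]
      have h2 : c * (2 * el N μ y) ≤ c * (Real.log (cnd N μ (y + v)) + C1) := by
        apply mul_le_mul_of_nonneg_left _ hc0
        linarith
      have h3 : c * C1 ≤ η1 / 2 * Real.log (cnd N μ (y + v)) := by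
        have h4 : 2 * (c * C1) / η1 ≤ Real.log (cnd N μ (y + v)) := by linarith
        rw [div_le_iff₀ hη1] at h4
        linarith
      nlinarith
  have hoff : Off (fn N μ Λ y) δ η' R (el N μ y) := HF _ _ hℓb' nd hyp'
  have h1 := HS _ _ hℓa' nd hoff
  have h2 := LL_fn hm d.one_le d.re_le Λ y h1
  refine h2.trans (Real.exp_le_exp.2 ?_)
  have h3 : κ * (2 * el N μ y) ≤ κ * (L + 10 * m) := mul_le_mul_of_nonneg_left hb2 hκ.le
  have h4 : 2 * (462 * m + 5 * m * κ) ≤ κ * L := by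
    have h5 : 2 * (462 * m + 5 * m * κ) / κ ≤ L := by linarith
    rw [div_le_iff₀ hκ] at h5
    linarith
  linarith

/-- the constant is the largest possible -/
theorem cnt_sharp (m : ℕ) (hm : 1 ≤ m) {r : ℝ → ℝ} (hr : Prof r) {ε : ℝ} (hε : 0 < ε) :
    ∃ W0 C0 : ℝ, 0 ≤ W0 ∧ ∀ (N : ℝ) (μ : Fin m → ℂ) (Λ : ℂ → ℂ), Dt N μ Λ → ∀ y : ℝ,
      C0 ≤ Real.log (cnd N μ y) → ∃ v : ℝ, |v| ≤ W0 ∧ ∀ F : Finset ℂ, Zs Λ r (y + v) F →
        ∑ z ∈ F, (analyticOrderNatAt Λ z : ℝ) < (r 0 / Real.pi + ε) * Real.log (cnd N μ (y + v)) := by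
  have hm' : (1 : ℝ) ≤ m := by exact_mod_cast hm
  obtain ⟨K, hK, HN⟩ := nd_of m hm
  obtain ⟨V0, ℓa, hV0, hℓa, HS⟩ := sharp hK hr (half_pos hε)
  have hr0 := hr.pos
  have hpi := Real.pi_pos
  obtain ⟨c, hc⟩ : ∃ c : ℝ, c = r 0 / Real.pi + ε / 2 := ⟨_, rfl⟩
  have hc0 : 0 ≤ c := by rw [hc]; positivity
  obtain ⟨C1, hC1⟩ : ∃ C1 : ℝ, C1 = m * Real.log (1 + V0) + 10 * m := ⟨_, rfl⟩
  have hl0 : 0 ≤ m * Real.log (1 + V0) := mul_nonneg (by linarith) (Real.log_nonneg (by linarith))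
  have hC10 : 0 ≤ C1 := by rw [hC1]; positivity
  refine ⟨V0, 2 * ℓa + 14 * m + C1 + 2 * (c * C1) / ε, hV0, ?_⟩
  rintro N μ Λ ⟨α, e, d, hnz⟩ y hC
  have nd := HN N μ α e Λ d hnz y
  obtain ⟨hb1, hb2⟩ := el_bd d.one_le d.re_le y
  have k1 : 0 ≤ 2 * (c * C1) / ε := by positivity
  obtain ⟨L, hL⟩ : ∃ L : ℝ, L = Real.log (cnd N μ y) := ⟨_, rfl⟩
  rw [← hL] at hC hb1 hb2
  have hℓa' : ℓa ≤ el N μ y := by linarith
  have hn := HS _ _ hℓa' nd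
  unfold Hyp at hn
  push Not at hn
  obtain ⟨v, hv, hn2⟩ := hn
  refine ⟨v, hv, fun F hF => ?_⟩
  obtain ⟨F', hF', hs⟩ := to_fn hm d.one_le d.re_le d.entire y F (fun z hz => (hF z hz).1)
  have h1 := hn2 F' (fun u hu => by
    obtain ⟨h1, h2⟩ := hF' u hu
    refine ⟨h1, ?_⟩
    have h3 := (hF _ h2).2
    have e1 : (1 / 2 + (y : ℂ) * I + u).re - 1 / 2 = u.re := by simp
    have e2 : (1 / 2 + (y : ℂ) * I + u).im - (y + v) = u.im - v := by simp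
    rwa [e1, e2] at h3)
  rw [hs] at h1
  refine h1.trans_le ?_
  have h2 := (log_near (μ := μ) d.one_le hV0 hv (y := y)).1
  rw [← hL] at h2
  rw [← hc]
  have e1 : r 0 / Real.pi + ε = c + ε / 2 := by rw [hc]; ring
  rw [e1]
  have h3 : c * (2 * el N μ y) ≤ c * (Real.log (cnd N μ (y + v)) + C1) := by
    apply mul_le_mul_of_nonneg_left _ hc0
    linarith
  have h4 : c * C1 ≤ ε / 2 * Real.log (cnd N μ (y + v)) := by
    have h5 : 2 * (c * C1) / ε ≤ Real.log (cnd N μ (y + v)) := by linarith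
    rw [div_le_iff₀ hε] at h5
    linarith
  nlinarith

end Q270GD
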