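import Pool.Agent.Q270.GD.C10

/-! # Automorphic L-functions: bounds give few zeros off the line -/

set_option autoImplicit false

open Complex Filter Topology Set MeasureTheory Metric
open scoped ComplexConjugate
open Pool.Agent.W169.HF H353.E H353.F
open Q270LD (Prof)

namespace Q270GD

lemma phx_small {x r : ℝ} (hx : 0 < x) (hr : 0 ≤ r) : r ≤ phx x r ∧ phx x r ≤ r + x / 2 := by
  unfold phx
  obtain ⟨q, hq⟩ : ∃ q : ℝ, q = max (x - r) 0 := ⟨_, rfl⟩
  have hq0 : 0 ≤ q := by rw [hq]; exact le_max_right _ _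
  have hqx : q ≤ x := by rw [hq]; exact max_le (by linarith) hx.le
  rw [← hq]
  constructor
  · have : 0 ≤ q ^ 2 / (2 * x) := by positivity
    linarith
  · have : q ^ 2 / (2 * x) ≤ x / 2 := by
      rw [div_le_div_iff₀ (by positivity) (by norm_num)]
      nlinarith
    linarith

/-- **Bounds on the critical line give few zeros off the line.** -/
theorem size_off (m : ℕ) (hm : 1 ≤ m) {δ η R : ℝ} (hδ : 0 < δ) (hη : 0 < η) :
    ∃ κ W0 C0 : ℝ, 0 < κ ∧ 0 ≤ W0 ∧ ∀ (N : ℝ) (μ : Fin m → ℂ) (Λ : ℂ → ℂ), Dt N μ Λ → ∀ y : ℝ,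
      C0 ≤ Real.log (cnd N μ y) →
      (∀ v : ℝ, |v| ≤ W0 → ‖LL μ Λ (1 / 2 + ((y + v : ℝ) : ℂ) * I)‖ ≤ Real.exp (κ * Real.log (cnd N μ (y + v)))) →
      Off (fn N μ Λ y) δ η R (el N μ y) := by
  classical
  have hm' : (1 : ℝ) ≤ m := by exact_mod_cast hm
  obtain ⟨K, hK, HN⟩ := nd_of m hm
  obtain ⟨κj, Rj, hκj, hRj, HJ⟩ := jen_all (max R 1) (min δ 1) (η / 2) 2 (le_max_right _ _)
    (lt_min hδ one_pos) (min_le_right _ _) (half_pos hη) (by norm_num)
  have hRj1 : 1 ≤ Rj := (le_max_right _ _).trans hRj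
  obtain ⟨M, κn, Rn, ℓn, hM, hκn, hRn, HNt⟩ := net_all K (3 / 2) κj (κj / 2) Rj hK (by norm_num)
    (by norm_num) hκj (by positivity) hRj1
  have hM' : (1 : ℝ) ≤ M := by exact_mod_cast hM
  obtain ⟨ρ, hρd⟩ : ∃ ρ : ℝ, ρ = 1 / (2 * M) := ⟨_, rfl⟩
  have hρ : 0 < ρ := by rw [hρd]; positivity
  have hρ1 : ρ ≤ 1 := by
    rw [hρd, div_le_one (by positivity)]
    linarith
  obtain ⟨Rp, ℓp, hRp, HP⟩ := prof_all K (3 / 2) (1 / 2) ρ κn Rn hK (by norm_num) (by norm_num)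
    (by norm_num) (by norm_num) hρ hρ1 hκn hRn
  obtain ⟨Ra, κa, C1, Ba, hκa, HA⟩ := aut_maj m hm (ε := κn / 8) (by positivity)
  have hRa0 : 0 ≤ |Ra| := abs_nonneg Ra
  obtain ⟨c1, hc1⟩ : ∃ c1 : ℝ, c1 = |Ba| + κn / 8 * (m * Real.log (1 + Rn)) + 14 * m * (κn / 8) +
    (226 * m + 25 * m / ρ) * (2 + Rn ^ 2) := ⟨_, rfl⟩
  have hln : 0 ≤ m * Real.log (1 + Rn) := mul_nonneg (by linarith) (Real.log_nonneg (by linarith))
  have hla : 0 ≤ m * Real.log (1 + |Ra|) := mul_nonneg (by linarith) (Real.log_nonneg (by linarith))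
  have hc10 : 0 ≤ c1 := by rw [hc1]; positivity
  obtain ⟨Mj, hMj⟩ : ∃ Mj : ℝ, Mj = K * (1 + 2 * Rj ^ 2) := ⟨_, rfl⟩
  have hMj0 : 0 ≤ Mj := by rw [hMj]; positivity
  obtain ⟨W, hW⟩ : ∃ W : ℝ, W = |ℓn| + |ℓp| + 1 + 2 * c1 / κn + Mj / κj := ⟨_, rfl⟩
  have w1 : 0 ≤ 2 * c1 / κn := by positivity
  have w2 : 0 ≤ Mj / κj := by positivity
  have w3 := abs_nonneg ℓn
  have w4 := abs_nonneg ℓp
  have w5 := le_abs_self ℓn
  have w6 := le_abs_self ℓp
  refine ⟨κa / 2, Rn + |Ra|, 2 * W + 14 * m + |Real.log C1| + m * Real.log (1 + Rn) + m * Real.log (1 + |Ra|),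
    by positivity, by linarith, ?_⟩
  rintro N μ Λ ⟨α, e, d, hnz⟩ y hC hyp
  have nd := HN N μ α e Λ d hnz y
  have hN1 := d.one_le
  have hNpos : 0 < N := by linarith
  obtain ⟨hb1, hb2⟩ := el_bd d.one_le d.re_le y
  obtain ⟨L, hL⟩ : ∃ L : ℝ, L = Real.log (cnd N μ y) := ⟨_, rfl⟩
  rw [← hL] at hC hb1 hb2
  have hC1abs := abs_nonneg (Real.log C1)
  obtain ⟨ℓ, hℓ⟩ : ∃ ℓ : ℝ, ℓ = el N μ y := ⟨_, rfl⟩
  rw [← hℓ] at nd hb1 hb2 ⊢
  have hℓW : W ≤ ℓ := by linarith
  have hℓ1 : 1 ≤ ℓ := by linarith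
  have hℓ0 : 0 < ℓ := by linarith
  have hg := gpos hm d.one_le d.re_le (μ := μ) y
  have pf := HP ℓ 1 (fn N μ Λ y) (by linarith) nd.ud (fun u hu1 _ h => by
    have := (abs_le.1 (nd.zer u h)).2
    linarith)
  rw [hρd] at pf
  -- bounds to the right at the heights near `y`
  have hright : ∀ v : ℝ, |v| ≤ Rn → ∀ x : ℝ, 0 ≤ x → x ≤ 1 / 2 →
      ‖LL μ Λ (1 / 2 + (x : ℂ) + ((y + v : ℝ) : ℂ) * I)‖ ≤ Real.exp (Ba + κn / 8 * Real.log (cnd N μ (y + v))) := by
    intro v hv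
    obtain ⟨hn1, hn2⟩ := log_near (μ := μ) d.one_le (show 0 ≤ Rn by linarith) hv (y := y)
    rw [← hL] at hn1 hn2
    have hpos := cnd_pos d.one_le μ (y + v)
    refine HA N μ α e Λ d hnz (y + v) ?_ ?_
    · have h1 : Real.log C1 ≤ Real.log (cnd N μ (y + v)) := by
        have := le_abs_self (Real.log C1)
        linarith
      rcases le_or_gt C1 0 with h2 | h2
      · linarith
      · exact (Real.log_le_log_iff h2 (by linarith)).1 h1
    · intro v' hv'
      have h1 := hyp (v + v') (by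
        refine (abs_add_le v v').trans ?_
        have := le_abs_self Ra
        linarith)
      have e1 : y + (v + v') = y + v + v' := by ring
      rw [e1] at h1
      refine h1.trans (Real.exp_le_exp.2 ?_)
      have h2 := (log_near (μ := μ) d.one_le hRa0 (hv'.trans (le_abs_self Ra)) (y := y + v)).2
      have h3 : m * Real.log (1 + |Ra|) ≤ Real.log (cnd N μ (y + v)) := by linarith
      have h4 := mul_le_mul_of_nonneg_left (h2.trans (add_le_add_right h3 _)) (show 0 ≤ κa / 2 by positivity)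
      linarith
  -- the bounds on the lines
  have hbd := HNt ℓ 1 (fn N μ Λ y) (by linarith) nd.ud pf (fun k hk1 hkM v hv => by
    have hk1' : (1 : ℝ) ≤ k := by exact_mod_cast hk1
    have hkM' : (k : ℝ) ≤ M := by exact_mod_cast hkM
    obtain ⟨x, hx⟩ : ∃ x : ℝ, x = k / (2 * M) := ⟨_, rfl⟩
    have hxρ : ρ ≤ x := by
      rw [hρd, hx]
      gcongr
    have hx1 : x ≤ 1 / 2 := by
      rw [hx, div_le_iff₀ (by positivity)]
      linarith
    rw [← hx]
    obtain ⟨u, hu⟩ : ∃ u : ℂ, u = (x : ℂ) + v * I := ⟨_, rfl⟩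
    have hure : u.re = x := by rw [hu]; simp
    have huim : u.im = v := by rw [hu]; simp
    rw [← hu]
    have h6 := hright v hv x (by linarith) hx1
    have e1 : (1 / 2 + (x : ℂ) + ((y + v : ℝ) : ℂ) * I : ℂ) = 1 / 2 + (y : ℂ) * I + u := by
      rw [hu]; push_cast; ring
    rw [e1, LL_eq hNpos] at h6
    obtain ⟨h7, h8⟩ := gam_up hm hN1 d.re_le y hρ hρ1 (u := u) (by rw [hure]; exact hxρ)
    rw [hure] at h8
    have hel : (gaD N μ (3 / 2 + y * I)).re = ℓ := by rw [hℓ]; rfl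
    rw [hel] at h8
    have h9 : ‖fn N μ Λ y u‖ = (‖gaf N μ (3 / 2 + y * I)‖ * Real.exp (-ℓ))⁻¹ *
        (‖XX N Λ (1 / 2 + (y : ℂ) * I + u) * (gaf N μ (1 / 2 + (y : ℂ) * I + u))⁻¹‖ *
        ‖gaf N μ (1 / 2 + (y : ℂ) * I + u)‖) := by
      rw [← norm_mul, mul_assoc, inv_mul_cancel₀ h7, mul_one]
      unfold fn
      rw [norm_mul, Complex.norm_real, Real.norm_of_nonneg (by positivity), hel]
    rw [h9]
    rw [hel] at hg
    have hnu : 1 + ‖u‖ ^ 2 ≤ 2 + Rn ^ 2 := by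
      have := nsq (u := u) (a := 1) (b := Rn) (by rw [hure, abs_of_pos (by linarith)]; linarith)
        (by rw [huim]; exact hv)
      linarith
    obtain ⟨hn1, hn2⟩ := log_near (μ := μ) d.one_le (show 0 ≤ Rn by linarith) hv (y := y)
    rw [← hL] at hn1 hn2
    obtain ⟨g, hgd⟩ : ∃ g : ℝ, g = ‖gaf N μ (3 / 2 + y * I)‖ * Real.exp (-ℓ) := ⟨_, rfl⟩
    rw [← hgd] at hg h8 ⊢
    have hc : c1 ≤ κn / 2 * ℓ := by
      have h10 : 2 * c1 / κn ≤ ℓ := by linarith
      rw [div_le_iff₀ hκn] at h10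
      linarith
    calc g⁻¹ * (‖XX N Λ (1 / 2 + (y : ℂ) * I + u) * (gaf N μ (1 / 2 + (y : ℂ) * I + u))⁻¹‖ *
        ‖gaf N μ (1 / 2 + (y : ℂ) * I + u)‖) ≤ g⁻¹ * (Real.exp (Ba + κn / 8 * Real.log (cnd N μ (y + v))) *
          (g * Real.exp (ℓ * x + (226 * m + 25 * m / ρ) * (1 + ‖u‖ ^ 2)))) := by
            apply mul_le_mul_of_nonneg_left _ (by positivity)
            exact mul_le_mul h6 h8 (norm_nonneg _) (Real.exp_pos _).le
      _ = Real.exp ((Ba + κn / 8 * Real.log (cnd N μ (y + v))) +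
          (ℓ * x + (226 * m + 25 * m / ρ) * (1 + ‖u‖ ^ 2))) := by
            rw [Real.exp_add (Ba + κn / 8 * Real.log (cnd N μ (y + v)))
              (ℓ * x + (226 * m + 25 * m / ρ) * (1 + ‖u‖ ^ 2))]
            have hab : ∀ a b : ℝ, g⁻¹ * (a * (g * b)) = a * b := fun a b => by field_simp
            exact hab _ _
      _ ≤ 1 * Real.exp (ℓ * phx κj x + κn * ℓ) := by
            rw [one_mul]
            apply Real.exp_le_exp.2
            have h10 := (phx_small hκj (show 0 ≤ x by linarith)).1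
            have h11 := mul_le_mul_of_nonneg_left h10 hℓ0.le
            have h12 : (226 * m + 25 * m / ρ) * (1 + ‖u‖ ^ 2) ≤ (226 * m + 25 * m / ρ) * (2 + Rn ^ 2) :=
              mul_le_mul_of_nonneg_left hnu (by positivity)
            have h13 : κn / 8 * Real.log (cnd N μ (y + v)) ≤
                κn / 8 * (2 * ℓ + 14 * m + m * Real.log (1 + Rn)) := by
              apply mul_le_mul_of_nonneg_left _ (by positivity)
              linarith
            have h14 := le_abs_self Ba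
            have h15 : 0 < κn * ℓ := by positivity
            linarith)
  have key := HJ ℓ 1 (fn N μ Λ y) hℓ0 one_pos nd.diff
    (fun u hu1 hu2 hu3 => by
      refine (hbd u (by rw [abs_of_nonneg hu1]; exact hu2) hu3).trans ?_
      rw [abs_of_nonneg hu1, one_mul, one_mul]
      apply Real.exp_le_exp.2
      have h1 := mul_le_mul_of_nonneg_left (phx_small hκj hu1).2 hℓ0.le
      linarith)
    (fun u hu1 hu2 hu3 => by
      refine le_trans ?_ (nd.ud.lo u (by linarith))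
      rw [one_mul, one_mul]
      apply Real.exp_le_exp.2
      have h1 : K * (1 + ‖u‖ ^ 2) ≤ Mj := by
        rw [hMj]
        have := nsq (u := u) (a := Rj) (b := Rj) (by rw [abs_of_nonneg (by linarith)]; exact hu2) hu3
        exact mul_le_mul_of_nonneg_left (by linarith) (by linarith)
      have h2 : Mj ≤ κj * ℓ := by
        have h3 : Mj / κj ≤ ℓ := by linarith
        rw [div_le_iff₀ hκj] at h3
        linarith
      linarith)
  intro F hF
  rw [← Finset.sum_filter_add_sum_filter_not F (fun z => 0 ≤ z.re)]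
  have h1 := key (F.filter (fun z => 0 ≤ z.re)) (fun z hz => by
    obtain ⟨a1, a2⟩ := Finset.mem_filter.1 hz
    obtain ⟨a3, a4, a5⟩ := hF z a1
    rw [abs_of_nonneg a2] at a4
    have a6 := (abs_le.1 (nd.zer z a3)).2
    exact ⟨a3, (min_le_left _ _).trans a4, a6.trans ((by norm_num : (1 / 2 : ℝ) ≤ 1).trans (le_max_right _ _)),
      a5.trans (le_max_left _ _)⟩)
  have h2 := key ((F.filter (fun z => ¬ 0 ≤ z.re)).image (fun z => -conj z)) (fun w hw => by
    obtain ⟨z, hz, rfl⟩ := Finset.mem_image.1 hw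
    obtain ⟨a1, a2⟩ := Finset.mem_filter.1 hz
    obtain ⟨a3, a4, a5⟩ := hF z a1
    rw [not_le] at a2
    rw [abs_of_neg a2] at a4
    have a6 := (abs_le.1 (nd.zer z a3)).1
    obtain ⟨ε, hε, hfe⟩ := nd.ud.fe
    have e1 : (-conj z).re = -z.re := by simp
    have e2 : (-conj z).im = z.im := by simp
    refine ⟨?_, ?_, ?_, ?_⟩
    · have h3 := hfe (-conj z)
      have e3 : -conj (-conj z) = z := by simp
      rw [e3, a3, map_zero, mul_zero] at h3
      exact h3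
    · rw [e1]; exact (min_le_left _ _).trans a4
    · rw [e1]
      have : (1 : ℝ) ≤ max R 1 := le_max_right _ _
      linarith
    · rw [e2]; exact a5.trans (le_max_left _ _))
  rw [Finset.sum_image (fun x _ y _ hxy => by
    have h3 := congrArg (fun z => -conj z) hxy
    simpa using h3)] at h2
  have h3 : ∑ z ∈ F.filter (fun z => ¬ 0 ≤ z.re), (analyticOrderNatAt (fn N μ Λ y) (-conj z) : ℝ) =
      ∑ z ∈ F.filter (fun z => ¬ 0 ≤ z.re), (mu (fn N μ Λ y) z : ℝ) := by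
    refine Finset.sum_congr rfl fun z _ => ?_
    have := mu_refl nd z
    unfold mu at this ⊢
    rw [this]
  rw [h3] at h2
  have h4 : ∑ z ∈ F.filter (fun z => 0 ≤ z.re), (mu (fn N μ Λ y) z : ℝ) ≤ η / 2 * ℓ := h1
  linarith

end Q270GD
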