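import Pool.Agent.Q270.GD.C11

/-! # Automorphic L-functions: the counting function -/

set_option autoImplicit false

open Complex Filter Topology Set MeasureTheory Metric
open scoped ComplexConjugate
open Pool.Agent.W169.HF H353.E H353.F
open Q270LD (Prof)

namespace Q270GD

/-- **Bounds on the critical line give the expected number of zeros.** -/
theorem size_cnt (m : ℕ) (hm : 1 ≤ m) {r : ℝ → ℝ} (hr : Prof r) {ε : ℝ} (hε : 0 < ε) :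
    ∃ κ W0 C0 : ℝ, 0 < κ ∧ 0 ≤ W0 ∧ ∀ (N : ℝ) (μ : Fin m → ℂ) (Λ : ℂ → ℂ), Dt N μ Λ → ∀ y : ℝ,
      C0 ≤ Real.log (cnd N μ y) →
      (∀ v : ℝ, |v| ≤ W0 → ‖LL μ Λ (1 / 2 + ((y + v : ℝ) : ℂ) * I)‖ ≤ Real.exp (κ * Real.log (cnd N μ (y + v)))) →
      (∃ F : Finset ℂ, Zs Λ r y F ∧
        (r 0 / Real.pi - ε) * Real.log (cnd N μ y) ≤ ∑ z ∈ F, (analyticOrderNatAt Λ z : ℝ)) ∧
      (∀ F : Finset ℂ, Zs Λ r y F →
        ∑ z ∈ F, (analyticOrderNatAt Λ z : ℝ) ≤ (r 0 / Real.pi + ε) * Real.log (cnd N μ y)) := by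
  have hm' : (1 : ℝ) ≤ m := by exact_mod_cast hm
  obtain ⟨K, hK, HN⟩ := nd_of m hm
  have hr0 := hr.pos
  have hrpi : 0 < r 0 / Real.pi := div_pos hr.pos Real.pi_pos
  obtain ⟨ε', hε'⟩ : ∃ ε' : ℝ, ε' = min (ε / 2) (r 0 / Real.pi) := ⟨_, rfl⟩
  have hε'0 : 0 < ε' := by rw [hε']; exact lt_min (half_pos hε) hrpi
  have hε'1 : ε' ≤ ε / 2 := by rw [hε']; exact min_le_left _ _
  have hε'2 : ε' ≤ r 0 / Real.pi := by rw [hε']; exact min_le_right _ _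
  obtain ⟨δ1, η1, R1, ℓ1, hδ1, hη1, hR1, hℓ1, HM⟩ := many hK hr hε'0
  obtain ⟨δ2, η2, R2, ℓ2, hδ2, hη2, hR2, hℓ2, HU⟩ := upper hK hr (half_pos hε)
  obtain ⟨κ1, W1, C1, hκ1, hW1, H1⟩ := size_off m hm (R := R1) hδ1 hη1
  obtain ⟨κ2, W2, C2, hκ2, hW2, H2⟩ := size_off m hm (R := R2) hδ2 hη2
  obtain ⟨c, hc⟩ : ∃ c : ℝ, c = r 0 / Real.pi + ε / 2 := ⟨_, rfl⟩
  have hc0 : 0 < c := by rw [hc]; positivity
  refine ⟨min κ1 κ2, max W1 W2, |C1| + |C2| + 2 * (ℓ1 + ℓ2) + 14 * m + 2 * (14 * m * c) / ε,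
    lt_min hκ1 hκ2, hW1.trans (le_max_left _ _), ?_⟩
  intro N μ Λ hD y hC hyp
  obtain ⟨α, e, d, hnz⟩ := id hD
  have nd := HN N μ α e Λ d hnz y
  obtain ⟨hb1, hb2⟩ := el_bd d.one_le d.re_le y
  have k1 : 0 ≤ 2 * (14 * m * c) / ε := by positivity
  have k2 := abs_nonneg C1
  have k3 := abs_nonneg C2
  have k4 := le_abs_self C1
  have k5 := le_abs_self C2
  have hpos : ∀ v, 0 ≤ Real.log (cnd N μ v) := fun v => Real.log_nonneg (cnd_pos d.one_le μ v)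
  have o1 := H1 N μ Λ hD y (by linarith) (fun v hv => (hyp v (hv.trans (le_max_left _ _))).trans (by
    apply Real.exp_le_exp.2
    exact mul_le_mul_of_nonneg_right (min_le_left _ _) (hpos _)))
  have o2 := H2 N μ Λ hD y (by linarith) (fun v hv => (hyp v (hv.trans (le_max_right _ _))).trans (by
    apply Real.exp_le_exp.2
    exact mul_le_mul_of_nonneg_right (min_le_right _ _) (hpos _)))
  obtain ⟨L, hL⟩ : ∃ L : ℝ, L = Real.log (cnd N μ y) := ⟨_, rfl⟩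
  rw [← hL] at hC hb1 hb2 ⊢
  have hcL : 2 * (14 * m * c) ≤ ε * L := by
    have h1 : 2 * (14 * m * c) / ε ≤ L := by linarith
    rw [div_le_iff₀ hε] at h1
    linarith
  constructor
  · obtain ⟨F, hF, hF2⟩ := HM _ _ (by linarith) nd o1
    obtain ⟨F', hF', hs⟩ := of_fn hm d.one_le d.re_le d.entire y F (fun u hu => (hF u hu).1)
    refine ⟨F', fun z hz => ?_, ?_⟩
    · obtain ⟨h1, h2⟩ := hF' z hz
      refine ⟨h1, ?_⟩
      have h3 := (hF _ h2).2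
      have e1 : (z - (1 / 2 + (y : ℂ) * I)).re = z.re - 1 / 2 := by simp
      have e2 : (z - (1 / 2 + (y : ℂ) * I)).im = z.im - y := by simp
      rwa [e1, e2] at h3
    · rw [hs]
      refine le_trans ?_ hF2
      have h1 : (r 0 / Real.pi - ε') * (L - 14 * m) ≤ (r 0 / Real.pi - ε') * (2 * el N μ y) := by
        apply mul_le_mul_of_nonneg_left _ (by linarith)
        linarith
      have h2 : (r 0 / Real.pi - ε') * (14 * m) ≤ c * (14 * m) := by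
        apply mul_le_mul_of_nonneg_right _ (by positivity)
        linarith
      have hL0 : 0 ≤ L := by rw [hL]; exact hpos y
      have h3 : ε' * L ≤ ε / 2 * L := mul_le_mul_of_nonneg_right hε'1 hL0
      linarith
  · intro F hF
    obtain ⟨F', hF', hs⟩ := to_fn hm d.one_le d.re_le d.entire y F (fun z hz => (hF z hz).1)
    rw [← hs]
    refine (HU _ _ (by linarith) nd o2 F' (fun u hu => ?_)).trans ?_
    · obtain ⟨h1, h2⟩ := hF' u hu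
      refine ⟨h1, ?_⟩
      have h3 := (hF _ h2).2
      have e1 : (1 / 2 + (y : ℂ) * I + u).re - 1 / 2 = u.re := by simp
      have e2 : (1 / 2 + (y : ℂ) * I + u).im - y = u.im := by simp
      rwa [e1, e2] at h3
    · rw [← hc]
      have h1 : c * (2 * el N μ y) ≤ c * (L + 10 * m) := mul_le_mul_of_nonneg_left hb2 hc0.le
      have e1 : r 0 / Real.pi + ε = c + ε / 2 := by rw [hc]; ring
      rw [e1]
      have h2 : c * (10 * m) ≤ c * (14 * m) := by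
        apply mul_le_mul_of_nonneg_left _ hc0.le
        linarith
      linarith

/-- the number of zeros in the region with profile `r` at height `T` -/
noncomputable def nz (Λ : ℂ → ℂ) (r : ℝ → ℝ) (T : ℝ) : ℕ :=
  ∑ᶠ s ∈ {s : ℂ | Λ s = 0 ∧ |s.im - T| < r (s.re - 1 / 2)}, analyticOrderNatAt Λ s

lemma nz_fin {m : ℕ} (hm : 1 ≤ m) {N : ℝ} {μ : Fin m → ℂ} {Λ : ℂ → ℂ} (hD : Dt N μ Λ) {r : ℝ → ℝ} {r0 : ℝ}
    (hr : ∀ x, r x ≤ r0) {T : ℝ} (hT : 14 * m ≤ Real.log (cnd N μ T)) :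
    Set.Finite {s : ℂ | Λ s = 0 ∧ |s.im - T| < r (s.re - 1 / 2)} := by
  obtain ⟨K, hK, HN⟩ := nd_of m hm
  obtain ⟨α, e, d, hnz⟩ := hD
  have nd := HN N μ α e Λ d hnz T
  obtain ⟨hb1, hb2⟩ := el_bd d.one_le d.re_le T
  have h1 := fin_low nd hK (by linarith) r0
  refine (h1.image fun u => 1 / 2 + (T : ℂ) * I + u).subset fun s hs => ?_
  obtain ⟨hs1, hs2⟩ := hs
  refine ⟨s - (1 / 2 + (T : ℂ) * I), ⟨?_, ?_⟩, by ring⟩
  · rw [fn_zero hm d.one_le d.re_le, add_sub_cancel]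
    exact hs1
  · have e2 : (s - (1 / 2 + (T : ℂ) * I)).im = s.im - T := by simp
    rw [e2]
    exact hs2.le.trans (hr _)

lemma nz_ex {m : ℕ} (hm : 1 ≤ m) {N : ℝ} {μ : Fin m → ℂ} {Λ : ℂ → ℂ} (hD : Dt N μ Λ) {r : ℝ → ℝ} {r0 : ℝ}
    (hr : ∀ x, r x ≤ r0) {T : ℝ} (hT : 14 * m ≤ Real.log (cnd N μ T)) :
    ∃ F : Finset ℂ, Zs Λ r T F ∧ ∑ z ∈ F, (analyticOrderNatAt Λ z : ℝ) = nz Λ r T ∧
      ∀ F' : Finset ℂ, Zs Λ r T F' → ∑ z ∈ F', (analyticOrderNatAt Λ z : ℝ) ≤ nz Λ r T := by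
  have hfin := nz_fin hm hD hr hT
  have h1 : (nz Λ r T : ℝ) = ∑ z ∈ hfin.toFinset, (analyticOrderNatAt Λ z : ℝ) := by
    unfold nz
    rw [finsum_mem_eq_finite_toFinset_sum _ hfin]
    push_cast
    rfl
  refine ⟨hfin.toFinset, fun z hz => (Set.Finite.mem_toFinset hfin).1 hz, h1.symm, fun F' hF' => ?_⟩
  rw [h1]
  refine Finset.sum_le_sum_of_subset_of_nonneg (fun z hz => ?_) fun _ _ _ => Nat.cast_nonneg _
  exact (Set.Finite.mem_toFinset hfin).2 (hF' z hz)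

variable {m : ℕ} {r : ℝ → ℝ}

lemma v_of {y T W : ℝ} (h : |T - y| ≤ W) : T = y + (T - y) ∧ |T - y| ≤ W := ⟨by ring, h⟩

/-- counts give bounds -/
theorem law1 (hm : 1 ≤ m) (hr : Prof r) {κ : ℝ} (hκ : 0 < κ) : ∃ η W C0 : ℝ, 0 < η ∧ 0 ≤ W ∧
    ∀ (N : ℝ) (μ : Fin m → ℂ) (Λ : ℂ → ℂ), Dt N μ Λ → ∀ y : ℝ, C0 ≤ Real.log (cnd N μ y) →
      (∀ T : ℝ, |T - y| ≤ W → (r 0 / Real.pi - η) * Real.log (cnd N μ T) ≤ (nz Λ r T : ℝ)) →
      ‖LL μ Λ (1 / 2 + (y : ℂ) * I)‖ ≤ Real.exp (κ * Real.log (cnd N μ y)) := by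
  obtain ⟨η, W, C0, hη, hW, H⟩ := cnt_size m hm hr hκ
  refine ⟨η, W, max C0 (14 * m + m * Real.log (1 + W)), hη, hW, fun N μ Λ hD y hC hyp => ?_⟩
  have hN := hD.choose_spec.choose_spec.1.one_le
  refine H N μ Λ hD y ((le_max_left _ _).trans hC) fun v hv => ?_
  have h1 := (log_near (μ := μ) hN hW hv (y := y)).1
  have h2 := (le_max_right C0 (14 * m + m * Real.log (1 + W))).trans hC
  obtain ⟨F, hF, hF2, _⟩ := nz_ex hm hD hr.le (T := y + v) (by linarith)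
  refine ⟨F, hF, ?_⟩
  rw [hF2]
  exact hyp (y + v) (by rw [add_sub_cancel_left]; exact hv)

/-- bounds give counts -/
theorem law2 (hm : 1 ≤ m) (hr : Prof r) {ε : ℝ} (hε : 0 < ε) : ∃ κ W C0 : ℝ, 0 < κ ∧ 0 ≤ W ∧
    ∀ (N : ℝ) (μ : Fin m → ℂ) (Λ : ℂ → ℂ), Dt N μ Λ → ∀ y : ℝ, C0 ≤ Real.log (cnd N μ y) →
      (∀ T : ℝ, |T - y| ≤ W → ‖LL μ Λ (1 / 2 + (T : ℂ) * I)‖ ≤ Real.exp (κ * Real.log (cnd N μ T))) →
      |(nz Λ r y : ℝ) - r 0 / Real.pi * Real.log (cnd N μ y)| ≤ ε * Real.log (cnd N μ y) := by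
  obtain ⟨κ, W, C0, hκ, hW, H⟩ := size_cnt m hm hr hε
  refine ⟨κ, W, max C0 (14 * m), hκ, hW, fun N μ Λ hD y hC hyp => ?_⟩
  obtain ⟨⟨F, hF, hF2⟩, hU⟩ := H N μ Λ hD y ((le_max_left _ _).trans hC) (fun v hv =>
    hyp (y + v) (by rw [add_sub_cancel_left]; exact hv))
  obtain ⟨F0, hF0, hF02, hF03⟩ := nz_ex hm hD hr.le ((le_max_right _ _).trans hC)
  have h1 := hF03 F hF
  have h2 := hU F0 hF0
  rw [hF02] at h2
  rw [abs_le]
  constructor <;> linarith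

/-- sharpness -/
theorem law3 (hm : 1 ≤ m) (hr : Prof r) {ε : ℝ} (hε : 0 < ε) : ∃ W C0 : ℝ, 0 ≤ W ∧
    ∀ (N : ℝ) (μ : Fin m → ℂ) (Λ : ℂ → ℂ), Dt N μ Λ → ∀ y : ℝ, C0 ≤ Real.log (cnd N μ y) →
      ∃ T : ℝ, |T - y| ≤ W ∧ (nz Λ r T : ℝ) < (r 0 / Real.pi + ε) * Real.log (cnd N μ T) := by
  obtain ⟨W, C0, hW, H⟩ := cnt_sharp m hm hr hε
  refine ⟨W, max C0 (14 * m + m * Real.log (1 + W)), hW, fun N μ Λ hD y hC => ?_⟩
  have hN := hD.choose_spec.choose_spec.1.one_le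
  obtain ⟨v, hv, hF⟩ := H N μ Λ hD y ((le_max_left _ _).trans hC)
  have h1 := (log_near (μ := μ) hN hW hv (y := y)).1
  have h2 := (le_max_right C0 (14 * m + m * Real.log (1 + W))).trans hC
  obtain ⟨F, hF1, hF2, _⟩ := nz_ex hm hD hr.le (T := y + v) (by linarith)
  refine ⟨y + v, by rw [add_sub_cancel_left]; exact hv, ?_⟩
  rw [← hF2]
  exact hF F hF1

end Q270GD
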