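import Pool.Agent.Q270.GD.C1
import Pool.Agent.Q270.LD.A2

/-! # Weighted sums over the zeros -/

set_option autoImplicit false

open Complex Filter Topology Set MeasureTheory Metric
open scoped ComplexConjugate
open Pool.Agent.W169.HF

namespace Q270GD

lemma near_count {K ℓ : ℝ} {f : ℂ → ℂ} (h : ND K ℓ f) (hK : 1 ≤ K) (hℓ : 0 ≤ ℓ) (u : ℝ) (S : Finset ℂ)
    (hS : ∀ z ∈ S, f z = 0) :
    ∑ z ∈ S, (mu f z : ℝ) * (Icc (z.im - 1 / 2) (z.im + 1 / 2)).indicator (fun _ => (1 : ℝ)) u ≤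
      10 * Bt K ℓ u := by
  classical
  refine le_trans (le_of_eq ?_) (count h hK hℓ u (S.filter fun z => u ∈ Icc (z.im - 1 / 2) (z.im + 1 / 2))
    (fun z hz => ?_))
  · rw [Finset.sum_filter]
    refine Finset.sum_congr rfl fun z _ => ?_
    by_cases hm : u ∈ Icc (z.im - 1 / 2) (z.im + 1 / 2)
    · rw [indicator_of_mem hm, if_pos hm, mul_one]
    · rw [indicator_of_notMem hm, if_neg hm, mul_zero]
  · obtain ⟨h1, h2⟩ := Finset.mem_filter.1 hz
    have h3 := abs_le.1 (h.zer z (hS z h1))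
    refine in_ball (by norm_num) (a := 7 / 2) (b := 1 / 2) ?_ ?_ (by norm_num)
    · rw [abs_le]; constructor <;> linarith [h3.1, h3.2]
    · rw [abs_le]; constructor <;> linarith [h2.1, h2.2]

/-- sums of weights against integrals -/
lemma wsum {K ℓ : ℝ} {f : ℂ → ℂ} (h : ND K ℓ f) (hK : 1 ≤ K) (hℓ : 0 ≤ ℓ) (S : Finset ℂ)
    (hS : ∀ z ∈ S, f z = 0) {w w0 : ℝ → ℝ} {c : ℝ} (hc : 0 ≤ c) (hw : ∀ u, 0 ≤ w u)
    (hw0 : ∀ z ∈ S, ∀ u : ℝ, |u - z.im| ≤ 1 / 2 → w0 z.im ≤ c * w u)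
    (hi : Integrable w) (hi2 : Integrable (fun u => u ^ 2 * w u)) :
    ∑ z ∈ S, (mu f z : ℝ) * w0 z.im ≤
      c * (10 * (13 * ℓ + 350 * K) * ∫ u, w u) + c * (3500 * K * ∫ u, u ^ 2 * w u) := by
  have h1 : ∀ z ∈ S, w0 z.im ≤ c * ∫ u, (Icc (z.im - 1 / 2) (z.im + 1 / 2)).indicator (fun _ => (1 : ℝ)) u * w u := by
    intro z hz
    have h2 : ∀ u, (Icc (z.im - 1 / 2) (z.im + 1 / 2)).indicator (fun _ => (1 : ℝ)) u * w u =
        (Icc (z.im - 1 / 2) (z.im + 1 / 2)).indicator w u := fun u => by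
      by_cases hm : u ∈ Icc (z.im - 1 / 2) (z.im + 1 / 2)
      · rw [indicator_of_mem hm, indicator_of_mem hm, one_mul]
      · rw [indicator_of_notMem hm, indicator_of_notMem hm, zero_mul]
    simp only [h2]
    rw [integral_indicator measurableSet_Icc, ← integral_const_mul]
    have h3 : ∫ _ in Icc (z.im - 1 / 2) (z.im + 1 / 2), w0 z.im = w0 z.im := by
      rw [setIntegral_const]
      simp
      norm_num
    calc w0 z.im = ∫ _ in Icc (z.im - 1 / 2) (z.im + 1 / 2), w0 z.im := h3.symm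
      _ ≤ _ := by
        refine setIntegral_mono_on (integrableOn_const (by simp)) (hi.integrableOn.const_mul c)
          measurableSet_Icc fun u hu => hw0 z hz u ?_
        rw [abs_le]
        constructor <;> linarith [hu.1, hu.2]
  have hind : ∀ z : ℂ, Integrable (fun u => (Icc (z.im - 1 / 2) (z.im + 1 / 2)).indicator (fun _ => (1 : ℝ)) u * w u) := by
    intro z
    refine (hi.indicator (measurableSet_Icc (a := z.im - 1 / 2) (b := z.im + 1 / 2))).congr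
      (Eventually.of_forall fun u => ?_)
    by_cases hm : u ∈ Icc (z.im - 1 / 2) (z.im + 1 / 2)
    · simp only [indicator_of_mem hm, one_mul]
    · simp only [indicator_of_notMem hm, zero_mul]
  have h2 : ∑ z ∈ S, (mu f z : ℝ) * w0 z.im ≤
      c * ∫ u, ∑ z ∈ S, (mu f z : ℝ) * ((Icc (z.im - 1 / 2) (z.im + 1 / 2)).indicator (fun _ => (1 : ℝ)) u * w u) := by
    rw [integral_finsetSum _ fun z _ => (hind z).const_mul _, Finset.mul_sum]
    refine Finset.sum_le_sum fun z hz => ?_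
    rw [integral_const_mul]
    calc (mu f z : ℝ) * w0 z.im ≤ mu f z * (c * ∫ u, (Icc (z.im - 1 / 2) (z.im + 1 / 2)).indicator (fun _ => (1 : ℝ)) u * w u) :=
          mul_le_mul_of_nonneg_left (h1 z hz) (Nat.cast_nonneg _)
      _ = _ := by ring
  have h3 : ∫ u, ∑ z ∈ S, (mu f z : ℝ) * ((Icc (z.im - 1 / 2) (z.im + 1 / 2)).indicator (fun _ => (1 : ℝ)) u * w u) ≤
      ∫ u, (10 * (13 * ℓ + 350 * K) * w u + 3500 * K * (u ^ 2 * w u)) := by
    refine integral_mono (integrable_finsetSum _ fun z _ => (hind z).const_mul _)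
      ((hi.const_mul _).add (hi2.const_mul _)) fun u => ?_
    show ∑ z ∈ S, (mu f z : ℝ) * ((Icc (z.im - 1 / 2) (z.im + 1 / 2)).indicator (fun _ => (1 : ℝ)) u * w u) ≤
      10 * (13 * ℓ + 350 * K) * w u + 3500 * K * (u ^ 2 * w u)
    have h4 := mul_le_mul_of_nonneg_right (near_count h hK hℓ u S hS) (hw u)
    rw [Finset.sum_mul] at h4
    unfold Bt at h4
    calc _ = ∑ z ∈ S, (mu f z : ℝ) * (Icc (z.im - 1 / 2) (z.im + 1 / 2)).indicator (fun _ => (1 : ℝ)) u * w u :=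
          Finset.sum_congr rfl fun z _ => by ring
      _ ≤ _ := h4
      _ = _ := by ring
  rw [integral_add (hi.const_mul _) (hi2.const_mul _), integral_const_mul, integral_const_mul] at h3
  have h5 := mul_le_mul_of_nonneg_left h3 hc
  linarith

lemma q_near {A : ℝ} (hA : 1 ≤ A) {t u : ℝ} (h : |u - t| ≤ 1 / 2) : Q270LD.q A t ≤ 9 * Q270LD.q A u := by
  have h2 : (u - t) ^ 2 ≤ 1 := by
    rw [← sq_abs]
    nlinarith [abs_nonneg (u - t)]
  unfold Q270LD.q
  rw [mul_div_assoc', div_le_div_iff₀ (by positivity) (by positivity)]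
  have h5 : A ^ 2 + u ^ 2 ≤ 3 * (A ^ 2 + t ^ 2) := by nlinarith [sq_nonneg (2 * t - u), sq_nonneg t]
  have h6 : (A ^ 2 + u ^ 2) ^ 2 ≤ (3 * (A ^ 2 + t ^ 2)) ^ 2 := pow_le_pow_left₀ (by positivity) h5 2
  nlinarith [sq_nonneg A]

lemma q_sq_le {A : ℝ} (hA : 1 ≤ A) (u : ℝ) : u ^ 2 * Q270LD.q A u ≤ A ^ 2 * (A ^ 2 + u ^ 2)⁻¹ := by
  unfold Q270LD.q
  have h1 : 0 < A ^ 2 + u ^ 2 := by positivity
  rw [mul_div_assoc', div_le_iff₀ (by positivity)]
  have h2 : A ^ 2 * (A ^ 2 + u ^ 2)⁻¹ * (A ^ 2 + u ^ 2) ^ 2 = A ^ 2 * (A ^ 2 + u ^ 2) := by field_simp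
  rw [h2]
  nlinarith [sq_nonneg u, sq_nonneg (A * A)]

lemma q_sq_int {A : ℝ} (hA : 1 ≤ A) : Integrable (fun u => u ^ 2 * Q270LD.q A u) :=
  ((Q270LD.inv_int hA).1.const_mul (A ^ 2)).mono' ((by fun_prop : Measurable fun u : ℝ => u ^ 2).mul
    (Q270LD.q_meas A)).aestronglyMeasurable (Eventually.of_forall fun u => by
      have := Q270LD.q_nonneg A u
      rw [Real.norm_of_nonneg (by positivity)]
      exact q_sq_le hA u)

/-- the number of zeros in a window of length `A`, weighted by `1 / A ^ 2` -/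
theorem qsum {K ℓ : ℝ} {f : ℂ → ℂ} (h : ND K ℓ f) (hK : 1 ≤ K) (hℓ : 1 ≤ ℓ) {A : ℝ} (hA : 1 ≤ A) (S : Finset ℂ)
    (hS : ∀ z ∈ S, f z = 0) :
    ∑ z ∈ S, (mu f z : ℝ) * Q270LD.q A z.im ≤ 131000 * K * (ℓ / A + A) := by
  have hA0 : 0 < A := by linarith
  have h1 := wsum h hK (by linarith) S hS (w := Q270LD.q A) (w0 := Q270LD.q A) (c := 9) (by norm_num)
    (Q270LD.q_nonneg A) (fun z _ u hu => q_near hA hu) (Q270LD.q_int hA) (q_sq_int hA)
  have h2 := Q270LD.q_int_le hA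
  have h3 : ∫ u, u ^ 2 * Q270LD.q A u ≤ 4 * A := by
    have h4 := integral_mono (q_sq_int hA) ((Q270LD.inv_int hA).1.const_mul (A ^ 2)) (q_sq_le hA)
    rw [integral_const_mul, (Q270LD.inv_int hA).2] at h4
    refine h4.trans ?_
    have e : A ^ 2 * (Real.pi / A) = Real.pi * A := by field_simp
    rw [e]
    exact mul_le_mul_of_nonneg_right Real.pi_lt_four.le hA0.le
  have h4 : 10 * (13 * ℓ + 350 * K) ≤ 3630 * (K * ℓ) := by nlinarith
  have h5 : 10 * (13 * ℓ + 350 * K) * ∫ u, Q270LD.q A u ≤ 3630 * (K * ℓ) * (4 / A) :=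
    mul_le_mul h4 h2 (integral_nonneg fun u => Q270LD.q_nonneg A u) (by positivity)
  have h6 : 3500 * K * ∫ u, u ^ 2 * Q270LD.q A u ≤ 3500 * K * (4 * A) :=
    mul_le_mul_of_nonneg_left h3 (by linarith)
  have h7 : 3630 * (K * ℓ) * (4 / A) = 14520 * (K * (ℓ / A)) := by ring
  have h8 : 0 ≤ K * (ℓ / A) := by positivity
  have h9 : 0 ≤ K * A := by positivity
  nlinarith

/-- the weighted sum over the zeros of height at most `ℓ` -/
theorem zsum {K ℓ : ℝ} {f : ℂ → ℂ} (h : ND K ℓ f) (hK : 1 ≤ K) (hℓ : 1 ≤ ℓ) (S : Finset ℂ)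
    (hS : ∀ z ∈ S, f z = 0 ∧ |z.im| ≤ ℓ) :
    ∑ z ∈ S, (mu f z : ℝ) * (1 / (1 + z.im ^ 2)) ≤ 86000 * K * ℓ := by
  obtain ⟨w, hw⟩ : ∃ w : ℝ → ℝ, w = (Icc (-(ℓ + 1)) (ℓ + 1)).indicator (fun u => (1 + u ^ 2)⁻¹) := ⟨_, rfl⟩
  have hw0 : ∀ u, 0 ≤ w u := fun u => by
    rw [hw]
    exact indicator_nonneg (fun _ _ => by positivity) _
  have hi0 : Integrable (fun u : ℝ => (1 + u ^ 2)⁻¹) := integrable_inv_one_add_sq
  have hi : Integrable w := by rw [hw]; exact hi0.indicator measurableSet_Icc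
  have hle : ∀ u, u ^ 2 * w u ≤ (Icc (-(ℓ + 1)) (ℓ + 1)).indicator (fun _ => (1 : ℝ)) u := fun u => by
    rw [hw]
    by_cases hm : u ∈ Icc (-(ℓ + 1)) (ℓ + 1)
    · rw [indicator_of_mem hm, indicator_of_mem hm, ← div_eq_mul_inv, div_le_one (by positivity)]
      linarith
    · rw [indicator_of_notMem hm, indicator_of_notMem hm, mul_zero]
  have hone : Integrable ((Icc (-(ℓ + 1)) (ℓ + 1)).indicator (fun _ => (1 : ℝ))) :=
    (integrable_indicator_iff measurableSet_Icc).2 (integrableOn_const (by simp))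
  have hmeas : Measurable (fun u => u ^ 2 * w u) := by
    rw [hw]
    exact (by fun_prop : Measurable fun u : ℝ => u ^ 2).mul
      ((by fun_prop : Measurable fun u : ℝ => (1 + u ^ 2)⁻¹).indicator measurableSet_Icc)
  have hi2 : Integrable (fun u => u ^ 2 * w u) := hone.mono' hmeas.aestronglyMeasurable
    (Eventually.of_forall fun u => by
      have := hw0 u
      rw [Real.norm_of_nonneg (by positivity)]
      exact hle u)
  have h1 := wsum h hK (by linarith) S (fun z hz => (hS z hz).1) (w := w) (w0 := fun t => 1 / (1 + t ^ 2))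
    (c := 3) (by norm_num) hw0 (fun z hz u hu => by
      obtain ⟨_, h3⟩ := hS z hz
      have h3' := abs_le.1 h3
      have hu' := abs_le.1 hu
      have hm : u ∈ Icc (-(ℓ + 1)) (ℓ + 1) := ⟨by linarith [h3'.1, hu'.1], by linarith [h3'.2, hu'.2]⟩
      show 1 / (1 + z.im ^ 2) ≤ 3 * w u
      rw [hw, indicator_of_mem hm, ← div_eq_mul_inv, div_le_div_iff₀ (by positivity) (by positivity)]
      have h2 : (u - z.im) ^ 2 ≤ 1 := by
        rw [← sq_abs]
        nlinarith [abs_nonneg (u - z.im)]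
      nlinarith [sq_nonneg (2 * z.im - u), sq_nonneg z.im]) hi hi2
  have h2 : ∫ u, w u ≤ 4 := by
    have h3 : ∫ u, w u ≤ ∫ u : ℝ, (1 + u ^ 2)⁻¹ := by
      refine integral_mono hi hi0 fun u => ?_
      rw [hw]
      exact indicator_le_self' (fun _ _ => by positivity) u
    rw [integral_univ_inv_one_add_sq] at h3
    linarith [Real.pi_lt_four]
  have h3 : ∫ u, u ^ 2 * w u ≤ 4 * ℓ := by
    have h4 := integral_mono hi2 hone hle
    rw [integral_indicator measurableSet_Icc, setIntegral_const] at h4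
    refine h4.trans ?_
    rw [smul_eq_mul, mul_one, Measure.real, Real.volume_Icc, ENNReal.toReal_ofReal (by linarith)]
    linarith
  have h4 : 10 * (13 * ℓ + 350 * K) ≤ 3630 * (K * ℓ) := by nlinarith
  have h5 : 10 * (13 * ℓ + 350 * K) * ∫ u, w u ≤ 3630 * (K * ℓ) * 4 :=
    mul_le_mul h4 h2 (integral_nonneg hw0) (by positivity)
  have h6 : 3500 * K * ∫ u, u ^ 2 * w u ≤ 3500 * K * (4 * ℓ) :=
    mul_le_mul_of_nonneg_left h3 (by linarith)
  have h7 : 0 ≤ K * ℓ := by positivity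
  nlinarith

end Q270GD
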