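import Pool.Agent.Q270.GD.C2
import Pool.Agent.Q270.LD.A3
import Pool.Agent.W169.HF.AsmB

/-! # The explicit formula for Gaussians: the contour -/

set_option autoImplicit false

open Complex Filter Topology Set MeasureTheory Metric
open scoped ComplexConjugate
open Pool.Agent.W169.HF
open Q270LD (ga ga_norm ga_diff)

namespace Q270GD

/-- the Gaussian is small -/
lemma gE {a A' : ℝ} (ha : 0 < a) : ∃ E : ℝ, 0 < E ∧ ∀ v : ℝ, |v| ≤ A' → ∀ w : ℂ, |w.re| ≤ 3 →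
    ‖ga a v w‖ ≤ E * (1 / (1 + w.im ^ 2) ^ 3) := by
  obtain ⟨b, hb⟩ : ∃ b : ℝ, b = min 1 (a / 2) := ⟨_, rfl⟩
  have hb0 : 0 < b := by rw [hb]; exact lt_min one_pos (by positivity)
  have hb1 : b ≤ 1 := by rw [hb]; exact min_le_left _ _
  have hba : b ≤ a / 2 := by rw [hb]; exact min_le_right _ _
  refine ⟨Real.exp (9 * a + a * A' ^ 2) * (27 / b ^ 3), by positivity, fun v hv w hw => ?_⟩
  rw [ga_norm, ← Real.exp_add]
  have h1 : w.re ^ 2 ≤ 9 := by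
    rw [← sq_abs]
    nlinarith [abs_nonneg w.re]
  have h2 : v ^ 2 ≤ A' ^ 2 := by
    rw [← sq_abs]
    exact pow_le_pow_left₀ (abs_nonneg _) hv 2
  have h3 : w.im ^ 2 / 2 - v ^ 2 ≤ (w.im - v) ^ 2 := by nlinarith [sq_nonneg (w.im - 2 * v)]
  have h4 : a * w.re ^ 2 + -a * (w.im - v) ^ 2 ≤ (9 * a + a * A' ^ 2) + -(b * w.im ^ 2) := by
    have h5 : a * w.re ^ 2 ≤ a * 9 := mul_le_mul_of_nonneg_left h1 ha.le
    have h6 : a * (w.im ^ 2 / 2 - v ^ 2) ≤ a * (w.im - v) ^ 2 := mul_le_mul_of_nonneg_left h3 ha.le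
    have h7 : a * v ^ 2 ≤ a * A' ^ 2 := mul_le_mul_of_nonneg_left h2 ha.le
    have h8 : b * w.im ^ 2 ≤ a / 2 * w.im ^ 2 := mul_le_mul_of_nonneg_right hba (sq_nonneg _)
    nlinarith
  have h5 : Real.exp (-(b * w.im ^ 2)) ≤ 27 / b ^ 3 * (1 / (1 + w.im ^ 2) ^ 3) := by
    have h6 := Q270LD.cube_le (y := b * w.im ^ 2) (by positivity)
    have h7 : b * (1 + w.im ^ 2) ≤ 1 + b * w.im ^ 2 := by nlinarith
    have h8 : (b * (1 + w.im ^ 2)) ^ 3 ≤ (1 + b * w.im ^ 2) ^ 3 := pow_le_pow_left₀ (by positivity) h7 3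
    rw [div_mul_div_comm, mul_one, le_div_iff₀ (by positivity), Real.exp_neg, inv_mul_eq_div,
      div_le_iff₀ (Real.exp_pos _)]
    rw [mul_pow] at h8
    linarith
  calc Real.exp (a * w.re ^ 2 + -a * (w.im - v) ^ 2) ≤ Real.exp ((9 * a + a * A' ^ 2) + -(b * w.im ^ 2)) :=
        Real.exp_le_exp.2 h4
    _ = Real.exp (9 * a + a * A' ^ 2) * Real.exp (-(b * w.im ^ 2)) := Real.exp_add _ _
    _ ≤ Real.exp (9 * a + a * A' ^ 2) * (27 / b ^ 3 * (1 / (1 + w.im ^ 2) ^ 3)) := by gcongr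
    _ = _ := by ring

lemma ga_refl (a v y : ℝ) : ga a v ⟨-3, y⟩ = conj (ga a v ⟨3, y⟩) := by
  unfold ga
  rw [← Complex.exp_conj]
  congr 1
  simp only [map_mul, map_pow, map_sub, conj_ofReal, conj_I]
  have e : (conj (⟨3, y⟩ : ℂ)) = ⟨3, -y⟩ := rfl
  rw [e]
  have h : (⟨-3, y⟩ : ℂ) - I * v = -((⟨3, -y⟩ : ℂ) - -I * v) := by
    apply Complex.ext
    · simp
    · simp
      ring
  rw [h, neg_sq]

/-- the total mass -/
lemma ga_int {a : ℝ} (ha : 0 < a) (v : ℝ) : ∫ y : ℝ, ga a v ⟨3, y⟩ = ((Real.sqrt (Real.pi / a) : ℝ) : ℂ) := by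
  have h1 : ∀ y : ℝ, ga a v ⟨3, y⟩ = (fun x : ℝ => cexp (-(a : ℂ) * (x + ((-3 : ℝ) : ℂ) * I) ^ 2)) (y - v) := by
    intro y
    show cexp (a * ((⟨3, y⟩ : ℂ) - I * v) ^ 2) = cexp (-(a : ℂ) * (((y - v : ℝ) : ℂ) + ((-3 : ℝ) : ℂ) * I) ^ 2)
    congr 1
    have h : (⟨3, y⟩ : ℂ) - I * v = I * (((y - v : ℝ) : ℂ) + ((-3 : ℝ) : ℂ) * I) := by
      apply Complex.ext <;> simp
    rw [h, mul_pow, I_sq]
    ring
  simp only [h1]
  rw [integral_sub_right_eq_self (fun x : ℝ => cexp (-(a : ℂ) * (x + ((-3 : ℝ) : ℂ) * I) ^ 2)) v,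
    GaussianFourier.integral_cexp_neg_mul_sq_add_real_mul_I (by simpa using ha)]
  rw [Real.sqrt_eq_rpow, ofReal_cpow (by positivity)]
  push_cast
  rfl

lemma ga_intble {a : ℝ} (ha : 0 < a) (v : ℝ) : Integrable (fun y : ℝ => ga a v ⟨3, y⟩) := by
  by_contra h
  have h1 := ga_int ha v
  rw [integral_undef h] at h1
  have h2 : 0 < Real.sqrt (Real.pi / a) := Real.sqrt_pos.2 (by positivity)
  have h3 : (0 : ℝ) = Real.sqrt (Real.pi / a) := by exact_mod_cast h1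
  linarith

/-- the logarithmic derivative of the reflection -/
lemma ld_refl {K ℓ : ℝ} {f : ℂ → ℂ} (h : ND K ℓ f) (u : ℂ) :
    deriv f (-conj u) / f (-conj u) = -conj (deriv f u / f u) := by
  obtain ⟨ε, hε, hfe⟩ := h.ud.fe
  have hd := h.diff
  have e0 : ε ≠ 0 := by
    intro h0
    rw [h0, norm_zero] at hε
    exact zero_ne_one hε
  have h1 : HasDerivAt (fun z => f (-z)) (-(deriv f u)) (conj (-conj u)) := by
    have e : -(conj (-conj u)) = u := by simp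
    have h2 : HasDerivAt f (deriv f u) (-(conj (-conj u))) := by rw [e]; exact (hd u).hasDerivAt
    have := HasDerivAt.comp (conj (-conj u)) h2 (hasDerivAt_neg (conj (-conj u)))
    simpa [Function.comp_def] using this
  have h2 := h1.conj_conj
  rw [conj_conj] at h2
  have h3 : HasDerivAt f (ε * conj (-(deriv f u))) (-conj u) := by
    have h4 := h2.const_mul ε
    refine h4.congr_of_eventuallyEq (Eventually.of_forall fun z => ?_)
    show f z = ε * (conj ∘ (fun z => f (-z)) ∘ conj) z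
    rw [hfe z]
    rfl
  rw [h3.deriv, hfe (-conj u)]
  have e : -conj (-conj u) = u := by simp
  rw [e, map_neg, map_div₀, mul_div_mul_left _ _ e0, neg_div]

/-- good heights as a predicate -/
def Gd (f : ℂ → ℂ) (B U : ℝ) : Prop := ∀ x : ℝ, |x| ≤ 3 → f ⟨x, U⟩ ≠ 0 ∧
  ‖deriv f ⟨x, U⟩ / f ⟨x, U⟩‖ ≤ B

lemma contour {K ℓ : ℝ} {f : ℂ → ℂ} (h : ND K ℓ f) {V U B b : ℝ} (hVU : V < U)
    (hV : Gd f B V) (hU : Gd f B U) {a v : ℝ} (hB : 0 ≤ B)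
    (hbV : ∀ x : ℝ, |x| ≤ 3 → ‖ga a v ⟨x, V⟩‖ ≤ b) (hbU : ∀ x : ℝ, |x| ≤ 3 → ‖ga a v ⟨x, U⟩‖ ≤ b) :
    ∃ hfin : Set.Finite {s | s ∈ Ioo (-3 : ℝ) 3 ×ℂ Ioo V U ∧ f s = 0},
      |∑ z ∈ hfin.toFinset, (mu f z : ℝ) * (ga a v z).re -
        1 / Real.pi * (∫ y in V..U, deriv f ⟨3, y⟩ / f ⟨3, y⟩ * ga a v ⟨3, y⟩).re| ≤ 2 * (B * b) := by
  obtain ⟨hfin, hres⟩ := H370.rect_residue f (ga a v) (-3) 3 V U (by norm_num) hVU (h.ana _) (ga_diff a v) (by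
    intro s hs h0
    obtain ⟨h1, h2⟩ := hs
    rw [mem_preimage] at h1 h2
    have hz := abs_le.1 (h.zer s h0)
    refine ⟨⟨by linarith [hz.1], by linarith [hz.2]⟩, ?_⟩
    have e : s = ⟨s.re, s.im⟩ := rfl
    have hre : |s.re| ≤ 3 := (h.zer s h0).trans (by norm_num)
    constructor
    · rcases h2.1.lt_or_eq with h3 | h3
      · exact h3
      · exfalso
        rw [e, ← h3] at h0
        exact (hV s.re hre).1 h0
    · rcases h2.2.lt_or_eq with h3 | h3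
      · exact h3
      · exfalso
        rw [e, h3] at h0
        exact (hU s.re hre).1 h0)
  refine ⟨hfin, ?_⟩
  rw [finsum_mem_eq_finite_toFinset_sum _ hfin] at hres
  obtain ⟨J, hJ⟩ : ∃ J : ℂ, J = ∫ y in V..U, deriv f ⟨3, y⟩ / f ⟨3, y⟩ * ga a v ⟨3, y⟩ := ⟨_, rfl⟩
  have h3 : (∫ y in V..U, deriv f (⟨3, y⟩ : ℂ) / f ⟨3, y⟩ * ga a v ⟨3, y⟩) = J := hJ.symm
  have h4 : (∫ y in V..U, deriv f (⟨-3, y⟩ : ℂ) / f ⟨-3, y⟩ * ga a v ⟨-3, y⟩) = -conj J := by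
    have e1 : ∀ y : ℝ, deriv f (⟨-3, y⟩ : ℂ) / f ⟨-3, y⟩ * ga a v ⟨-3, y⟩ =
        -conj (deriv f (⟨3, y⟩ : ℂ) / f ⟨3, y⟩ * ga a v ⟨3, y⟩) := by
      intro y
      have e2 : (⟨-3, y⟩ : ℂ) = -conj (⟨3, y⟩ : ℂ) := by
        apply Complex.ext <;> simp
      rw [ga_refl, map_mul]
      have e3 := ld_refl h ⟨3, y⟩
      rw [← e2] at e3
      rw [e3]
      ring
    simp only [e1]
    rw [intervalIntegral.integral_neg, hJ, intervalIntegral.intervalIntegral_eq_integral_uIoc,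
      intervalIntegral.intervalIntegral_eq_integral_uIoc, if_pos hVU.le, one_smul, one_smul, integral_conj]
  have hH : ∀ X : ℝ, Gd f B X → (∀ x : ℝ, |x| ≤ 3 → ‖ga a v ⟨x, X⟩‖ ≤ b) →
      ‖∫ x in (-3 : ℝ)..3, deriv f (⟨x, X⟩ : ℂ) / f ⟨x, X⟩ * ga a v ⟨x, X⟩‖ ≤ 6 * (B * b) := by
    intro X hX hbX
    have := intervalIntegral.norm_integral_le_of_norm_le_const (a := (-3 : ℝ)) (b := 3) (C := B * b)
      (f := fun x => deriv f (⟨x, X⟩ : ℂ) / f ⟨x, X⟩ * ga a v ⟨x, X⟩) (fun x hx => by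
        rw [uIoc_of_le (by norm_num)] at hx
        have hx3 : |x| ≤ 3 := abs_le.2 ⟨hx.1.le, hx.2⟩
        rw [norm_mul]
        exact mul_le_mul (hX x hx3).2 (hbX x hx3) (norm_nonneg _) hB)
    refine this.trans (le_of_eq ?_)
    rw [show |(3 : ℝ) - -3| = 6 by norm_num]
    ring
  have hHV := hH V hV hbV
  have hHU := hH U hU hbU
  obtain ⟨H1, hH1⟩ : ∃ H1 : ℂ, H1 = ∫ x in (-3 : ℝ)..3, deriv f (⟨x, V⟩ : ℂ) / f ⟨x, V⟩ * ga a v ⟨x, V⟩ := ⟨_, rfl⟩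
  obtain ⟨H2, hH2⟩ : ∃ H2 : ℂ, H2 = ∫ x in (-3 : ℝ)..3, deriv f (⟨x, U⟩ : ℂ) / f ⟨x, U⟩ * ga a v ⟨x, U⟩ := ⟨_, rfl⟩
  rw [← hH1] at hHV
  rw [← hH2] at hHU
  have hres' : H1 - H2 + I * J - I * (-conj J) =
      2 * Real.pi * I * ∑ z ∈ hfin.toFinset, (mu f z : ℂ) * ga a v z := by
    rw [h4, h3, ← hH1, ← hH2] at hres
    exact hres
  have him := congrArg Complex.im hres'
  have hS : (∑ z ∈ hfin.toFinset, (mu f z : ℂ) * ga a v z).re = ∑ z ∈ hfin.toFinset, (mu f z : ℝ) * (ga a v z).re := by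
    rw [Complex.re_sum]
    refine Finset.sum_congr rfl fun z _ => ?_
    simp
  rw [← hS, ← hJ]
  obtain ⟨S, hSd⟩ : ∃ S : ℂ, S = ∑ z ∈ hfin.toFinset, (mu f z : ℂ) * ga a v z := ⟨_, rfl⟩
  rw [← hSd] at him ⊢
  simp only [add_im, sub_im, mul_im, mul_re, I_re, I_im, neg_re, neg_im, conj_re, conj_im, ofReal_re, ofReal_im,
    re_ofNat, im_ofNat] at him
  have hpi := Real.pi_gt_three
  have h5 := Complex.abs_im_le_norm H1
  have h6 := Complex.abs_im_le_norm H2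
  have h5' := abs_le.1 (h5.trans hHV)
  have h6' := abs_le.1 (h6.trans hHU)
  have hBb : 0 ≤ B * b := by linarith [norm_nonneg H1]
  have e : S.re - 1 / Real.pi * J.re = (H1.im - H2.im) / (2 * Real.pi) := by
    field_simp
    linarith
  rw [e, abs_div, abs_of_pos (by positivity : 0 < 2 * Real.pi), div_le_iff₀ (by positivity)]
  rw [abs_le]
  constructor <;> nlinarith

end Q270GD
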