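import Pool.Agent.Q270.GD.C3

/-! # The explicit formula for Gaussians -/

set_option autoImplicit false

open Complex Filter Topology Set MeasureTheory Metric
open scoped ComplexConjugate
open Pool.Agent.W169.HF
open Q270LD (ga ga_norm ga_diff)

namespace Q270GD

lemma line_cont : Continuous (fun y : ℝ => (⟨3, y⟩ : ℂ)) := by
  have : (fun y : ℝ => (⟨3, y⟩ : ℂ)) = fun y : ℝ => 3 + (y : ℂ) * I := by
    funext y
    apply Complex.ext <;> simp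
  rw [this]
  fun_prop

lemma ld_cont {K ℓ : ℝ} {f : ℂ → ℂ} (h : ND K ℓ f) (hK : 1 ≤ K) (hℓ : 0 ≤ ℓ) :
    Continuous (fun y : ℝ => deriv f ⟨3, y⟩ / f ⟨3, y⟩) := by
  have h1 : Continuous (deriv f) := (h.diff.contDiff (n := 1)).continuous_deriv le_rfl
  exact (h1.comp line_cont).div (h.diff.continuous.comp line_cont) fun y => (ld3 h hK hℓ y).1

lemma ld_crude {K ℓ : ℝ} {f : ℂ → ℂ} (h : ND K ℓ f) (hK : 1 ≤ K) (hℓ : 1 ≤ ℓ) (y : ℝ) :
    ‖deriv f ⟨3, y⟩ / f ⟨3, y⟩ - ℓ‖ ≤ 500000 * K * ℓ * (1 + y ^ 2) := by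
  have h1 := (ld3 h hK (by linarith) y).2
  have h2 := norm_sub_le (deriv f ⟨3, y⟩ / f ⟨3, y⟩) (ℓ : ℂ)
  rw [Complex.norm_real, Real.norm_of_nonneg (by linarith)] at h2
  unfold Bt at h1
  have h3 : ℓ ≤ K * ℓ * (1 + y ^ 2) := by
    have : 1 ≤ K * (1 + y ^ 2) := by nlinarith [sq_nonneg y]
    nlinarith
  have h4 : K * (1 + y ^ 2) ≤ K * ℓ * (1 + y ^ 2) := by
    have : 0 ≤ K * (1 + y ^ 2) := by positivity
    nlinarith
  linarith

lemma inv3_le (y : ℝ) : 1 / (1 + y ^ 2) ^ 3 ≤ (1 + y ^ 2)⁻¹ := by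
  rw [← one_div]
  apply one_div_le_one_div_of_le (by positivity)
  have : 1 ≤ 1 + y ^ 2 := by nlinarith [sq_nonneg y]
  calc 1 + y ^ 2 = (1 + y ^ 2) ^ 1 := (pow_one _).symm
    _ ≤ _ := pow_le_pow_right₀ this (by norm_num)

lemma inv3_tail {y R : ℝ} (hR : 0 < R) (hy : R ≤ |y|) : 1 / (1 + y ^ 2) ^ 3 ≤ 1 / R ^ 2 * (1 + y ^ 2)⁻¹ := by
  have h0 : R ^ 2 ≤ y ^ 2 := by
    rw [← sq_abs y]
    exact pow_le_pow_left₀ hR.le hy 2
  rw [← one_div, div_mul_div_comm, mul_one]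
  apply one_div_le_one_div_of_le (by positivity)
  have : 1 ≤ 1 + y ^ 2 := by nlinarith [sq_nonneg y]
  have h1 : R ^ 2 ≤ (1 + y ^ 2) ^ 2 := by nlinarith
  calc R ^ 2 * (1 + y ^ 2) ≤ (1 + y ^ 2) ^ 2 * (1 + y ^ 2) := by gcongr
    _ = _ := by ring

/-- the vertical side -/
lemma vert {K a A' κ : ℝ} (hK : 1 ≤ K) (ha : 0 < a) (hκ : 0 < κ) : ∃ ℓ0 : ℝ, 1 ≤ ℓ0 ∧
    ∀ (ℓ : ℝ) (f : ℂ → ℂ), ℓ0 ≤ ℓ → ND K ℓ f → ∀ v : ℝ, |v| ≤ A' → ∀ U V : ℝ, ℓ ≤ U → V ≤ -ℓ →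
      |(∫ y in V..U, deriv f ⟨3, y⟩ / f ⟨3, y⟩ * ga a v ⟨3, y⟩).re - ℓ * Real.sqrt (Real.pi / a)| ≤ κ * ℓ := by
  obtain ⟨E, hE, hg⟩ := gE (A' := A') ha
  obtain ⟨κ1, hκ1⟩ : ∃ κ1 : ℝ, κ1 = κ / (12 * E) := ⟨_, rfl⟩
  have hκ10 : 0 < κ1 := by rw [hκ1]; positivity
  have hκ1E : 12 * E * κ1 = κ := by rw [hκ1]; field_simp
  obtain ⟨D, hD⟩ : ∃ D : ℝ, D = 500000 * K := ⟨_, rfl⟩
  have hD0 : 0 < D := by rw [hD]; positivity
  obtain ⟨R1, hR1⟩ : ∃ R1 : ℝ, R1 = max 3 (12 * E * D / κ) := ⟨_, rfl⟩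
  have hR13 : 3 ≤ R1 := by rw [hR1]; exact le_max_left _ _
  have hR10 : 0 < R1 := by linarith
  have hR1E : 12 * E * D ≤ κ * R1 ^ 2 := by
    have h1 : 12 * E * D / κ ≤ R1 := by rw [hR1]; exact le_max_right _ _
    rw [div_le_iff₀ hκ] at h1
    have h2 : R1 ≤ R1 ^ 2 := by nlinarith
    nlinarith
  obtain ⟨R, ℓp, hR, hP⟩ := prof_all K (3 / 2) (3 / 2) 1 κ1 R1 hK (by norm_num) (by norm_num) (by norm_num)
    le_rfl one_pos le_rfl hκ10 (by linarith)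
  refine ⟨max (max 1 ℓp) (12 * E / κ), (le_max_left _ _).trans (le_max_left _ _), ?_⟩
  intro ℓ f hℓ h v hv U V hU hV
  have hℓ1 : 1 ≤ ℓ := ((le_max_left _ _).trans (le_max_left _ _)).trans hℓ
  have hℓp : ℓp ≤ ℓ := ((le_max_right _ _).trans (le_max_left _ _)).trans hℓ
  have hℓE : 12 * E ≤ κ * ℓ := by
    have h1 : 12 * E / κ ≤ ℓ := (le_max_right _ _).trans hℓ
    rw [div_le_iff₀ hκ] at h1
    linarith
  have hℓ0 : 0 < ℓ := by linarith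
  have pf := hP ℓ 1 f hℓp h.ud (fun u hu _ h0 => by
    have := (abs_le.1 (h.zer u h0)).2
    linarith)
  have hi0 : Integrable (fun y : ℝ => (1 + y ^ 2)⁻¹) := integrable_inv_one_add_sq
  have hpi := Real.pi_lt_four
  have hVU : V ≤ U := by linarith
  -- pointwise bounds
  have hga : ∀ y : ℝ, ‖ga a v ⟨3, y⟩‖ ≤ E * (1 / (1 + y ^ 2) ^ 3) := fun y => by
    have := hg v hv ⟨3, y⟩ (by norm_num)
    exact this
  have hpt : ∀ y : ℝ, ‖(deriv f ⟨3, y⟩ / f ⟨3, y⟩ - ℓ) * ga a v ⟨3, y⟩‖ ≤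
      (κ1 + D / R1 ^ 2) * E * ℓ * (1 + y ^ 2)⁻¹ := by
    intro y
    rw [norm_mul]
    have hb0 : 0 < (1 + y ^ 2)⁻¹ := by positivity
    rcases le_or_gt |y| R1 with hy | hy
    · have h1 := pf.der ⟨3, y⟩ (by norm_num) (by show (3 : ℝ) ≤ R1; exact hR13) hy
      rw [logDeriv_apply] at h1
      calc _ ≤ κ1 * ℓ * (E * (1 + y ^ 2)⁻¹) := by
            refine mul_le_mul h1 ((hga y).trans ?_) (norm_nonneg _) (by positivity)
            exact mul_le_mul_of_nonneg_left (inv3_le y) hE.le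
        _ = κ1 * E * ℓ * (1 + y ^ 2)⁻¹ := by ring
        _ ≤ _ := by
            have : 0 ≤ D / R1 ^ 2 * E * ℓ * (1 + y ^ 2)⁻¹ := by positivity
            nlinarith
    · have h1 := ld_crude h hK hℓ1 y
      have h2 : R1 ^ 2 ≤ 1 + y ^ 2 := by
        have : R1 ^ 2 ≤ |y| ^ 2 := pow_le_pow_left₀ hR10.le hy.le 2
        rw [sq_abs] at this
        linarith
      calc _ ≤ (D * ℓ * (1 + y ^ 2)) * (E * (1 / (1 + y ^ 2) ^ 3)) := by
            refine mul_le_mul ?_ (hga y) (norm_nonneg _) (by positivity)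
            rw [hD]
            exact h1
        _ = D * E * ℓ * (1 / (1 + y ^ 2)) * (1 + y ^ 2)⁻¹ := by field_simp
        _ ≤ D * E * ℓ * (1 / R1 ^ 2) * (1 + y ^ 2)⁻¹ := by
            have := one_div_le_one_div_of_le (by positivity) h2
            gcongr
        _ = D / R1 ^ 2 * E * ℓ * (1 + y ^ 2)⁻¹ := by ring
        _ ≤ _ := by
            have : 0 ≤ κ1 * E * ℓ * (1 + y ^ 2)⁻¹ := by positivity
            nlinarith
  have hc1 := ld_cont h hK hℓ0.le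
  have hc2 : Continuous (fun y : ℝ => ga a v ⟨3, y⟩) := (ga_diff a v).continuous.comp line_cont
  have hsplit : (∫ y in V..U, deriv f ⟨3, y⟩ / f ⟨3, y⟩ * ga a v ⟨3, y⟩) =
      (∫ y in V..U, (deriv f ⟨3, y⟩ / f ⟨3, y⟩ - ℓ) * ga a v ⟨3, y⟩) + ℓ * ∫ y in V..U, ga a v ⟨3, y⟩ := by
    have hc3 : Continuous (fun y : ℝ => (deriv f ⟨3, y⟩ / f ⟨3, y⟩ - (ℓ : ℂ)) * ga a v ⟨3, y⟩) :=
      (hc1.sub continuous_const).mul hc2
    have hc4 : Continuous (fun y : ℝ => (ℓ : ℂ) * ga a v ⟨3, y⟩) := continuous_const.mul hc2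
    rw [← intervalIntegral.integral_const_mul, ← intervalIntegral.integral_add
      (hc3.intervalIntegrable _ _) (hc4.intervalIntegrable _ _)]
    refine intervalIntegral.integral_congr fun y _ => ?_
    ring
  have hI1 : ‖∫ y in V..U, (deriv f ⟨3, y⟩ / f ⟨3, y⟩ - ℓ) * ga a v ⟨3, y⟩‖ ≤ 2 / 3 * κ * ℓ := by
    have h1 : ‖∫ y in V..U, (deriv f ⟨3, y⟩ / f ⟨3, y⟩ - ℓ) * ga a v ⟨3, y⟩‖ ≤
        ∫ y in V..U, (κ1 + D / R1 ^ 2) * E * ℓ * (1 + y ^ 2)⁻¹ :=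
      intervalIntegral.norm_integral_le_of_norm_le hVU (Eventually.of_forall fun y _ => hpt y)
        ((hi0.const_mul _).intervalIntegrable)
    rw [intervalIntegral.integral_const_mul] at h1
    have h2 : ∫ y in V..U, (1 + y ^ 2)⁻¹ ≤ 4 := by
      rw [intervalIntegral.integral_of_le hVU]
      have := setIntegral_le_integral (s := Ioc V U) hi0 (Eventually.of_forall fun y => by
        show 0 ≤ (1 + y ^ 2)⁻¹
        positivity)
      rw [integral_univ_inv_one_add_sq] at this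
      linarith
    have h3 : D / R1 ^ 2 * (12 * E) ≤ κ := by
      rw [div_mul_eq_mul_div, div_le_iff₀ (by positivity)]
      linarith
    calc _ ≤ (κ1 + D / R1 ^ 2) * E * ℓ * ∫ y in V..U, (1 + y ^ 2)⁻¹ := h1
      _ ≤ (κ1 + D / R1 ^ 2) * E * ℓ * 4 := mul_le_mul_of_nonneg_left h2 (by positivity)
      _ = (12 * E * κ1 + D / R1 ^ 2 * (12 * E)) / 3 * ℓ := by ring
      _ ≤ (κ + κ) / 3 * ℓ := by
          rw [hκ1E]
          gcongr
      _ = _ := by ring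
  have hI2 : ‖(∫ y in V..U, ga a v ⟨3, y⟩) - ((Real.sqrt (Real.pi / a) : ℝ) : ℂ)‖ ≤ 4 * E / ℓ ^ 2 := by
    have h1 := ga_int ha v
    have h2 := ga_intble ha v
    rw [← integral_add_compl (s := Ioc V U) measurableSet_Ioc h2] at h1
    rw [intervalIntegral.integral_of_le hVU, ← h1]
    have e : (∫ y in Ioc V U, ga a v ⟨3, y⟩) - ((∫ y in Ioc V U, ga a v ⟨3, y⟩) +
        ∫ y in (Ioc V U)ᶜ, ga a v ⟨3, y⟩) = -∫ y in (Ioc V U)ᶜ, ga a v ⟨3, y⟩ := by ring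
    rw [e, norm_neg]
    have h3 : ‖∫ y in (Ioc V U)ᶜ, ga a v ⟨3, y⟩‖ ≤ ∫ y in (Ioc V U)ᶜ, E / ℓ ^ 2 * (1 + y ^ 2)⁻¹ := by
      apply norm_integral_le_of_norm_le (hi0.const_mul _).integrableOn
      rw [ae_restrict_iff' measurableSet_Ioc.compl]
      refine Eventually.of_forall fun y hy => (hga y).trans ?_
      have hy' : ℓ ≤ |y| := by
        rw [mem_compl_iff, mem_Ioc, not_and_or, not_lt, not_le] at hy
        rcases hy with hy | hy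
        · rw [abs_of_nonpos (by linarith)]; linarith
        · rw [abs_of_nonneg (by linarith)]; linarith
      calc E * (1 / (1 + y ^ 2) ^ 3) ≤ E * (1 / ℓ ^ 2 * (1 + y ^ 2)⁻¹) :=
            mul_le_mul_of_nonneg_left (inv3_tail hℓ0 hy') hE.le
        _ = _ := by ring
    refine h3.trans ?_
    rw [integral_const_mul]
    have h4 := setIntegral_le_integral (s := (Ioc V U)ᶜ) hi0 (Eventually.of_forall fun y => by
      show 0 ≤ (1 + y ^ 2)⁻¹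
      positivity)
    rw [integral_univ_inv_one_add_sq] at h4
    calc E / ℓ ^ 2 * ∫ y in (Ioc V U)ᶜ, (1 + y ^ 2)⁻¹ ≤ E / ℓ ^ 2 * 4 := by
          apply mul_le_mul_of_nonneg_left _ (by positivity)
          linarith
      _ = _ := by ring
  have h1 : (∫ y in V..U, deriv f ⟨3, y⟩ / f ⟨3, y⟩ * ga a v ⟨3, y⟩).re - ℓ * Real.sqrt (Real.pi / a) =
      ((∫ y in V..U, (deriv f ⟨3, y⟩ / f ⟨3, y⟩ - ℓ) * ga a v ⟨3, y⟩) +
        ℓ * ((∫ y in V..U, ga a v ⟨3, y⟩) - ((Real.sqrt (Real.pi / a) : ℝ) : ℂ))).re := by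
    rw [hsplit]
    simp only [add_re, mul_re, sub_re, ofReal_re, ofReal_im, sub_im]
    ring
  rw [h1]
  refine (Complex.abs_re_le_norm _).trans ((norm_add_le _ _).trans ?_)
  rw [norm_mul, Complex.norm_real, Real.norm_of_nonneg hℓ0.le]
  have h2 : ℓ * ‖(∫ y in V..U, ga a v ⟨3, y⟩) - ((Real.sqrt (Real.pi / a) : ℝ) : ℂ)‖ ≤ 1 / 3 * κ * ℓ := by
    calc _ ≤ ℓ * (4 * E / ℓ ^ 2) := mul_le_mul_of_nonneg_left hI2 hℓ0.le
      _ = 4 * E / ℓ := by field_simp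
      _ ≤ 4 * E / 1 := by gcongr
      _ ≤ 1 / 3 * κ * ℓ := by linarith
  linarith

/-- the zeros of height at most `Y` -/
noncomputable def W (f : ℂ → ℂ) (Y : ℝ) : Finset ℂ := by
  classical exact if h : Set.Finite {z | f z = 0 ∧ |z.im| ≤ Y} then h.toFinset else ∅

lemma fin_low {K ℓ : ℝ} {f : ℂ → ℂ} (h : ND K ℓ f) (hK : 1 ≤ K) (hℓ : 0 ≤ ℓ) (Y : ℝ) :
    Set.Finite {z | f z = 0 ∧ |z.im| ≤ Y} := by
  obtain ⟨U, hU, hU2⟩ := good h hK hℓ (|Y| + 1)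
  obtain ⟨V, hV, hV2⟩ := good h hK hℓ (-|Y| - 1)
  have hY := abs_nonneg Y
  obtain ⟨hfin, _⟩ := contour (B := 5000 * (Bt K ℓ (|Y| + 1)) ^ 2 + 5000 * (Bt K ℓ (-|Y| - 1)) ^ 2)
    (b := 0 + (Real.exp (1 * 9) + 0)) (a := 1) (v := 0) h (V := V) (U := U) (by linarith [hU.1, hV.2])
    (fun x hx => ⟨(hV2 x hx).1, (hV2 x hx).2.trans (by nlinarith [sq_nonneg (Bt K ℓ (|Y| + 1))])⟩)
    (fun x hx => ⟨(hU2 x hx).1, (hU2 x hx).2.trans (by nlinarith [sq_nonneg (Bt K ℓ (-|Y| - 1))])⟩)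
    (by positivity)
    (fun x hx => by
      rw [ga_norm, ← Real.exp_add]
      simp only [zero_add, add_zero]
      apply Real.exp_le_exp.2
      show 1 * x ^ 2 + -1 * (V - 0) ^ 2 ≤ 1 * 9
      have : x ^ 2 ≤ 9 := by rw [← sq_abs]; nlinarith [abs_nonneg x]
      nlinarith [sq_nonneg (V - 0)])
    (fun x hx => by
      rw [ga_norm, ← Real.exp_add]
      simp only [zero_add, add_zero]
      apply Real.exp_le_exp.2
      show 1 * x ^ 2 + -1 * (U - 0) ^ 2 ≤ 1 * 9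
      have : x ^ 2 ≤ 9 := by rw [← sq_abs]; nlinarith [abs_nonneg x]
      nlinarith [sq_nonneg (U - 0)])
  refine hfin.subset fun z hz => ?_
  obtain ⟨hz0, hz1⟩ := hz
  have hz2 := abs_le.1 (hz1.trans (le_abs_self Y))
  have hre := abs_le.1 (h.zer z hz0)
  have hre3 : |z.re| ≤ 3 := (h.zer z hz0).trans (by norm_num)
  refine ⟨⟨⟨by linarith [hre.1], by linarith [hre.2]⟩, ?_⟩, hz0⟩
  have e : z = ⟨z.re, z.im⟩ := rfl
  constructor
  · have h3 : V ≤ z.im := by linarith [hV.2, hz2.1]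
    rcases h3.lt_or_eq with h4 | h4
    · exact h4
    · exfalso
      rw [e, ← h4] at hz0
      exact (hV2 z.re hre3).1 hz0
  · have h3 : z.im ≤ U := by linarith [hU.1, hz2.2]
    rcases h3.lt_or_eq with h4 | h4
    · exact h4
    · exfalso
      rw [e, h4] at hz0
      exact (hU2 z.re hre3).1 hz0

lemma mem_W {K ℓ : ℝ} {f : ℂ → ℂ} (h : ND K ℓ f) (hK : 1 ≤ K) (hℓ : 0 ≤ ℓ) {Y : ℝ} {z : ℂ} :
    z ∈ W f Y ↔ f z = 0 ∧ |z.im| ≤ Y := by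
  unfold W
  rw [dif_pos (fin_low h hK hℓ Y), Set.Finite.mem_toFinset]
  rfl

end Q270GD
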