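import Pool.Agent.Q270.GD.C4

/-! # The explicit formula for Gaussians: conclusion -/

set_option autoImplicit false

open Complex Filter Topology Set MeasureTheory Metric
open scoped ComplexConjugate
open Pool.Agent.W169.HF
open Q270LD (ga ga_norm ga_diff)

namespace Q270GD

lemma Bt_l {K ℓ T : ℝ} (hK : 1 ≤ K) (hℓ : 1 ≤ ℓ) (hT : |T| ≤ ℓ + 1) : Bt K ℓ T ≤ 1800 * K * ℓ ^ 2 := by
  unfold Bt
  have h1 : T ^ 2 ≤ (ℓ + 1) ^ 2 := by
    rw [← sq_abs]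
    exact pow_le_pow_left₀ (abs_nonneg _) hT 2
  have h2 : (ℓ + 1) ^ 2 ≤ 4 * ℓ ^ 2 := by nlinarith
  have h3 : 350 * K * (1 + T ^ 2) ≤ 350 * K * (5 * ℓ ^ 2) := by
    apply mul_le_mul_of_nonneg_left _ (by linarith)
    nlinarith
  have h4 : 13 * ℓ ≤ 13 * (K * ℓ ^ 2) := by nlinarith [mul_nonneg (by linarith : 0 ≤ K - 1) (sq_nonneg ℓ)]
  nlinarith

lemma b_l {ℓ E : ℝ} {w : ℂ} (hℓ : 1 ≤ ℓ) (hE : 0 < E) (hw : ℓ ≤ |w.im|) :
    E * (1 / (1 + w.im ^ 2) ^ 3) ≤ E / ℓ ^ 6 := by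
  have h1 : ℓ ^ 2 ≤ w.im ^ 2 := by
    rw [← sq_abs w.im]
    exact pow_le_pow_left₀ (by linarith) hw 2
  have h2 : (ℓ ^ 2) ^ 3 ≤ (1 + w.im ^ 2) ^ 3 := pow_le_pow_left₀ (by positivity) (by linarith) 3
  rw [mul_one_div]
  apply div_le_div_of_nonneg_left hE.le (by positivity)
  calc ℓ ^ 6 = (ℓ ^ 2) ^ 3 := by ring
    _ ≤ _ := h2

/-- **The explicit formula for Gaussians.** -/
theorem ef {K a A' κ : ℝ} (hK : 1 ≤ K) (ha : 0 < a) (hκ : 0 < κ) : ∃ ℓ0 : ℝ, 1 ≤ ℓ0 ∧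
    ∀ (ℓ : ℝ) (f : ℂ → ℂ), ℓ0 ≤ ℓ → ND K ℓ f → ∀ v : ℝ, |v| ≤ A' →
      |∑ z ∈ W f ℓ, (mu f z : ℝ) * (ga a v z).re - ℓ / Real.pi * Real.sqrt (Real.pi / a)| ≤ κ * ℓ := by
  classical
  obtain ⟨E, hE, hg⟩ := gE (A' := A') ha
  obtain ⟨ℓ1, hℓ1, hv⟩ := vert (A' := A') hK ha (half_pos hκ)
  obtain ⟨C, hC⟩ : ∃ C : ℝ, C = 2 * (5000 * (1800 * K) ^ 2 * E) + 20 * (1800 * K) * E := ⟨_, rfl⟩
  have hC0 : 0 < C := by rw [hC]; positivity
  refine ⟨max ℓ1 (2 * C / κ), hℓ1.trans (le_max_left _ _), fun ℓ f hℓ h v hvA => ?_⟩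
  have hℓa : ℓ1 ≤ ℓ := (le_max_left _ _).trans hℓ
  have hℓ1' : 1 ≤ ℓ := hℓ1.trans hℓa
  have hℓ0 : 0 < ℓ := by linarith
  have hℓC : 2 * C ≤ κ * ℓ := by
    have h1 : 2 * C / κ ≤ ℓ := (le_max_right _ _).trans hℓ
    rw [div_le_iff₀ hκ] at h1
    linarith
  obtain ⟨U, hU, hU2⟩ := good h hK hℓ0.le ℓ
  obtain ⟨V, hV, hV2⟩ := good h hK hℓ0.le (-ℓ - 1)
  obtain ⟨B, hB⟩ : ∃ B : ℝ, B = 5000 * (1800 * K * ℓ ^ 2) ^ 2 := ⟨_, rfl⟩
  have hB0 : 0 ≤ B := by rw [hB]; positivity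
  have hb1 := Bt_l (T := ℓ) hK hℓ1' (by rw [abs_of_pos hℓ0]; linarith)
  have hb2 := Bt_l (T := -ℓ - 1) hK hℓ1' (by rw [abs_of_neg (by linarith)]; linarith)
  have hb3 := Bt_ge hK hℓ0.le ℓ
  have hb4 := Bt_ge hK hℓ0.le (-ℓ - 1)
  have hGU : Gd f B U := fun x hx => ⟨(hU2 x hx).1, (hU2 x hx).2.trans (by
    rw [hB]
    have := pow_le_pow_left₀ (by linarith) hb1 2
    linarith)⟩
  have hGV : Gd f B V := fun x hx => ⟨(hV2 x hx).1, (hV2 x hx).2.trans (by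
    rw [hB]
    have := pow_le_pow_left₀ (by linarith) hb2 2
    linarith)⟩
  have hVle : V ≤ -ℓ := by linarith [hV.2]
  have hUge : ℓ ≤ U := hU.1
  obtain ⟨hfin, hc⟩ := contour (B := B) (b := E / ℓ ^ 6) (a := a) (v := v) h (V := V) (U := U) (by linarith)
    hGV hGU hB0
    (fun x hx => (hg v hvA ⟨x, V⟩ hx).trans (b_l hℓ1' hE (by
      show ℓ ≤ |V|
      rw [abs_of_neg (by linarith)]; linarith)))
    (fun x hx => (hg v hvA ⟨x, U⟩ hx).trans (b_l hℓ1' hE (by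
      show ℓ ≤ |U|
      rw [abs_of_pos (by linarith)]; exact hUge)))
  have hvt := hv ℓ f hℓa h v hvA U V hUge hVle
  obtain ⟨J, hJ⟩ : ∃ J : ℝ, J = (∫ y in V..U, deriv f ⟨3, y⟩ / f ⟨3, y⟩ * ga a v ⟨3, y⟩).re := ⟨_, rfl⟩
  rw [← hJ] at hc hvt
  -- the sum over the rectangle
  have hsub : W f ℓ ⊆ hfin.toFinset := by
    intro z hz
    rw [mem_W h hK hℓ0.le] at hz
    obtain ⟨hz0, hz1⟩ := hz
    rw [Set.Finite.mem_toFinset]
    have hz2 := abs_le.1 hz1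
    have hre := abs_le.1 (h.zer z hz0)
    have hre3 : |z.re| ≤ 3 := (h.zer z hz0).trans (by norm_num)
    refine ⟨⟨⟨by linarith [hre.1], by linarith [hre.2]⟩, ?_⟩, hz0⟩
    have e : z = ⟨z.re, z.im⟩ := rfl
    constructor
    · have h3 : V ≤ z.im := by linarith [hz2.1]
      rcases h3.lt_or_eq with h4 | h4
      · exact h4
      · exfalso
        rw [e, ← h4] at hz0
        exact (hV2 z.re hre3).1 hz0
    · have h3 : z.im ≤ U := by linarith [hz2.2]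
      rcases h3.lt_or_eq with h4 | h4
      · exact h4
      · exfalso
        rw [e, h4] at hz0
        exact (hU2 z.re hre3).1 hz0
  have hdec : ∑ z ∈ hfin.toFinset, (mu f z : ℝ) * (ga a v z).re =
      ∑ z ∈ hfin.toFinset \ W f ℓ, (mu f z : ℝ) * (ga a v z).re + ∑ z ∈ W f ℓ, (mu f z : ℝ) * (ga a v z).re :=
    (Finset.sum_sdiff hsub).symm
  have hext : |∑ z ∈ hfin.toFinset \ W f ℓ, (mu f z : ℝ) * (ga a v z).re| ≤ 20 * (1800 * K) * E / ℓ ^ 4 := by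
    have hz : ∀ z ∈ hfin.toFinset \ W f ℓ, f z = 0 ∧ ℓ < |z.im| ∧ |z.im| ≤ ℓ + 1 := by
      intro z hz
      rw [Finset.mem_sdiff, Set.Finite.mem_toFinset, mem_W h hK hℓ0.le] at hz
      obtain ⟨⟨⟨_, h2⟩, h3⟩, h4⟩ := hz
      rw [mem_preimage] at h2
      refine ⟨h3, ?_, ?_⟩
      · by_contra hcon
        exact h4 ⟨h3, not_lt.1 hcon⟩
      · rw [abs_le]
        constructor <;> linarith [h2.1, h2.2, hU.2, hV.1]
    have h1 : |∑ z ∈ hfin.toFinset \ W f ℓ, (mu f z : ℝ) * (ga a v z).re| ≤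
        ∑ z ∈ hfin.toFinset \ W f ℓ, (mu f z : ℝ) * (E / ℓ ^ 6) := by
      refine (Finset.abs_sum_le_sum_abs _ _).trans (Finset.sum_le_sum fun z hz' => ?_)
      obtain ⟨a1, a2, a3⟩ := hz z hz'
      rw [abs_mul, Nat.abs_cast]
      refine mul_le_mul_of_nonneg_left ?_ (Nat.cast_nonneg _)
      refine (Complex.abs_re_le_norm _).trans ((hg v hvA z ((h.zer z a1).trans (by norm_num))).trans ?_)
      exact b_l hℓ1' hE a2.le
    have h2 : ∑ z ∈ hfin.toFinset \ W f ℓ, (mu f z : ℝ) ≤ 20 * (1800 * K * ℓ ^ 2) := by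
      rw [← Finset.sum_filter_add_sum_filter_not (hfin.toFinset \ W f ℓ) (fun z => 0 ≤ z.im)]
      have c1 := count h hK hℓ0.le ℓ ((hfin.toFinset \ W f ℓ).filter (fun z => 0 ≤ z.im)) (fun z hz' => by
        obtain ⟨a0, a4⟩ := Finset.mem_filter.1 hz'
        obtain ⟨a1, a2, a3⟩ := hz z a0
        have hre := abs_le.1 (h.zer z a1)
        rw [abs_of_nonneg a4] at a2 a3
        refine in_ball (by norm_num) (a := 4) (b := 1) ?_ ?_ (by norm_num)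
        · rw [abs_le]; constructor <;> linarith [hre.1, hre.2]
        · rw [abs_le]; constructor <;> linarith)
      have c2 := count h hK hℓ0.le (-ℓ - 1) ((hfin.toFinset \ W f ℓ).filter (fun z => ¬ 0 ≤ z.im)) (fun z hz' => by
        obtain ⟨a0, a4⟩ := Finset.mem_filter.1 hz'
        obtain ⟨a1, a2, a3⟩ := hz z a0
        have hre := abs_le.1 (h.zer z a1)
        rw [not_le] at a4
        rw [abs_of_neg a4] at a2 a3
        refine in_ball (by norm_num) (a := 4) (b := 1) ?_ ?_ (by norm_num)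
        · rw [abs_le]; constructor <;> linarith [hre.1, hre.2]
        · rw [abs_le]; constructor <;> linarith)
      linarith
    rw [← Finset.sum_mul] at h1
    refine h1.trans ?_
    calc _ ≤ 20 * (1800 * K * ℓ ^ 2) * (E / ℓ ^ 6) := mul_le_mul_of_nonneg_right h2 (by positivity)
      _ = _ := by field_simp
  rw [hdec] at hc
  obtain ⟨X, hX⟩ : ∃ X : ℝ, X = ∑ z ∈ hfin.toFinset \ W f ℓ, (mu f z : ℝ) * (ga a v z).re := ⟨_, rfl⟩
  obtain ⟨S, hS⟩ : ∃ S : ℝ, S = ∑ z ∈ W f ℓ, (mu f z : ℝ) * (ga a v z).re := ⟨_, rfl⟩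
  rw [← hX, ← hS] at hc
  rw [← hX] at hext
  rw [← hS]
  have h1 : 20 * (1800 * K) * E / ℓ ^ 4 + 2 * (B * (E / ℓ ^ 6)) ≤ C := by
    rw [hC, hB]
    have e1 : 2 * (5000 * (1800 * K * ℓ ^ 2) ^ 2 * (E / ℓ ^ 6)) = 2 * (5000 * (1800 * K) ^ 2 * E) / ℓ ^ 2 := by
      field_simp
    rw [e1]
    have e2 : 20 * (1800 * K) * E / ℓ ^ 4 ≤ 20 * (1800 * K) * E :=
      div_le_self (by positivity) (one_le_pow₀ hℓ1')
    have e3 : 2 * (5000 * (1800 * K) ^ 2 * E) / ℓ ^ 2 ≤ 2 * (5000 * (1800 * K) ^ 2 * E) :=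
      div_le_self (by positivity) (one_le_pow₀ hℓ1')
    linarith
  have hpi := Real.pi_gt_three
  have h2 : |1 / Real.pi * J - ℓ / Real.pi * Real.sqrt (Real.pi / a)| ≤ κ / 2 * ℓ := by
    have e : 1 / Real.pi * J - ℓ / Real.pi * Real.sqrt (Real.pi / a) =
        (J - ℓ * Real.sqrt (Real.pi / a)) / Real.pi := by ring
    rw [e, abs_div, abs_of_pos Real.pi_pos]
    refine (div_le_self (abs_nonneg _) (by linarith)).trans hvt
  have h3 := abs_le.1 h2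
  have h4 := abs_le.1 hc
  have h5 := abs_le.1 hext
  rw [abs_le]
  constructor <;> linarith [h3.1, h3.2, h4.1, h4.2, h5.1, h5.2]

end Q270GD
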