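import Pool.Agent.Q270.GD.C5
import Pool.Agent.Q270.LD.A5

/-! # The main inequality -/

set_option autoImplicit false

open Complex Filter Topology Set MeasureTheory Metric
open scoped ComplexConjugate
open Pool.Agent.W169.HF
open Q270LD (ga Psi q Prof)

namespace Q270GD

/-- at the heights `|v| ≤ V0` the region with profile `r` has at least `2 c ℓ` zeros -/
def Hyp (f : ℂ → ℂ) (r : ℝ → ℝ) (c V0 ℓ : ℝ) : Prop := ∀ v : ℝ, |v| ≤ V0 → ∃ F : Finset ℂ,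
  (∀ z ∈ F, f z = 0 ∧ |z.im - v| < r z.re) ∧ c * (2 * ℓ) ≤ ∑ z ∈ F, (mu f z : ℝ)

lemma hyp_point {K ℓ : ℝ} {f : ℂ → ℂ} (hN : ND K ℓ f) (hK : 1 ≤ K) (hℓ : 0 ≤ ℓ) {r : ℝ → ℝ} {r0 c V0 v : ℝ}
    (hr : ∀ x, r x ≤ r0) (h : Hyp f r c V0 ℓ) (hV : V0 + r0 ≤ ℓ) (hv : v ∈ Icc (-V0) V0) :
    c * (2 * ℓ) ≤ ∑ z ∈ W f ℓ, (mu f z : ℝ) *
      (Ioo (z.im - r z.re) (z.im + r z.re)).indicator (fun _ => (1 : ℝ)) v := by
  obtain ⟨F, hF, hF2⟩ := h v (abs_le.2 hv)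
  refine hF2.trans ?_
  have hsub : F ⊆ W f ℓ := by
    intro z hz
    rw [mem_W hN hK hℓ]
    obtain ⟨h1, h2⟩ := hF z hz
    have h4 := abs_lt.1 (h2.trans_le (hr z.re))
    refine ⟨h1, ?_⟩
    rw [abs_le]
    constructor <;> linarith [h4.1, h4.2, hv.1, hv.2]
  calc ∑ z ∈ F, (mu f z : ℝ) = ∑ z ∈ F, (mu f z : ℝ) *
      (Ioo (z.im - r z.re) (z.im + r z.re)).indicator (fun _ => (1 : ℝ)) v := by
        refine Finset.sum_congr rfl fun z hz => ?_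
        have h2 := abs_lt.1 (hF z hz).2
        rw [indicator_of_mem (by constructor <;> linarith [h2.1, h2.2]), mul_one]
    _ ≤ _ := by
        refine Finset.sum_le_sum_of_subset_of_nonneg hsub fun z _ _ => ?_
        exact mul_nonneg (Nat.cast_nonneg _) (indicator_nonneg (fun _ _ => zero_le_one) _)

lemma hyp_int {K ℓ : ℝ} {f : ℂ → ℂ} (hN : ND K ℓ f) (hK : 1 ≤ K) (hℓ : 0 ≤ ℓ) {r : ℝ → ℝ} {r0 c V0 a : ℝ}
    (ha : 0 < a) (hr : ∀ x, r x ≤ r0) (h : Hyp f r c V0 ℓ) (hV : V0 + r0 ≤ ℓ) :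
    c * (2 * ℓ) * (∫ v in Icc (-V0) V0, Real.exp (-a * v ^ 2)) ≤
      ∑ z ∈ W f ℓ, (mu f z : ℝ) * Psi a (r z.re) z.im := by
  have hg := integrable_exp_neg_mul_sq ha
  set J : ℂ → Set ℝ := fun z => Ioo (z.im - r z.re) (z.im + r z.re) with hJ
  have hi : ∀ z : ℂ, IntegrableOn (fun v => (mu f z : ℝ) * (J z).indicator (fun v => Real.exp (-a * v ^ 2)) v)
      (Icc (-V0) V0) := fun z =>
    ((hg.indicator measurableSet_Ioo).const_mul _).integrableOn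
  rw [← integral_const_mul]
  calc ∫ v in Icc (-V0) V0, c * (2 * ℓ) * Real.exp (-a * v ^ 2) ≤
      ∫ v in Icc (-V0) V0, ∑ z ∈ W f ℓ,
        (mu f z : ℝ) * (J z).indicator (fun v => Real.exp (-a * v ^ 2)) v := by
        refine setIntegral_mono_on (hg.const_mul _).integrableOn (integrable_finsetSum _ fun z _ => hi z)
          measurableSet_Icc fun v hv => ?_
        have h2 := mul_le_mul_of_nonneg_right (hyp_point hN hK hℓ hr h hV hv) (Real.exp_pos (-a * v ^ 2)).le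
        refine h2.trans (le_of_eq ?_)
        rw [Finset.sum_mul]
        refine Finset.sum_congr rfl fun z _ => ?_
        by_cases hm : v ∈ J z
        · rw [indicator_of_mem hm, indicator_of_mem hm, mul_one]
        · rw [indicator_of_notMem hm, indicator_of_notMem hm]
          ring
    _ = ∑ z ∈ W f ℓ, ∫ v in Icc (-V0) V0,
        (mu f z : ℝ) * (J z).indicator (fun v => Real.exp (-a * v ^ 2)) v := integral_finsetSum _ fun z _ => hi z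
    _ ≤ _ := by
        refine Finset.sum_le_sum fun z _ => ?_
        rw [integral_const_mul]
        refine mul_le_mul_of_nonneg_left ?_ (Nat.cast_nonneg _)
        rw [setIntegral_indicator measurableSet_Ioo]
        unfold Psi
        refine setIntegral_mono_set hg.integrableOn (Eventually.of_forall fun v => (Real.exp_pos _).le) ?_
        exact (inter_subset_right).eventuallyLE

/-- mass of the Gaussian in `[-V0, V0]` -/
lemma mass {a δ : ℝ} (ha : 0 < a) (hδ : 0 < δ) : ∃ V0 : ℝ, 0 ≤ V0 ∧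
    Real.sqrt (Real.pi / a) - δ ≤ ∫ v in Icc (-V0) V0, Real.exp (-a * v ^ 2) := by
  obtain ⟨J, hJ⟩ : ∃ J : ℝ, J = ∫ u, Q270LD.maj a u := ⟨_, rfl⟩
  have hJ0 : 0 ≤ J := by rw [hJ]; exact integral_nonneg fun u => Q270LD.maj_nonneg a u
  obtain ⟨V0, hV0⟩ : ∃ V0 : ℝ, V0 = J / δ + 1 := ⟨_, rfl⟩
  have hV1 : 1 ≤ V0 := by
    have : 0 ≤ J / δ := by positivity
    linarith
  refine ⟨V0, by linarith, ?_⟩
  have hg := integrable_exp_neg_mul_sq ha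
  have h1 : Real.sqrt (Real.pi / a) = (∫ v in Icc (-V0) V0, Real.exp (-a * v ^ 2)) +
      ∫ v in (Icc (-V0) V0)ᶜ, Real.exp (-a * v ^ 2) := by
    rw [← integral_gaussian a, integral_add_compl measurableSet_Icc hg]
  have h2 := Q270LD.piece ha (measurableSet_Icc (a := -V0) (b := V0)).compl
    (fun v => V0 * Real.exp (-a * v ^ 2)) 0 (fun v hv => by
      have hv' : V0 < |v| := by
        rw [mem_compl_iff, mem_Icc, ← abs_le] at hv
        exact not_le.1 hv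
      rw [sub_zero, abs_mul, abs_of_pos (Real.exp_pos _)]
      unfold Q270LD.maj
      have h3 : |V0| ≤ |v| + 3 := by rw [abs_of_pos (by linarith)]; linarith
      gcongr)
  rw [integral_const_mul, ← hJ] at h2
  have h3 := le_abs_self (V0 * ∫ v in (Icc (-V0) V0)ᶜ, Real.exp (-a * v ^ 2))
  obtain ⟨N, hN⟩ : ∃ N : ℝ, N = ∫ v in (Icc (-V0) V0)ᶜ, Real.exp (-a * v ^ 2) := ⟨_, rfl⟩
  rw [← hN] at h1 h2 h3
  have h4 : V0 * N ≤ V0 * δ := by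
    refine (h3.trans h2).trans ?_
    rw [hV0, add_mul, div_mul_cancel₀ _ hδ.ne']
    linarith
  have h5 := le_of_mul_le_mul_left h4 (by linarith)
  linarith

/-- **The main inequality.** -/
theorem master {K r0 A κ cM : ℝ} (hK : 1 ≤ K) (hr0 : 0 < r0) (hA1 : 1 ≤ A) (hA2 : 2 * r0 ≤ A) (hκ : 0 < κ)
    (hcM : 0 ≤ cM) : ∃ V0 ℓ0 : ℝ, 0 ≤ V0 ∧ 1 ≤ ℓ0 ∧ ∀ (ℓ : ℝ) (f : ℂ → ℂ), ℓ0 ≤ ℓ → ND K ℓ f →
    ∀ (r : ℝ → ℝ) (c : ℝ), 0 ≤ c → c ≤ cM → (∀ x, r x ≤ r0) → Hyp f r c V0 ℓ →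
      2 * ∑ z ∈ W f ℓ, (mu f z : ℝ) * ((r0 - max (r z.re) 0) * Real.exp (-(1 / A ^ 2) * z.im ^ 2)) ≤
      (r0 / Real.pi - c) * (Real.sqrt Real.pi * A) * (2 * ℓ) +
        (54 * r0 + 864 * r0 ^ 3) * (131000 * K) * (ℓ / A) + κ * ℓ := by
  obtain ⟨C0, hC0⟩ : ∃ C0 : ℝ, C0 = 54 * r0 + 864 * r0 ^ 3 := ⟨_, rfl⟩
  have hC00 : 0 < C0 := by rw [hC0]; positivity
  have hA0 : 0 < A := by linarith
  have ha : 0 < 1 / A ^ 2 := by positivity
  obtain ⟨V0, hV0, hm⟩ := mass (δ := κ / (6 * (cM + 1))) ha (by positivity)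
  obtain ⟨ℓ1, hℓ1, hef⟩ := ef (A' := 0) (κ := κ / (6 * r0)) hK ha (by positivity)
  refine ⟨V0, max (max ℓ1 (V0 + r0)) (3 * (C0 * (131000 * K) * A) / κ), hV0,
    hℓ1.trans ((le_max_left _ _).trans (le_max_left _ _)), ?_⟩
  intro ℓ f hℓ h r c hc hcM' hr hH
  have hℓa : ℓ1 ≤ ℓ := ((le_max_left _ _).trans (le_max_left _ _)).trans hℓ
  have hℓb : V0 + r0 ≤ ℓ := ((le_max_right _ _).trans (le_max_left _ _)).trans hℓ
  have hℓ1' : 1 ≤ ℓ := hℓ1.trans hℓa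
  have hℓ0 : 0 < ℓ := by linarith
  have hℓC : 3 * (C0 * (131000 * K) * A) ≤ κ * ℓ := by
    have h1 : 3 * (C0 * (131000 * K) * A) / κ ≤ ℓ := (le_max_right _ _).trans hℓ
    rw [div_le_iff₀ hκ] at h1
    linarith
  set G := Real.sqrt (Real.pi / (1 / A ^ 2)) with hG
  have hGe : G = Real.sqrt Real.pi * A := by
    rw [hG, div_div_eq_mul_div, div_one, Real.sqrt_mul Real.pi_pos.le, Real.sqrt_sq hA0.le]
  have hG0 : 0 ≤ G := Real.sqrt_nonneg _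
  have h1 := hyp_int h hK hℓ0.le ha hr hH hℓb
  have h2 : c * (2 * ℓ) * (G - κ / (6 * (cM + 1))) ≤ c * (2 * ℓ) * (∫ v in Icc (-V0) V0, Real.exp (-(1 / A ^ 2) * v ^ 2)) :=
    mul_le_mul_of_nonneg_left hm (by positivity)
  have h3 : c * (2 * ℓ) * (κ / (6 * (cM + 1))) ≤ κ / 3 * ℓ := by
    have h4 : c * (κ / (6 * (cM + 1))) ≤ κ / 6 := by
      rw [mul_div_assoc', div_le_div_iff₀ (by positivity) (by norm_num)]
      nlinarith
    nlinarith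
  have h4 : ∑ z ∈ W f ℓ, (mu f z : ℝ) * Psi (1 / A ^ 2) (r z.re) z.im +
      2 * ∑ z ∈ W f ℓ, (mu f z : ℝ) * ((r0 - max (r z.re) 0) * Real.exp (-(1 / A ^ 2) * z.im ^ 2)) ≤
      2 * r0 * ∑ z ∈ W f ℓ, (mu f z : ℝ) * (ga (1 / A ^ 2) 0 z).re +
      C0 * ∑ z ∈ W f ℓ, (mu f z : ℝ) * q A z.im := by
    rw [Finset.mul_sum, Finset.mul_sum, Finset.mul_sum, ← Finset.sum_add_distrib, ← Finset.sum_add_distrib]
    refine Finset.sum_le_sum fun z hz => ?_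
    rw [mem_W h hK hℓ0.le] at hz
    have h5 := Q270LD.pointwise (T := 0) hA1 hr0 hA2 (hr z.re) (h.zer z hz.1)
    rw [sub_zero] at h5
    have h6 := mul_le_mul_of_nonneg_left h5 (Nat.cast_nonneg (α := ℝ) (mu f z))
    rw [← hC0] at h6
    nlinarith
  have h5 := (abs_le.1 (hef ℓ f hℓa h 0 (by simp))).2
  have h6 := qsum h hK hℓ1' hA1 (W f ℓ) (fun z hz => by
    rw [mem_W h hK hℓ0.le] at hz
    exact hz.1)
  have h7 : 2 * r0 * ∑ z ∈ W f ℓ, (mu f z : ℝ) * (ga (1 / A ^ 2) 0 z).re ≤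
      r0 / Real.pi * G * (2 * ℓ) + κ / 3 * ℓ := by
    have h8 : ∑ z ∈ W f ℓ, (mu f z : ℝ) * (ga (1 / A ^ 2) 0 z).re ≤ ℓ / Real.pi * G + κ / (6 * r0) * ℓ := by
      linarith
    refine (mul_le_mul_of_nonneg_left h8 (by positivity)).trans (le_of_eq ?_)
    have := Real.pi_pos
    field_simp
    ring
  have h8 : C0 * ∑ z ∈ W f ℓ, (mu f z : ℝ) * q A z.im ≤ C0 * (131000 * K) * (ℓ / A) + κ / 3 * ℓ := by
    calc C0 * ∑ z ∈ W f ℓ, (mu f z : ℝ) * q A z.im ≤ C0 * (131000 * K * (ℓ / A + A)) :=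
          mul_le_mul_of_nonneg_left h6 hC00.le
      _ = C0 * (131000 * K) * (ℓ / A) + C0 * (131000 * K) * A := by ring
      _ ≤ _ := by linarith
  rw [← hGe, ← hC0]
  nlinarith

/-- few zeros away from the line -/
theorem few {K δ η' R : ℝ} {r : ℝ → ℝ} (hK : 1 ≤ K) (hr : Prof r) (hδ : 0 < δ) (hη' : 0 < η') :
    ∃ η1 V0 ℓ0 : ℝ, 0 < η1 ∧ η1 ≤ r 0 / Real.pi ∧ 0 ≤ V0 ∧ 1 ≤ ℓ0 ∧ ∀ (ℓ : ℝ) (f : ℂ → ℂ), ℓ0 ≤ ℓ → ND K ℓ f →
      Hyp f r (r 0 / Real.pi - η1) V0 ℓ → ∀ F : Finset ℂ, (∀ z ∈ F, f z = 0 ∧ δ ≤ |z.re| ∧ |z.im| ≤ R) →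
        ∑ z ∈ F, (mu f z : ℝ) ≤ η' * ℓ := by
  obtain ⟨K1, hK1⟩ : ∃ K1 : ℝ, K1 = (54 * r 0 + 864 * r 0 ^ 3) * (131000 * K) := ⟨_, rfl⟩
  have hr0 := hr.pos
  have hK10 : 0 < K1 := by rw [hK1]; positivity
  obtain ⟨g, hg, hgap⟩ := hr.gap δ hδ
  obtain ⟨m, hmd⟩ : ∃ m : ℝ, m = min g (r 0) := ⟨_, rfl⟩
  have hm0 : 0 < m := by rw [hmd]; exact lt_min hg hr.pos
  obtain ⟨θ, hθ⟩ : ∃ θ : ℝ, θ = 2 * m * Real.exp (-1) * η' := ⟨_, rfl⟩
  have hθ0 : 0 < θ := by rw [hθ]; positivity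
  obtain ⟨A, hA⟩ : ∃ A : ℝ, A = max (max 1 (2 * r 0)) (max R (4 * K1 / θ)) := ⟨_, rfl⟩
  have hA1 : 1 ≤ A := by rw [hA]; exact (le_max_left _ _).trans (le_max_left _ _)
  have hA2 : 2 * r 0 ≤ A := by rw [hA]; exact (le_max_right _ _).trans (le_max_left _ _)
  have hAR : R ≤ A := by rw [hA]; exact (le_max_left _ _).trans (le_max_right _ _)
  have hA3 : K1 / A ≤ θ / 4 := by
    have h1 : 4 * K1 / θ ≤ A := by rw [hA]; exact (le_max_right _ _).trans (le_max_right _ _)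
    rw [div_le_iff₀ hθ0] at h1
    rw [div_le_iff₀ (by linarith)]
    linarith
  have hA0 : 0 < A := by linarith
  have hrpi : 0 < r 0 / Real.pi := div_pos hr.pos Real.pi_pos
  obtain ⟨V0, ℓ1, hV0, hℓ1, hm⟩ := master hK hr.pos hA1 hA2 (show 0 < θ / 4 by positivity) hrpi.le
  have hsp : 0 < Real.sqrt Real.pi := Real.sqrt_pos.2 Real.pi_pos
  refine ⟨min (r 0 / Real.pi) (θ / 8 / (Real.sqrt Real.pi * A)), V0, max ℓ1 R, lt_min hrpi (by positivity),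
    min_le_left _ _, hV0, hℓ1.trans (le_max_left _ _), ?_⟩
  intro ℓ f hℓ h hH F hF
  have hℓa : ℓ1 ≤ ℓ := (le_max_left _ _).trans hℓ
  have hℓR : R ≤ ℓ := (le_max_right _ _).trans hℓ
  have hℓ0 : 0 < ℓ := by linarith
  set η1 := min (r 0 / Real.pi) (θ / 8 / (Real.sqrt Real.pi * A)) with hη1
  have hη10 : 0 < η1 := lt_min hrpi (by positivity)
  have hc0 : 0 ≤ r 0 / Real.pi - η1 := by
    have : η1 ≤ r 0 / Real.pi := min_le_left _ _
    linarith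
  have hη1b : η1 * (Real.sqrt Real.pi * A) ≤ θ / 8 := by
    have : η1 ≤ θ / 8 / (Real.sqrt Real.pi * A) := min_le_right _ _
    rwa [le_div_iff₀ (by positivity)] at this
  have h1 := hm ℓ f hℓa h r _ hc0 (by linarith) hr.le hH
  rw [← hK1] at h1
  have hmx : ∀ x : ℝ, 0 ≤ r 0 - max (r x) 0 := fun x => by
    have := max_le (hr.le x) hr.pos.le
    linarith
  have h2 : 2 * (m * Real.exp (-1)) * ∑ z ∈ F, (mu f z : ℝ) ≤
      2 * ∑ z ∈ W f ℓ, (mu f z : ℝ) * ((r 0 - max (r z.re) 0) * Real.exp (-(1 / A ^ 2) * z.im ^ 2)) := by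
    have hsub : F ⊆ W f ℓ := by
      intro z hz
      rw [mem_W h hK hℓ0.le]
      exact ⟨(hF z hz).1, (hF z hz).2.2.trans hℓR⟩
    have h3 : ∑ z ∈ F, (mu f z : ℝ) * (m * Real.exp (-1)) ≤
        ∑ z ∈ F, (mu f z : ℝ) * ((r 0 - max (r z.re) 0) * Real.exp (-(1 / A ^ 2) * z.im ^ 2)) := by
      refine Finset.sum_le_sum fun z hz => ?_
      obtain ⟨_, h5, h4⟩ := hF z hz
      refine mul_le_mul_of_nonneg_left ?_ (Nat.cast_nonneg _)
      refine mul_le_mul ?_ ?_ (Real.exp_pos _).le (hmx _)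
      · rcases le_total (r z.re) 0 with h6 | h6
        · rw [max_eq_right h6, hmd, sub_zero]
          exact min_le_right _ _
        · rw [max_eq_left h6, hmd]
          have := hgap _ h5
          have h7 : min g (r 0) ≤ g := min_le_left _ _
          linarith
      · apply Real.exp_le_exp.2
        have h6 : z.im ^ 2 ≤ A ^ 2 := by
          rw [← sq_abs]
          exact pow_le_pow_left₀ (abs_nonneg _) (h4.trans hAR) 2
        have h7 : 1 / A ^ 2 * z.im ^ 2 ≤ 1 := by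
          rw [one_div, inv_mul_le_iff₀ (by positivity)]
          linarith
        linarith
    have h4 : ∑ z ∈ F, (mu f z : ℝ) * ((r 0 - max (r z.re) 0) * Real.exp (-(1 / A ^ 2) * z.im ^ 2)) ≤
        ∑ z ∈ W f ℓ, (mu f z : ℝ) * ((r 0 - max (r z.re) 0) * Real.exp (-(1 / A ^ 2) * z.im ^ 2)) :=
      Finset.sum_le_sum_of_subset_of_nonneg hsub fun z _ _ =>
        mul_nonneg (Nat.cast_nonneg _) (mul_nonneg (hmx _) (Real.exp_pos _).le)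
    rw [← Finset.sum_mul] at h3
    linarith
  have e1 : (r 0 / Real.pi - (r 0 / Real.pi - η1)) * (Real.sqrt Real.pi * A) * (2 * ℓ) =
      2 * (η1 * (Real.sqrt Real.pi * A)) * ℓ := by ring
  rw [e1] at h1
  have h3 : 2 * (η1 * (Real.sqrt Real.pi * A)) * ℓ ≤ θ / 4 * ℓ :=
    mul_le_mul_of_nonneg_right (by linarith) hℓ0.le
  have h4 : K1 * (ℓ / A) ≤ θ / 4 * ℓ := by
    calc K1 * (ℓ / A) = K1 / A * ℓ := by ring
      _ ≤ _ := mul_le_mul_of_nonneg_right hA3 hℓ0.le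
  have h5 : 2 * (m * Real.exp (-1)) * ∑ z ∈ F, (mu f z : ℝ) ≤ θ * ℓ := by
    have : 0 ≤ θ * ℓ := by positivity
    linarith
  have h6 : 0 < 2 * (m * Real.exp (-1)) := by positivity
  rw [hθ] at h5
  have h7 : 2 * (m * Real.exp (-1)) * ∑ z ∈ F, (mu f z : ℝ) ≤ 2 * (m * Real.exp (-1)) * (η' * ℓ) := by
    linarith
  exact le_of_mul_le_mul_left h7 h6

/-- the constant is the largest possible -/
theorem sharp {K ε : ℝ} {r : ℝ → ℝ} (hK : 1 ≤ K) (hr : Prof r) (hε : 0 < ε) :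
    ∃ V0 ℓ0 : ℝ, 0 ≤ V0 ∧ 1 ≤ ℓ0 ∧ ∀ (ℓ : ℝ) (f : ℂ → ℂ), ℓ0 ≤ ℓ → ND K ℓ f →
      ¬ Hyp f r (r 0 / Real.pi + ε) V0 ℓ := by
  obtain ⟨K1, hK1⟩ : ∃ K1 : ℝ, K1 = (54 * r 0 + 864 * r 0 ^ 3) * (131000 * K) := ⟨_, rfl⟩
  have hr0 := hr.pos
  have hK10 : 0 < K1 := by rw [hK1]; positivity
  obtain ⟨A, hA⟩ : ∃ A : ℝ, A = max (max 1 (2 * r 0)) (2 * K1 / ε) := ⟨_, rfl⟩
  have hA1 : 1 ≤ A := by rw [hA]; exact (le_max_left _ _).trans (le_max_left _ _)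
  have hA2 : 2 * r 0 ≤ A := by rw [hA]; exact (le_max_right _ _).trans (le_max_left _ _)
  have hA0 : 0 < A := by linarith
  have hA3 : K1 / A ≤ ε / 2 := by
    have h1 : 2 * K1 / ε ≤ A := by rw [hA]; exact le_max_right _ _
    rw [div_le_iff₀ hε] at h1
    rw [div_le_iff₀ hA0]
    linarith
  have hrpi : 0 < r 0 / Real.pi := div_pos hr.pos Real.pi_pos
  obtain ⟨V0, ℓ1, hV0, hℓ1, hm⟩ := master hK hr.pos hA1 hA2 hε (cM := r 0 / Real.pi + ε) (by positivity)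
  refine ⟨V0, ℓ1, hV0, hℓ1, fun ℓ f hℓ h hH => ?_⟩
  have hℓ0 : 0 < ℓ := by linarith
  have h1 := hm ℓ f hℓ h r _ (by positivity) le_rfl hr.le hH
  rw [← hK1] at h1
  have h2 : 0 ≤ 2 * ∑ z ∈ W f ℓ, (mu f z : ℝ) * ((r 0 - max (r z.re) 0) * Real.exp (-(1 / A ^ 2) * z.im ^ 2)) := by
    refine mul_nonneg (by norm_num) (Finset.sum_nonneg fun z _ => ?_)
    refine mul_nonneg (Nat.cast_nonneg _) (mul_nonneg ?_ (Real.exp_pos _).le)
    have := max_le (hr.le z.re) hr.pos.le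
    linarith
  have hsp : 1 ≤ Real.sqrt Real.pi := by
    rw [Real.one_le_sqrt]
    linarith [Real.pi_gt_three]
  have e1 : (r 0 / Real.pi - (r 0 / Real.pi + ε)) * (Real.sqrt Real.pi * A) * (2 * ℓ) =
      -(2 * (ε * ℓ) * (Real.sqrt Real.pi * A)) := by ring
  rw [e1] at h1
  have h3 : 2 * (ε * ℓ) ≤ 2 * (ε * ℓ) * (Real.sqrt Real.pi * A) := by
    have : 1 ≤ Real.sqrt Real.pi * A := by nlinarith
    have h4 : 0 ≤ 2 * (ε * ℓ) := by positivity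
    nlinarith
  have h4 : K1 * (ℓ / A) ≤ ε / 2 * ℓ := by
    calc K1 * (ℓ / A) = K1 / A * ℓ := by ring
      _ ≤ _ := mul_le_mul_of_nonneg_right hA3 hℓ0.le
  have h5 : 0 < ε * ℓ := by positivity
  linarith

end Q270GD
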