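import Pool.Agent.Q270.GD.C6
import Pool.Agent.Q270.LD.B2

/-! # Kernels -/

set_option autoImplicit false

open Complex Filter Topology Set MeasureTheory Metric
open scoped ComplexConjugate
open Pool.Agent.W169.HF
open Q270LD (ga ga_norm Psi q Prof G G_nonneg G_all G_far G_le_one G_near gauss_one ga_re ga_cont sqrt_mul_sqrt)

namespace Q270GD

lemma ga_re_le (a v : ℝ) (w : ℂ) : |(ga a v w).re| ≤ Real.exp (a * w.re ^ 2) * Real.exp (-a * (w.im - v) ^ 2) :=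
  (Complex.abs_re_le_norm _).trans (le_of_eq (ga_norm a v w))

/-- integral of the Gaussian over the interval of heights -/
noncomputable def Q (a r' : ℝ) (w : ℂ) : ℝ :=
  Real.sqrt (a / Real.pi) * ∫ u in (-r')..r', (ga a u w).re

lemma ga_cont' (a : ℝ) (w : ℂ) : Continuous (fun u : ℝ => (ga a u w).re) := by
  unfold ga
  fun_prop

lemma Q_le {a r' : ℝ} (hr : 0 ≤ r') (w : ℂ) : Q a r' w ≤ Real.exp (a * w.re ^ 2) * G a r' w.im := by
  unfold Q G
  have h1 : ∫ u in (-r')..r', (ga a u w).re ≤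
      ∫ u in (-r')..r', Real.exp (a * w.re ^ 2) * Real.exp (-a * (w.im - u) ^ 2) := by
    refine intervalIntegral.integral_mono_on (by linarith) ((ga_cont' a _).intervalIntegrable _ _)
      (Continuous.intervalIntegrable (by fun_prop) _ _) fun u _ => ?_
    exact (le_abs_self _).trans (ga_re_le a u w)
  rw [intervalIntegral.integral_const_mul] at h1
  calc _ ≤ Real.sqrt (a / Real.pi) * (Real.exp (a * w.re ^ 2) *
      ∫ u in (-r')..r', Real.exp (-a * (w.im - u) ^ 2)) :=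
        mul_le_mul_of_nonneg_left h1 (Real.sqrt_nonneg _)
    _ = _ := by ring

lemma Q_ge_neg {a r' : ℝ} (hr : 0 ≤ r') (w : ℂ) :
    -(Real.exp (a * w.re ^ 2) * G a r' w.im) ≤ Q a r' w := by
  unfold Q G
  have h1 : ∫ u in (-r')..r', -(Real.exp (a * w.re ^ 2) *
        Real.exp (-a * (w.im - u) ^ 2)) ≤ ∫ u in (-r')..r', (ga a u w).re := by
    refine intervalIntegral.integral_mono_on (by linarith)
      (Continuous.intervalIntegrable (by fun_prop) _ _) ((ga_cont' a _).intervalIntegrable _ _) fun u _ => ?_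
    have := ga_re_le a u w
    exact (neg_le_neg this).trans (neg_abs_le _)
  rw [intervalIntegral.integral_neg, intervalIntegral.integral_const_mul] at h1
  calc -(Real.exp (a * w.re ^ 2) * (Real.sqrt (a / Real.pi) *
      ∫ u in (-r')..r', Real.exp (-a * (w.im - u) ^ 2))) =
      Real.sqrt (a / Real.pi) * -(Real.exp (a * w.re ^ 2) *
      ∫ u in (-r')..r', Real.exp (-a * (w.im - u) ^ 2)) := by ring
    _ ≤ _ := mul_le_mul_of_nonneg_left h1 (Real.sqrt_nonneg _)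

/-- the three parts of the integral -/
lemma point_up {r : ℝ → ℝ} {a r' r2 ε1 δ Ca : ℝ} (hr'0 : 0 < r') (hr2a : r' < r2) (hε10 : 0 < ε1)
    (hε11 : ε1 ≤ 1) (ha2 : 2 ≤ a) (ha3 : 16 * r' / ((r2 - r') ^ 4 * ε1) ≤ a)
    (ha4 : 2 / ((r2 - r') / r2) ^ 2 ≤ a) (hδb : a * δ ^ 2 ≤ Real.log (1 + ε1))
    (hr : ∀ x : ℝ, |x| < δ → r2 < r x)
    (hCa : Ca = Real.exp a * (Real.sqrt (a / Real.pi) * (2 * r' * (Real.exp (a * r' ^ 2) * 27)))) {w : ℂ}
    (h7 : |w.re| ≤ 1 / 2) :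
    Q a r' w ≤
      (if δ ≤ |w.re| then Ca * (1 / (1 + w.im ^ 2) ^ 2) else 0) +
      (if |w.im| < r w.re then (1 + ε1) else 0) +
      2 * ε1 * (1 / (1 + w.im ^ 2)) := by
  have ha0 : 0 < a := by linarith
  have h1 := Q_le (a := a) hr'0.le w
  obtain ⟨x, hx⟩ : ∃ x : ℝ, x = w.re := ⟨_, rfl⟩
  obtain ⟨t, ht⟩ : ∃ t : ℝ, t = w.im := ⟨_, rfl⟩
  rw [← hx, ← ht] at h1
  rw [← hx] at h7
  rw [← hx, ← ht]
  have hG0 : 0 ≤ G a r' t := G_nonneg hr'0.le t
  have hp3 : 0 ≤ 2 * ε1 * (1 / (1 + t ^ 2)) := by positivity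
  have hif : (0 : ℝ) ≤ if |t| < r x then (1 + ε1) else 0 := by
    split_ifs <;> linarith
  by_cases hx2 : δ ≤ |x|
  · rw [if_pos hx2]
    have h2 := G_all hr'0.le ha2 t
    have h3 : Real.exp (a * x ^ 2) ≤ Real.exp a := by
      apply Real.exp_le_exp.2
      have h8 : x ^ 2 ≤ 1 := by
        rw [← sq_abs]
        nlinarith [abs_nonneg x]
      nlinarith
    have h4 : Q a r' w ≤ Ca * (1 / (1 + t ^ 2) ^ 2) := by
      refine h1.trans ((mul_le_mul h3 h2 hG0 (Real.exp_pos _).le).trans (le_of_eq ?_))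
      rw [hCa]; ring
    linarith
  · rw [if_neg hx2]
    rw [not_le] at hx2
    have h3 : Real.exp (a * x ^ 2) ≤ 1 + ε1 := by
      rw [← Real.exp_log (show 0 < 1 + ε1 by linarith)]
      apply Real.exp_le_exp.2
      refine le_trans ?_ hδb
      have : x ^ 2 ≤ δ ^ 2 := by
        rw [← sq_abs]
        exact pow_le_pow_left₀ (abs_nonneg _) hx2.le 2
      exact mul_le_mul_of_nonneg_left this ha0.le
    rcases lt_or_ge |t| r2 with ht2 | ht2
    · have h4 : |t| < r x := ht2.trans (hr _ hx2)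
      rw [if_pos h4]
      have h5 := G_le_one ha0 hr'0.le t
      have h6 : Real.exp (a * x ^ 2) * G a r' t ≤ (1 + ε1) * 1 :=
        mul_le_mul h3 h5 hG0 (by linarith)
      linarith
    · have h5 := G_far hr'0 hr2a hε10 (by linarith) ha3 ha4 ht2
      have h6 : Real.exp (a * x ^ 2) * G a r' t ≤ (1 + ε1) * (ε1 * (1 / (1 + t ^ 2))) :=
        mul_le_mul h3 h5 hG0 (by linarith)
      have h7 : (1 + ε1) * (ε1 * (1 / (1 + t ^ 2))) ≤ 2 * ε1 * (1 / (1 + t ^ 2)) := by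
        have : 0 ≤ ε1 * (1 / (1 + t ^ 2)) := by positivity
        nlinarith
      linarith

/-- lower bound of the integral near the line -/
lemma Q_ge {a r' δ : ℝ} (hr : 0 < r') (ha : 4 ≤ a) (hδ : a * δ ^ 2 ≤ 1) (w : ℂ) (hx : |w.re| ≤ δ) :
    G a r' w.im - δ ^ 2 * (Real.sqrt (a / Real.pi) * (2 * r' * (6 * a * (Real.exp (a * r' ^ 2) * 27)))) *
      (1 / (1 + w.im ^ 2) ^ 2) ≤ Q a r' w := by
  obtain ⟨x, hxd⟩ : ∃ x : ℝ, x = w.re := ⟨_, rfl⟩
  obtain ⟨t, ht⟩ : ∃ t : ℝ, t = w.im := ⟨_, rfl⟩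
  rw [← hxd] at hx
  rw [← ht]
  have ha0 : 0 < a := by linarith
  have hx2 : x ^ 2 ≤ δ ^ 2 := by
    rw [← sq_abs x]
    exact pow_le_pow_left₀ (abs_nonneg _) hx 2
  have hax : a * x ^ 2 ≤ 1 := (mul_le_mul_of_nonneg_left hx2 ha0.le).trans hδ
  obtain ⟨M, hM⟩ : ∃ M : ℝ, M = δ ^ 2 * (6 * a * (Real.exp (a * r' ^ 2) * (27 / (1 + t ^ 2) ^ 2))) := ⟨_, rfl⟩
  have key : ∀ u ∈ Icc (-r') r', Real.exp (-a * (t - u) ^ 2) - M ≤ (ga a u w).re := by
    intro u hu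
    rw [ga_re, ← hxd, ← ht]
    obtain ⟨s, hs⟩ : ∃ s : ℝ, s = t - u := ⟨_, rfl⟩
    rw [← hs]
    have h1 := Real.one_sub_sq_div_two_le_cos (x := 2 * a * x * s)
    have h2 : 1 ≤ Real.exp (a * x ^ 2) := Real.one_le_exp (by positivity)
    have h3 : Real.exp (a * x ^ 2) ≤ 3 := by
      have h4 : Real.exp (a * x ^ 2) ≤ Real.exp 1 := Real.exp_le_exp.2 hax
      linarith [Real.exp_one_lt_d9]
    have h4 : 1 - 6 * a ^ 2 * δ ^ 2 * s ^ 2 ≤ Real.exp (a * x ^ 2) * Real.cos (2 * a * x * s) := by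
      have h5 : (2 * a * x * s) ^ 2 / 2 = 2 * a ^ 2 * x ^ 2 * s ^ 2 := by ring
      rw [h5] at h1
      have h6 : 2 * a ^ 2 * x ^ 2 * s ^ 2 ≤ 2 * a ^ 2 * δ ^ 2 * s ^ 2 := by
        have : 0 ≤ 2 * a ^ 2 * s ^ 2 := by positivity
        nlinarith
      have h7 : 0 ≤ 2 * a ^ 2 * x ^ 2 * s ^ 2 := by positivity
      calc 1 - 6 * a ^ 2 * δ ^ 2 * s ^ 2 ≤ Real.exp (a * x ^ 2) * (1 - 2 * a ^ 2 * x ^ 2 * s ^ 2) := by nlinarith
        _ ≤ _ := mul_le_mul_of_nonneg_left h1 (by linarith)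
    have h5 : a * s ^ 2 * Real.exp (-a * s ^ 2) ≤ Real.exp (a * r' ^ 2) * (27 / (1 + t ^ 2) ^ 2) := by
      have h6 : a * s ^ 2 ≤ Real.exp (a * s ^ 2 / 2) := by
        have := Real.quadratic_le_exp_of_nonneg (show 0 ≤ a * s ^ 2 / 2 by positivity)
        nlinarith [sq_nonneg (a * s ^ 2 - 2)]
      have h7 : Real.exp (a * s ^ 2 / 2) * Real.exp (-a * s ^ 2) ≤ Real.exp (a * r' ^ 2) * Real.exp (-(t ^ 2)) := by
        rw [← Real.exp_add, ← Real.exp_add]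
        apply Real.exp_le_exp.2
        have h8 : u ^ 2 ≤ r' ^ 2 := by
          rw [← sq_abs u]
          exact pow_le_pow_left₀ (abs_nonneg _) (abs_le.2 hu) 2
        have h9 : t ^ 2 / 2 - u ^ 2 ≤ s ^ 2 := by rw [hs]; nlinarith [sq_nonneg (t - 2 * u)]
        nlinarith [sq_nonneg t]
      calc a * s ^ 2 * Real.exp (-a * s ^ 2) ≤ Real.exp (a * s ^ 2 / 2) * Real.exp (-a * s ^ 2) := by gcongr
        _ ≤ Real.exp (a * r' ^ 2) * Real.exp (-(t ^ 2)) := h7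
        _ ≤ _ := by
          have := gauss_one t
          gcongr
    have h6 : Real.exp (-a * s ^ 2) * (1 - 6 * a ^ 2 * δ ^ 2 * s ^ 2) ≤
        Real.exp (-a * s ^ 2) * (Real.exp (a * x ^ 2) * Real.cos (2 * a * x * s)) :=
      mul_le_mul_of_nonneg_left h4 (Real.exp_pos _).le
    have h7 : 6 * a * δ ^ 2 * (a * s ^ 2 * Real.exp (-a * s ^ 2)) ≤ M := by
      rw [hM]
      calc 6 * a * δ ^ 2 * (a * s ^ 2 * Real.exp (-a * s ^ 2)) ≤
            6 * a * δ ^ 2 * (Real.exp (a * r' ^ 2) * (27 / (1 + t ^ 2) ^ 2)) := by gcongr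
        _ = _ := by ring
    nlinarith
  have h1 : ∫ u in (-r')..r', (Real.exp (-a * (t - u) ^ 2) - M) ≤
      ∫ u in (-r')..r', (ga a u w).re :=
    intervalIntegral.integral_mono_on (by linarith) (Continuous.intervalIntegrable (by fun_prop) _ _)
      ((ga_cont' a _).intervalIntegrable _ _) key
  rw [intervalIntegral.integral_sub (Continuous.intervalIntegrable (by fun_prop) _ _) intervalIntegrable_const,
    intervalIntegral.integral_const, smul_eq_mul] at h1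
  have h2 := mul_le_mul_of_nonneg_left h1 (Real.sqrt_nonneg (a / Real.pi))
  have h3 : Q a r' w = Real.sqrt (a / Real.pi) * ∫ u in (-r')..r', (ga a u w).re := rfl
  have h4 : G a r' t = Real.sqrt (a / Real.pi) * ∫ u in (-r')..r', Real.exp (-a * (t - u) ^ 2) := rfl
  rw [h3, h4]
  refine le_trans (le_of_eq ?_) h2
  rw [hM]
  ring

/-- the three parts of the integral, from below -/
lemma point_low {r : ℝ → ℝ} {a r' r0 ε1 δ Ca : ℝ} (hr0 : 0 < r0) (hr'0 : r0 < r') (hε10 : 0 < ε1)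
    (ha4 : 4 ≤ a) (ha3 : 3 / ((r' - r0) ^ 2 * ε1) ≤ a)
    (hδb : a * δ ^ 2 ≤ 1)
    (hδc : δ ^ 2 * (Real.sqrt (a / Real.pi) * (2 * r' * (6 * a * (Real.exp (a * r' ^ 2) * 27)))) ≤ ε1)
    (hr : ∀ x : ℝ, r x ≤ r0)
    (hCa : Ca = Real.exp a * (Real.sqrt (a / Real.pi) * (2 * r' * (Real.exp (a * r' ^ 2) * 27)))) {w : ℂ}
    (h7 : |w.re| ≤ 1 / 2) :
    (if |w.im| < r w.re then (1 - ε1) else 0) ≤ Q a r' w +
      (if δ ≤ |w.re| then (Ca + (1 + r0 ^ 2) ^ 2) * (1 / (1 + w.im ^ 2) ^ 2) else 0) +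
      ε1 * (1 / (1 + w.im ^ 2)) := by
  have ha0 : 0 < a := by linarith
  have h1 := Q_ge_neg (a := a) (r' := r') (by linarith) w
  have hge := Q_ge (a := a) (r' := r') (δ := δ) (by linarith) ha4 hδb w
  obtain ⟨x, hx⟩ : ∃ x : ℝ, x = w.re := ⟨_, rfl⟩
  obtain ⟨t, ht⟩ : ∃ t : ℝ, t = w.im := ⟨_, rfl⟩
  rw [← hx, ← ht] at h1 hge
  rw [← hx] at h7
  rw [← hx, ← ht]
  have hG0 : 0 ≤ G a r' t := G_nonneg (by linarith) t
  have hp3 : 0 ≤ ε1 * (1 / (1 + t ^ 2)) := by positivity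
  by_cases hx2 : δ ≤ |x|
  · rw [if_pos hx2]
    have h2 := G_all (a := a) (r' := r') (by linarith) (by linarith) t
    have h3 : Real.exp (a * x ^ 2) ≤ Real.exp a := by
      apply Real.exp_le_exp.2
      have h8 : x ^ 2 ≤ 1 := by
        rw [← sq_abs]
        nlinarith [abs_nonneg x]
      nlinarith
    have h4 : -(Ca * (1 / (1 + t ^ 2) ^ 2)) ≤ Q a r' w := by
      refine le_trans (neg_le_neg ?_) h1
      refine ((mul_le_mul h3 h2 hG0 (Real.exp_pos _).le).trans (le_of_eq ?_))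
      rw [hCa]; ring
    have h5 : 0 ≤ (1 + r0 ^ 2) ^ 2 * (1 / (1 + t ^ 2) ^ 2) := by positivity
    have h6 : (if |t| < r x then (1 - ε1) else 0) ≤ (1 + r0 ^ 2) ^ 2 * (1 / (1 + t ^ 2) ^ 2) := by
      split_ifs with hh
      · have h8 : t ^ 2 ≤ r0 ^ 2 := by
          rw [← sq_abs t]
          exact pow_le_pow_left₀ (abs_nonneg _) (hh.le.trans (hr x)) 2
        have h9 : (1 + t ^ 2) ^ 2 ≤ (1 + r0 ^ 2) ^ 2 := pow_le_pow_left₀ (by positivity) (by linarith) 2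
        have h10 : 1 ≤ (1 + r0 ^ 2) ^ 2 * (1 / (1 + t ^ 2) ^ 2) := by
          rw [mul_one_div, one_le_div (by positivity)]
          exact h9
        linarith
      · exact h5
    have h8 : (Ca + (1 + r0 ^ 2) ^ 2) * (1 / (1 + t ^ 2) ^ 2) =
      Ca * (1 / (1 + t ^ 2) ^ 2) + (1 + r0 ^ 2) ^ 2 * (1 / (1 + t ^ 2) ^ 2) := by ring
    rw [h8]
    linarith
  · rw [if_neg hx2]
    rw [not_le] at hx2
    have h2 := hge hx2.le
    have h3 : 1 / (1 + t ^ 2) ^ 2 ≤ 1 / (1 + t ^ 2) := by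
      apply one_div_le_one_div_of_le (by positivity)
      nlinarith [sq_nonneg t]
    have h4 : δ ^ 2 * (Real.sqrt (a / Real.pi) * (2 * r' * (6 * a * (Real.exp (a * r' ^ 2) * 27)))) *
        (1 / (1 + t ^ 2) ^ 2) ≤ ε1 * (1 / (1 + t ^ 2)) :=
      mul_le_mul hδc h3 (by positivity) hε10.le
    split_ifs with hh
    · have h5 := G_near (t := t) (by linarith) hr'0 hε10 ha0 ha3 (hh.le.trans (hr x))
      linarith
    · linarith

/-- the sum of the integrals -/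
lemma Q_sum {K a r' κ : ℝ} (hK : 1 ≤ K) (ha : 0 < a) (hr : 0 < r') (hκ : 0 < κ) : ∃ ℓ0 : ℝ, 1 ≤ ℓ0 ∧
    ∀ (ℓ : ℝ) (f : ℂ → ℂ), ℓ0 ≤ ℓ → ND K ℓ f →
      |∑ z ∈ W f ℓ, (mu f z : ℝ) * Q a r' z - r' / Real.pi * (2 * ℓ)| ≤ κ * ℓ := by
  have hpi := Real.pi_pos
  obtain ⟨g, hgd⟩ : ∃ g : ℝ, g = Real.sqrt (a / Real.pi) := ⟨_, rfl⟩
  have hg0 : 0 < g := by rw [hgd]; exact Real.sqrt_pos.2 (by positivity)
  obtain ⟨ℓ0, hℓ0, hef⟩ := ef (A' := r') (κ := κ / (g * (2 * r'))) hK ha (by positivity)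
  refine ⟨ℓ0, hℓ0, fun ℓ f hℓ h => ?_⟩
  obtain ⟨F, hF⟩ : ∃ F : ℝ → ℝ, F = fun u => ∑ z ∈ W f ℓ, (mu f z : ℝ) * (ga a u z).re := ⟨_, rfl⟩
  have hFc : Continuous F := by
    rw [hF]
    exact continuous_finsetSum _ fun z _ => (ga_cont' a z).const_mul _
  have h3 : ∑ z ∈ W f ℓ, (mu f z : ℝ) * Q a r' z = g * ∫ u in (-r')..r', F u := by
    rw [hF, intervalIntegral.integral_finsetSum
      (fun z _ => ((ga_cont' a z).const_mul _).intervalIntegrable _ _), Finset.mul_sum]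
    refine Finset.sum_congr rfl fun z _ => ?_
    unfold Q
    rw [intervalIntegral.integral_const_mul, hgd]
    ring
  have h4 : g * Real.sqrt (Real.pi / a) = 1 := by rw [hgd]; exact sqrt_mul_sqrt ha
  have h5 : ∀ u ∈ Icc (-r') r', |F u - ℓ / Real.pi * Real.sqrt (Real.pi / a)| ≤ κ / (g * (2 * r')) * ℓ := by
    intro u hu
    rw [hF]
    exact hef ℓ f hℓ h u (abs_le.2 hu)
  have h6 := intervalIntegral.integral_mono_on (a := -r') (b := r') (μ := volume) (by linarith)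
    (hFc.intervalIntegrable _ _)
    (intervalIntegrable_const (c := ℓ / Real.pi * Real.sqrt (Real.pi / a) + κ / (g * (2 * r')) * ℓ))
    (fun u hu => by
      have := (abs_le.1 (h5 u hu)).2
      linarith)
  have h7 := intervalIntegral.integral_mono_on (a := -r') (b := r') (μ := volume) (by linarith)
    (intervalIntegrable_const (c := ℓ / Real.pi * Real.sqrt (Real.pi / a) - κ / (g * (2 * r')) * ℓ))
    (hFc.intervalIntegrable _ _)
    (fun u hu => by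
      have := (abs_le.1 (h5 u hu)).1
      linarith)
  rw [intervalIntegral.integral_const, smul_eq_mul] at h6 h7
  rw [h3]
  have h8 := mul_le_mul_of_nonneg_left h6 hg0.le
  have h9 := mul_le_mul_of_nonneg_left h7 hg0.le
  have e1 : g * ((r' - -r') * (ℓ / Real.pi * Real.sqrt (Real.pi / a) + κ / (g * (2 * r')) * ℓ)) =
      (g * Real.sqrt (Real.pi / a)) * (r' / Real.pi * (2 * ℓ)) + κ * ℓ := by
    field_simp
    ring
  have e2 : g * ((r' - -r') * (ℓ / Real.pi * Real.sqrt (Real.pi / a) - κ / (g * (2 * r')) * ℓ)) =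
      (g * Real.sqrt (Real.pi / a)) * (r' / Real.pi * (2 * ℓ)) - κ * ℓ := by
    field_simp
    ring
  rw [e1, h4, one_mul] at h8
  rw [e2, h4, one_mul] at h9
  rw [abs_le]
  constructor <;> linarith

end Q270GD
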