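import Pool.Agent.Q270.GD.C7

/-! # Few zeros off the line give the expected number of zeros -/

set_option autoImplicit false

open Complex Filter Topology Set MeasureTheory Metric
open scoped ComplexConjugate
open Pool.Agent.W169.HF
open Q270LD (ga Prof final_arith final_arith2)

namespace Q270GD

/-- few zeros off the line -/
def Off (f : ℂ → ℂ) (δ η R ℓ : ℝ) : Prop := ∀ F : Finset ℂ, (∀ z ∈ F, f z = 0 ∧ δ ≤ |z.re| ∧ |z.im| ≤ R) →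
  ∑ z ∈ F, (mu f z : ℝ) ≤ η * ℓ

/-- the weighted sum over the zeros off the line -/
theorem off_sum {K δ η : ℝ} (hK : 1 ≤ K) (hη : 0 < η) : ∃ R2 η2 ℓ0 : ℝ, 0 < R2 ∧ 0 < η2 ∧ 1 ≤ ℓ0 ∧
    ∀ (ℓ : ℝ) (f : ℂ → ℂ), ℓ0 ≤ ℓ → ND K ℓ f → Off f δ η2 R2 ℓ → ∀ F : Finset ℂ,
      (∀ z ∈ F, f z = 0 ∧ δ ≤ |z.re|) → ∑ z ∈ F, (mu f z : ℝ) * (1 / (1 + z.im ^ 2) ^ 2) ≤ η * ℓ := by
  classical
  obtain ⟨D, hD⟩ : ∃ D : ℝ, D = 4 * (131000 * K) := ⟨_, rfl⟩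
  have hD0 : 0 < D := by rw [hD]; positivity
  obtain ⟨A, hA⟩ : ∃ A : ℝ, A = max 1 (4 * D / η) := ⟨_, rfl⟩
  have hA1 : 1 ≤ A := by rw [hA]; exact le_max_left _ _
  have hA0 : 0 < A := by linarith
  have hA2 : 4 * D ≤ A * η := by
    have h1 : 4 * D / η ≤ A := by rw [hA]; exact le_max_right _ _
    rwa [div_le_iff₀ hη] at h1
  refine ⟨A, η / 2, max 1 (4 * D / η), hA0, by positivity, le_max_left _ _, ?_⟩
  intro ℓ f hℓ h hoff F hF
  have hℓ1 : 1 ≤ ℓ := (le_max_left _ _).trans hℓ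
  have hℓ2 : 4 * D ≤ ℓ * η := by
    have h1 : 4 * D / η ≤ ℓ := (le_max_right _ _).trans hℓ
    rwa [div_le_iff₀ hη] at h1
  rw [← Finset.sum_filter_add_sum_filter_not F (fun z => |z.im| ≤ A)]
  have h1 : ∑ z ∈ F.filter (fun z => |z.im| ≤ A), (mu f z : ℝ) * (1 / (1 + z.im ^ 2) ^ 2) ≤ η / 2 * ℓ := by
    refine le_trans ?_ (hoff (F.filter (fun z => |z.im| ≤ A)) fun z hz => ?_)
    · refine Finset.sum_le_sum fun z _ => ?_
      refine mul_le_of_le_one_right (Nat.cast_nonneg _) ?_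
      rw [div_le_one (by positivity)]
      exact one_le_pow₀ (by nlinarith [sq_nonneg z.im])
    · obtain ⟨a1, a2⟩ := Finset.mem_filter.1 hz
      exact ⟨(hF z a1).1, (hF z a1).2, a2⟩
  have h2 : ∑ z ∈ F.filter (fun z => ¬ |z.im| ≤ A), (mu f z : ℝ) * (1 / (1 + z.im ^ 2) ^ 2) ≤ η / 2 * ℓ := by
    have a1 : ∑ z ∈ F.filter (fun z => ¬ |z.im| ≤ A), (mu f z : ℝ) * (1 / (1 + z.im ^ 2) ^ 2) ≤
        4 / A ^ 2 * ∑ z ∈ F.filter (fun z => ¬ |z.im| ≤ A), (mu f z : ℝ) * Q270LD.q A z.im := by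
      rw [Finset.mul_sum]
      refine Finset.sum_le_sum fun z hz => ?_
      rw [Finset.mem_filter, not_le] at hz
      have b1 : A ^ 2 ≤ z.im ^ 2 := by
        rw [← sq_abs z.im]
        exact pow_le_pow_left₀ hA0.le hz.2.le 2
      have b2 : 1 / (1 + z.im ^ 2) ^ 2 ≤ 4 / A ^ 2 * Q270LD.q A z.im := by
        unfold Q270LD.q
        have e : 4 / A ^ 2 * (A ^ 2 / (A ^ 2 + z.im ^ 2) ^ 2) = 4 / (A ^ 2 + z.im ^ 2) ^ 2 := by
          field_simp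
        rw [e, div_le_div_iff₀ (by positivity) (by positivity)]
        have b3 : (A ^ 2 + z.im ^ 2) ^ 2 ≤ (2 * (1 + z.im ^ 2)) ^ 2 :=
          pow_le_pow_left₀ (by positivity) (by linarith) 2
        nlinarith
      calc (mu f z : ℝ) * (1 / (1 + z.im ^ 2) ^ 2) ≤ mu f z * (4 / A ^ 2 * Q270LD.q A z.im) :=
            mul_le_mul_of_nonneg_left b2 (Nat.cast_nonneg _)
        _ = _ := by ring
    have a2 := qsum h hK hℓ1 hA1 (F.filter (fun z => ¬ |z.im| ≤ A)) (fun z hz => (hF z (Finset.mem_filter.1 hz).1).1)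
    have a3 : 4 / A ^ 2 * (131000 * K * (ℓ / A + A)) ≤ η / 2 * ℓ := by
      have e : 4 / A ^ 2 * (131000 * K * (ℓ / A + A)) = D / A ^ 2 * (ℓ / A) + D / A := by
        rw [hD]
        field_simp
      rw [e]
      have c1 : D / A ≤ η / 4 := by
        rw [div_le_iff₀ hA0]
        linarith
      have c2 : D / A ^ 2 * (ℓ / A) ≤ η / 4 * ℓ := by
        have c3 : D / A ^ 2 ≤ D / A := by
          apply div_le_div_of_nonneg_left hD0.le hA0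
          nlinarith
        have c4 : ℓ / A ≤ ℓ := div_le_self (by linarith) hA1
        exact mul_le_mul (c3.trans c1) c4 (by positivity) (by positivity)
      have c5 : D / A ≤ η / 4 * ℓ := c1.trans (by nlinarith)
      linarith
    refine a1.trans (le_trans ?_ a3)
    exact mul_le_mul_of_nonneg_left a2 (by positivity)
  linarith

/-- **Few zeros off the line: every region has the expected number of zeros.** -/
theorem many {K ε : ℝ} {r : ℝ → ℝ} (hK : 1 ≤ K) (hr : Prof r) (hε : 0 < ε) :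
    ∃ δ η R ℓ0 : ℝ, 0 < δ ∧ 0 < η ∧ 0 < R ∧ 1 ≤ ℓ0 ∧ ∀ (ℓ : ℝ) (f : ℂ → ℂ), ℓ0 ≤ ℓ → ND K ℓ f →
      Off f δ η R ℓ → ∃ F : Finset ℂ, (∀ z ∈ F, f z = 0 ∧ |z.im| < r z.re) ∧
        (r 0 / Real.pi - ε) * (2 * ℓ) ≤ ∑ z ∈ F, (mu f z : ℝ) := by
  classical
  have hpi := Real.pi_pos
  have hpi3 := Real.pi_gt_three
  have hr0 := hr.pos
  obtain ⟨K', hK'⟩ : ∃ K' : ℝ, K' = 43000 * K := ⟨_, rfl⟩
  have hK'0 : 0 < K' := by rw [hK']; positivity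
  obtain ⟨r', hr'⟩ : ∃ r' : ℝ, r' = max (r 0 - Real.pi * ε / 4) (r 0 / 2) := ⟨_, rfl⟩
  have hr'0 : 0 < r' := lt_of_lt_of_le (half_pos hr0) (by rw [hr']; exact le_max_right _ _)
  have hr'1 : r' < r 0 := by
    rw [hr']
    apply max_lt
    · have : 0 < Real.pi * ε / 4 := by positivity
      linarith
    · linarith
  have hr'2 : r 0 / Real.pi - ε / 4 ≤ r' / Real.pi := by
    have h1 : r 0 - Real.pi * ε / 4 ≤ r' := by rw [hr']; exact le_max_left _ _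
    rw [le_div_iff₀ hpi, sub_mul, div_mul_cancel₀ _ hpi.ne']
    linarith
  obtain ⟨r2, hr2⟩ : ∃ r2 : ℝ, r2 = (r' + r 0) / 2 := ⟨_, rfl⟩
  have hr2a : r' < r2 := by linarith
  have hr2b : r2 < r 0 := by linarith
  obtain ⟨δ1, hδ1, hδ1b⟩ : ∃ δ1 : ℝ, 0 < δ1 ∧ ∀ x : ℝ, |x| < δ1 → r2 < r x := by
    have h1 : ∀ᶠ x in 𝓝 (0 : ℝ), r2 < r x := hr.cont.eventually (lt_mem_nhds hr2b)
    obtain ⟨δ1, hδ1, h2⟩ := Metric.eventually_nhds_iff.1 h1
    exact ⟨δ1, hδ1, fun x hx => h2 (by rwa [Real.dist_eq, sub_zero])⟩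
  obtain ⟨ε1, hε1⟩ : ∃ ε1 : ℝ, ε1 = min 1 (ε / (8 * (1 + r 0 + K'))) := ⟨_, rfl⟩
  have hε10 : 0 < ε1 := by rw [hε1]; exact lt_min one_pos (by positivity)
  have hε11 : ε1 ≤ 1 := by rw [hε1]; exact min_le_left _ _
  have hε12 : ε1 * (8 * (1 + r 0 + K')) ≤ ε := by
    have : ε1 ≤ ε / (8 * (1 + r 0 + K')) := by rw [hε1]; exact min_le_right _ _
    rwa [le_div_iff₀ (by positivity)] at this
  obtain ⟨a, ha⟩ : ∃ a : ℝ, a = max 2 (max (16 * r' / ((r2 - r') ^ 4 * ε1)) (2 / ((r2 - r') / r2) ^ 2)) := ⟨_, rfl⟩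
  have ha2 : 2 ≤ a := by rw [ha]; exact le_max_left _ _
  have ha3 : 16 * r' / ((r2 - r') ^ 4 * ε1) ≤ a := by rw [ha]; exact (le_max_left _ _).trans (le_max_right _ _)
  have ha4 : 2 / ((r2 - r') / r2) ^ 2 ≤ a := by rw [ha]; exact (le_max_right _ _).trans (le_max_right _ _)
  have ha0 : 0 < a := by linarith
  have hlog1 : 0 < Real.log (1 + ε1) := Real.log_pos (by linarith)
  obtain ⟨δ, hδ⟩ : ∃ δ : ℝ, δ = min δ1 (Real.sqrt (Real.log (1 + ε1) / a)) := ⟨_, rfl⟩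
  have hδ0 : 0 < δ := by rw [hδ]; exact lt_min hδ1 (Real.sqrt_pos.2 (by positivity))
  have hδa : δ ≤ δ1 := by rw [hδ]; exact min_le_left _ _
  have hδb : a * δ ^ 2 ≤ Real.log (1 + ε1) := by
    have h1 : δ ≤ Real.sqrt (Real.log (1 + ε1) / a) := by rw [hδ]; exact min_le_right _ _
    have h2 : δ ^ 2 ≤ Real.log (1 + ε1) / a := by
      calc δ ^ 2 ≤ (Real.sqrt (Real.log (1 + ε1) / a)) ^ 2 := pow_le_pow_left₀ hδ0.le h1 2
        _ = _ := Real.sq_sqrt (by positivity)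
    rw [le_div_iff₀ ha0] at h2
    linarith
  obtain ⟨Ca, hCa⟩ : ∃ Ca : ℝ, Ca = Real.exp a * (Real.sqrt (a / Real.pi) * (2 * r' * (Real.exp (a * r' ^ 2) * 27))) := ⟨_, rfl⟩
  have hCa0 : 0 < Ca := by rw [hCa]; positivity
  obtain ⟨R2, η2, ℓ2, hR2, hη2, hℓ2, hoff⟩ := off_sum (δ := δ) hK (show 0 < 2 * ε1 / Ca by positivity)
  obtain ⟨ℓ3, hℓ3, hQ⟩ := Q_sum hK ha0 hr'0 (show 0 < ε / 4 by positivity)
  refine ⟨δ, η2, R2, max (max ℓ2 ℓ3) (16 * K' / ε + 1), hδ0, hη2, hR2,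
    hℓ2.trans ((le_max_left _ _).trans (le_max_left _ _)), ?_⟩
  intro ℓ f hℓ h hO
  have hℓa : ℓ2 ≤ ℓ := ((le_max_left _ _).trans (le_max_left _ _)).trans hℓ
  have hℓb : ℓ3 ≤ ℓ := ((le_max_right _ _).trans (le_max_left _ _)).trans hℓ
  have hℓ1 : 1 ≤ ℓ := hℓ2.trans hℓa
  have hℓ0 : 0 < ℓ := by linarith
  have hℓc : 16 * K' < ε * ℓ := by
    have h1 : 16 * K' / ε < ℓ := by
      have := (le_max_right (max ℓ2 ℓ3) (16 * K' / ε + 1)).trans hℓ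
      linarith
    rw [div_lt_iff₀ hε] at h1
    linarith
  refine ⟨(W f ℓ).filter (fun z => |z.im| < r z.re), fun z hz => ?_, ?_⟩
  · obtain ⟨a1, a2⟩ := Finset.mem_filter.1 hz
    rw [mem_W h hK hℓ0.le] at a1
    exact ⟨a1.1, a2⟩
  set S := ∑ z ∈ (W f ℓ).filter (fun z => |z.im| < r z.re), (mu f z : ℝ) with hS
  have hS0 : 0 ≤ S := Finset.sum_nonneg fun z _ => Nat.cast_nonneg _
  have h1 := (abs_le.1 (hQ ℓ f hℓb h)).1
  have h2 : ∑ z ∈ W f ℓ, (mu f z : ℝ) * Q a r' z ≤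
      Ca * ∑ z ∈ (W f ℓ).filter (fun z => δ ≤ |z.re|), (mu f z : ℝ) * (1 / (1 + z.im ^ 2) ^ 2) + (1 + ε1) * S +
      2 * ε1 * ∑ z ∈ W f ℓ, (mu f z : ℝ) * (1 / (1 + z.im ^ 2)) := by
    rw [hS, Finset.sum_filter, Finset.sum_filter, Finset.mul_sum, Finset.mul_sum, Finset.mul_sum,
      ← Finset.sum_add_distrib, ← Finset.sum_add_distrib]
    refine Finset.sum_le_sum fun z hz => ?_
    rw [mem_W h hK hℓ0.le] at hz
    have h3 := mul_le_mul_of_nonneg_left (point_up (r := r) hr'0 hr2a hε10 hε11 ha2 ha3 ha4 hδb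
      (fun x hx => hδ1b x (hx.trans_le hδa)) hCa (h.zer z hz.1)) (Nat.cast_nonneg (α := ℝ) (mu f z))
    refine h3.trans (le_of_eq ?_)
    split_ifs <;> ring
  have h3 := hoff ℓ f hℓa h hO ((W f ℓ).filter (fun z => δ ≤ |z.re|)) (fun z hz => by
    obtain ⟨a1, a2⟩ := Finset.mem_filter.1 hz
    rw [mem_W h hK hℓ0.le] at a1
    exact ⟨a1.1, a2⟩)
  have h4 : Ca * ∑ z ∈ (W f ℓ).filter (fun z => δ ≤ |z.re|), (mu f z : ℝ) * (1 / (1 + z.im ^ 2) ^ 2) ≤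
      ε1 * (2 * ℓ) := by
    calc _ ≤ Ca * (2 * ε1 / Ca * ℓ) := mul_le_mul_of_nonneg_left h3 hCa0.le
      _ = ε1 * (2 * ℓ) := by field_simp
  have h5 := zsum h hK hℓ1 (W f ℓ) (fun z hz => (mem_W h hK hℓ0.le).1 hz)
  have h6 : 2 * ε1 * ∑ z ∈ W f ℓ, (mu f z : ℝ) * (1 / (1 + z.im ^ 2)) ≤ 2 * ε1 * (K' * (2 * ℓ + 1)) := by
    refine mul_le_mul_of_nonneg_left (h5.trans ?_) (by positivity)
    rw [hK']
    nlinarith
  refine final_arith (K := K') (C5 := ε / 4 * ℓ + 2 * K') hε10 hε11 hK'0 hr0 (by linarith) (by linarith) ?_ hS0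
    hε12 hr'2 ?_
  · rw [abs_of_pos (by positivity)]
    linarith
  · linarith

/-- **Few zeros off the line: no region has more than the expected number of zeros.** -/
theorem upper {K ε : ℝ} {r : ℝ → ℝ} (hK : 1 ≤ K) (hr : Prof r) (hε : 0 < ε) :
    ∃ δ η R ℓ0 : ℝ, 0 < δ ∧ 0 < η ∧ 0 < R ∧ 1 ≤ ℓ0 ∧ ∀ (ℓ : ℝ) (f : ℂ → ℂ), ℓ0 ≤ ℓ → ND K ℓ f →
      Off f δ η R ℓ → ∀ F : Finset ℂ, (∀ z ∈ F, f z = 0 ∧ |z.im| < r z.re) →
        ∑ z ∈ F, (mu f z : ℝ) ≤ (r 0 / Real.pi + ε) * (2 * ℓ) := by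
  classical
  have hpi := Real.pi_pos
  have hpi3 := Real.pi_gt_three
  have hr0 := hr.pos
  obtain ⟨K', hK'⟩ : ∃ K' : ℝ, K' = 43000 * K := ⟨_, rfl⟩
  have hK'0 : 0 < K' := by rw [hK']; positivity
  obtain ⟨r', hr'⟩ : ∃ r' : ℝ, r' = r 0 + Real.pi * ε / 4 := ⟨_, rfl⟩
  have hr'1 : r 0 < r' := by
    have : 0 < Real.pi * ε / 4 := by positivity
    linarith
  have hr'0 : 0 < r' := hr0.trans hr'1
  have hr'2 : r' / Real.pi = r 0 / Real.pi + ε / 4 := by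
    rw [hr']; field_simp
  obtain ⟨ε1, hε1⟩ : ∃ ε1 : ℝ, ε1 = min (1 / 2) (ε / (8 * (1 + r 0 + K' + ε))) := ⟨_, rfl⟩
  have hε10 : 0 < ε1 := by rw [hε1]; exact lt_min (by norm_num) (by positivity)
  have hε11 : ε1 ≤ 1 / 2 := by rw [hε1]; exact min_le_left _ _
  have hε12 : ε1 * (8 * (1 + r 0 + K' + ε)) ≤ ε := by
    have : ε1 ≤ ε / (8 * (1 + r 0 + K' + ε)) := by rw [hε1]; exact min_le_right _ _
    rwa [le_div_iff₀ (by positivity)] at this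
  obtain ⟨a, ha⟩ : ∃ a : ℝ, a = max 4 (3 / ((r' - r 0) ^ 2 * ε1)) := ⟨_, rfl⟩
  have ha4 : 4 ≤ a := by rw [ha]; exact le_max_left _ _
  have ha3 : 3 / ((r' - r 0) ^ 2 * ε1) ≤ a := by rw [ha]; exact le_max_right _ _
  have ha0 : 0 < a := by linarith
  obtain ⟨E, hE⟩ : ∃ E : ℝ, E = Real.sqrt (a / Real.pi) * (2 * r' * (6 * a * (Real.exp (a * r' ^ 2) * 27))) := ⟨_, rfl⟩
  have hE0 : 0 < E := by rw [hE]; positivity
  obtain ⟨δ, hδ⟩ : ∃ δ : ℝ, δ = Real.sqrt (min (1 / a) (ε1 / E)) := ⟨_, rfl⟩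
  have hm0 : 0 < min (1 / a) (ε1 / E) := lt_min (by positivity) (by positivity)
  have hδ0 : 0 < δ := by rw [hδ]; exact Real.sqrt_pos.2 hm0
  have hδ2 : δ ^ 2 = min (1 / a) (ε1 / E) := by rw [hδ]; exact Real.sq_sqrt hm0.le
  have hδb : a * δ ^ 2 ≤ 1 := by
    have h1 : δ ^ 2 ≤ 1 / a := by rw [hδ2]; exact min_le_left _ _
    rw [le_div_iff₀ ha0] at h1
    linarith
  have hδc : δ ^ 2 * (Real.sqrt (a / Real.pi) * (2 * r' * (6 * a * (Real.exp (a * r' ^ 2) * 27)))) ≤ ε1 := by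
    have h1 : δ ^ 2 ≤ ε1 / E := by rw [hδ2]; exact min_le_right _ _
    rw [le_div_iff₀ hE0] at h1
    rwa [← hE]
  obtain ⟨Ca, hCa⟩ : ∃ Ca : ℝ, Ca = Real.exp a * (Real.sqrt (a / Real.pi) * (2 * r' * (Real.exp (a * r' ^ 2) * 27))) := ⟨_, rfl⟩
  have hCa0 : 0 < Ca := by rw [hCa]; positivity
  obtain ⟨C6, hC6⟩ : ∃ C6 : ℝ, C6 = Ca + (1 + r 0 ^ 2) ^ 2 := ⟨_, rfl⟩
  have hC60 : 0 < C6 := by rw [hC6]; positivity
  obtain ⟨R2, η2, ℓ2, hR2, hη2, hℓ2, hoff⟩ := off_sum (δ := δ) hK (show 0 < 2 * ε1 / C6 by positivity)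
  obtain ⟨ℓ3, hℓ3, hQ⟩ := Q_sum hK ha0 hr'0 (show 0 < ε / 4 by positivity)
  refine ⟨δ, η2, R2, max (max ℓ2 ℓ3) (max (4 * K' / ε) (r 0)), hδ0, hη2, hR2,
    hℓ2.trans ((le_max_left _ _).trans (le_max_left _ _)), ?_⟩
  intro ℓ f hℓ h hO F hF
  have hℓa : ℓ2 ≤ ℓ := ((le_max_left _ _).trans (le_max_left _ _)).trans hℓ
  have hℓb : ℓ3 ≤ ℓ := ((le_max_right _ _).trans (le_max_left _ _)).trans hℓ
  have hℓr : r 0 ≤ ℓ := ((le_max_right _ _).trans (le_max_right _ _)).trans hℓ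
  have hℓ1 : 1 ≤ ℓ := hℓ2.trans hℓa
  have hℓ0 : 0 < ℓ := by linarith
  have hℓc : 4 * K' ≤ ε * ℓ := by
    have h1 : 4 * K' / ε ≤ ℓ := ((le_max_left _ _).trans (le_max_right _ _)).trans hℓ
    rw [div_le_iff₀ hε] at h1
    linarith
  obtain ⟨S, hS⟩ : ∃ S : ℝ, S = ∑ z ∈ (W f ℓ).filter (fun z => |z.im| < r z.re), (mu f z : ℝ) := ⟨_, rfl⟩
  have hFS : ∑ z ∈ F, (mu f z : ℝ) ≤ S := by
    rw [hS]
    refine Finset.sum_le_sum_of_subset_of_nonneg (fun z hz => ?_) fun _ _ _ => Nat.cast_nonneg _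
    obtain ⟨a1, a2⟩ := hF z hz
    rw [Finset.mem_filter, mem_W h hK hℓ0.le]
    exact ⟨⟨a1, a2.le.trans ((hr.le z.re).trans hℓr)⟩, a2⟩
  refine hFS.trans ?_
  have h1 := (abs_le.1 (hQ ℓ f hℓb h)).2
  have h2 : (1 - ε1) * S ≤ ∑ z ∈ W f ℓ, (mu f z : ℝ) * Q a r' z +
      C6 * ∑ z ∈ (W f ℓ).filter (fun z => δ ≤ |z.re|), (mu f z : ℝ) * (1 / (1 + z.im ^ 2) ^ 2) +
      ε1 * ∑ z ∈ W f ℓ, (mu f z : ℝ) * (1 / (1 + z.im ^ 2)) := by
    rw [hS, Finset.sum_filter, Finset.sum_filter, Finset.mul_sum, Finset.mul_sum, Finset.mul_sum,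
      ← Finset.sum_add_distrib, ← Finset.sum_add_distrib]
    refine Finset.sum_le_sum fun z hz => ?_
    rw [mem_W h hK hℓ0.le] at hz
    have h3 := mul_le_mul_of_nonneg_left (point_low (r := r) hr0 hr'1 hε10 ha4 ha3 hδb hδc
      hr.le hCa (h.zer z hz.1)) (Nat.cast_nonneg (α := ℝ) (mu f z))
    rw [← hC6] at h3
    refine le_trans (le_of_eq ?_) (h3.trans (le_of_eq ?_))
    · split_ifs <;> ring
    · split_ifs <;> ring
  have h3 := hoff ℓ f hℓa h hO ((W f ℓ).filter (fun z => δ ≤ |z.re|)) (fun z hz => by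
    obtain ⟨a1, a2⟩ := Finset.mem_filter.1 hz
    rw [mem_W h hK hℓ0.le] at a1
    exact ⟨a1.1, a2⟩)
  have h4 : C6 * ∑ z ∈ (W f ℓ).filter (fun z => δ ≤ |z.re|), (mu f z : ℝ) * (1 / (1 + z.im ^ 2) ^ 2) ≤
      ε1 * (2 * ℓ) := by
    calc _ ≤ C6 * (2 * ε1 / C6 * ℓ) := mul_le_mul_of_nonneg_left h3 hC60.le
      _ = ε1 * (2 * ℓ) := by field_simp
  have h5 := zsum h hK hℓ1 (W f ℓ) (fun z hz => (mem_W h hK hℓ0.le).1 hz)
  have h6 : ε1 * ∑ z ∈ W f ℓ, (mu f z : ℝ) * (1 / (1 + z.im ^ 2)) ≤ ε1 * (K' * (2 * ℓ + 1)) := by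
    refine mul_le_mul_of_nonneg_left (h5.trans ?_) hε10.le
    rw [hK']
    nlinarith
  rw [hr'2] at h1
  exact final_arith2 (K := K') (C4 := ε / 4 * ℓ) hε10 hε11 hK'0 hr0 (by linarith) (by positivity) hε
    (by linarith) hε12 (by linarith)

/-- the multiplicities are symmetric -/
lemma mu_refl {K ℓ : ℝ} {f : ℂ → ℂ} (h : ND K ℓ f) (z : ℂ) : mu f (-conj z) = mu f z := by
  obtain ⟨ε, hε, hfe⟩ := h.ud.fe
  have hd := h.diff
  have e0 : ε ≠ 0 := by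
    intro h0
    rw [h0, norm_zero] at hε
    exact zero_ne_one hε
  have hge : ∀ (n : ℕ) (z : ℂ), (n : ℕ∞) ≤ analyticOrderAt f z → (n : ℕ∞) ≤ analyticOrderAt f (-conj z) := by
    intro n z h
    rw [natCast_le_analyticOrderAt (hd.analyticAt _)] at h ⊢
    obtain ⟨g, hg, hev⟩ := h
    have hc : Tendsto (fun w : ℂ => -conj w) (𝓝 (-conj z)) (𝓝 z) := by
      have : ContinuousAt (fun w : ℂ => -conj w) (-conj z) := by fun_prop
      simpa [ContinuousAt] using this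
    refine ⟨fun w => ε * (-1) ^ n * conj (g (-conj w)), ?_, ?_⟩
    · have h3 : ∀ᶠ w in 𝓝 z, DifferentiableAt ℂ g w := hg.eventually_analyticAt.mono fun w hw => hw.differentiableAt
      have h4 : ∀ᶠ w in 𝓝 (-conj z), DifferentiableAt ℂ (fun w => ε * (-1) ^ n * conj (g (-conj w))) w := by
        filter_upwards [hc.eventually h3] with w hw
        have h5 : DifferentiableAt ℂ (fun w => g (-w)) (conj w) := by
          have : DifferentiableAt ℂ g (-(conj w)) := hw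
          exact this.comp (conj w) differentiableAt_id.neg
        have h6 : DifferentiableAt ℂ (fun w => conj (g (-conj w))) w := by
          have := (differentiableAt_conj_conj_iff (f := fun w => g (-w)) (x := w)).2 h5
          exact this
        exact h6.const_mul _
      exact Complex.analyticAt_iff_eventually_differentiableAt.2 h4
    · filter_upwards [hc.eventually hev] with w hw
      rw [hfe w, hw]
      simp only [smul_eq_mul, map_mul, map_pow, map_sub, map_neg, conj_conj]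
      have e1 : (-w - conj z) = (-1) * (w - -conj z) := by ring
      rw [e1, mul_pow]
      ring
  unfold mu analyticOrderNatAt
  congr 1
  refine le_antisymm ?_ ?_
  · refine ENat.forall_natCast_le_iff_le.1 fun n hn => ?_
    have := hge n _ hn
    simpa using this
  · exact ENat.forall_natCast_le_iff_le.1 fun n hn => hge n _ hn

end Q270GD
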