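import Pool.Agent.Q270.GD.C8
import Pool.Agent.W169.HF.AsmD

/-! # Automorphic L-functions: normalisation -/

set_option autoImplicit false

open Complex Filter Topology Set MeasureTheory Metric
open scoped ComplexConjugate
open Pool.Agent.W169.HF H353.E H353.F

namespace Q270GD

lemma ud_scale {K ϑ0 ℓ G : ℝ} {f : ℂ → ℂ} (h : UD K ϑ0 ℓ G f) :
    UD K ϑ0 ℓ 1 (fun u => ((G⁻¹ : ℝ) : ℂ) * f u) := by
  have hG := h.hG
  have hn : ∀ u, ‖((G⁻¹ : ℝ) : ℂ) * f u‖ = G⁻¹ * ‖f u‖ := fun u => by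
    rw [norm_mul, Complex.norm_real, Real.norm_of_nonneg (by positivity)]
  refine ⟨⟨h.slow.1.const_mul _, fun δ hδ => ?_⟩, ?_, one_pos, fun u => ?_, fun u hu => ?_⟩
  · obtain ⟨M, hM, h1⟩ := h.slow.2 δ hδ
    refine ⟨G⁻¹ * M, by positivity, fun z => ?_⟩
    rw [hn, mul_assoc]
    exact mul_le_mul_of_nonneg_left (h1 z) (by positivity)
  · obtain ⟨ε, hε, h1⟩ := h.fe
    refine ⟨ε, hε, fun u => ?_⟩
    rw [map_mul, conj_ofReal, h1 u]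
    ring
  · rw [hn, one_mul, inv_mul_le_iff₀ hG]
    exact h.up u
  · rw [hn, one_mul, le_inv_mul_iff₀ hG]
    exact h.lo u hu

/-- the normalised function at height `y` -/
noncomputable def fn {m : ℕ} (N : ℝ) (μ : Fin m → ℂ) (Λ : ℂ → ℂ) (y : ℝ) (u : ℂ) : ℂ :=
  (((‖gaf N μ (3 / 2 + y * I)‖ * Real.exp (-(gaD N μ (3 / 2 + y * I)).re))⁻¹ : ℝ) : ℂ) *
    XX N Λ (1 / 2 + (y : ℂ) * I + u)

/-- half the logarithm of the conductor at height `y` -/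
noncomputable def el {m : ℕ} (N : ℝ) (μ : Fin m → ℂ) (y : ℝ) : ℝ := (gaD N μ (3 / 2 + y * I)).re

lemma XX_zero {N : ℝ} (hN : 0 < N) {Λ : ℂ → ℂ} {z : ℂ} : XX N Λ z = 0 ↔ Λ z = 0 := by
  unfold XX
  have hN0 : (N : ℂ) ≠ 0 := by exact_mod_cast hN.ne'
  rw [mul_eq_zero, Complex.cpow_eq_zero_iff]
  constructor
  · rintro (⟨h, -⟩ | h)
    · exact absurd h hN0
    · exact h
  · exact Or.inr

lemma gpos {m : ℕ} (hm : 1 ≤ m) {N : ℝ} {μ : Fin m → ℂ} (hN : 1 ≤ N) (hμ : ∀ j, (μ j).re ≤ 1 / 2) (y : ℝ) :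
    0 < ‖gaf N μ (3 / 2 + y * I)‖ * Real.exp (-(gaD N μ (3 / 2 + y * I)).re) := by
  have := norm_pos_iff.2 ((gaf_GP hm hN hμ).ne (3 / 2 + y * I) (by simp; norm_num))
  positivity

lemma fn_zero {m : ℕ} (hm : 1 ≤ m) {N : ℝ} {μ : Fin m → ℂ} (hN : 1 ≤ N) (hμ : ∀ j, (μ j).re ≤ 1 / 2)
    {Λ : ℂ → ℂ} {y : ℝ} {u : ℂ} : fn N μ Λ y u = 0 ↔ Λ (1 / 2 + (y : ℂ) * I + u) = 0 := by
  unfold fn
  have h1 := gpos hm hN hμ y
  have h2 : (((‖gaf N μ (3 / 2 + y * I)‖ * Real.exp (-(gaD N μ (3 / 2 + y * I)).re))⁻¹ : ℝ) : ℂ) ≠ 0 := by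
    rw [ofReal_ne_zero]
    positivity
  rw [mul_eq_zero, XX_zero (by linarith)]
  constructor
  · rintro (h | h)
    · exact absurd h h2
    · exact h
  · exact Or.inr

/-- the local data -/
theorem nd_of (m : ℕ) (hm : 1 ≤ m) : ∃ K : ℝ, 1 ≤ K ∧ ∀ (N : ℝ) (μ : Fin m → ℂ) (α : Fin m → ℕ → ℂ) (e : ℂ)
    (Λ : ℂ → ℂ), DatumT (1 / 2) N μ α e Λ → (∀ s : ℂ, 1 < s.re → Λ s ≠ 0) → ∀ y : ℝ,
      ND K (el N μ y) (fn N μ Λ y) := by
  have hm' : (1 : ℝ) ≤ m := by exact_mod_cast hm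
  obtain ⟨B, hB, HS⟩ := sharpX m hm (show (0 : ℝ) ≤ 1 / 2 by norm_num) le_rfl
    (show (0 : ℝ) < 1 / 2 by norm_num) (by norm_num)
  have hlogB : 0 ≤ Real.log B := Real.log_nonneg hB
  refine ⟨Real.log B + 20 * (6 * m), by linarith, fun N μ α e Λ d hnz y => ?_⟩
  obtain ⟨S, hslow, hfe, hzer, hne⟩ := HS N μ α e Λ d
  have ud := ud_of_sharp S hslow (by norm_num) y
  rw [show (1 + 1 / 2 + 1 / 2 - 1 / 2 : ℝ) = 3 / 2 by norm_num] at ud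
  have ud1 := ud_scale ud
  have hright : ∀ u : ℂ, fn N μ Λ y u = 0 → u.re ≤ 1 / 2 := by
    intro u hu
    rw [fn_zero hm d.one_le d.re_le] at hu
    by_contra hcon
    push Not at hcon
    refine hnz _ ?_ hu
    simp
    linarith
  refine ⟨ud1, fun u hu => ?_⟩
  rw [abs_le]
  refine ⟨?_, hright u hu⟩
  obtain ⟨ε, hε, h1⟩ := ud1.fe
  have h2 : fn N μ Λ y (-conj u) = 0 := by
    have h3 := h1 (-conj u)
    have e1 : -conj (-conj u) = u := by simp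
    rw [e1] at h3
    have h4 : fn N μ Λ y (-conj u) = ε * conj (fn N μ Λ y u) := h3
    rw [h4, hu, map_zero, mul_zero]
  have h3 := hright _ h2
  simp at h3
  linarith

lemma order_mul_comp {Λ h : ℂ → ℂ} (hΛ : Differentiable ℂ Λ) (hh : Differentiable ℂ h) (hh0 : ∀ u, h u ≠ 0)
    (a u : ℂ) : analyticOrderNatAt (fun u => h u * Λ (a + u)) u = analyticOrderNatAt Λ (a + u) := by
  have hc : Differentiable ℂ (fun u => Λ (a + u)) := hΛ.comp (by fun_prop)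
  have h1 : analyticOrderAt (fun u => h u * Λ (a + u)) u =
      analyticOrderAt h u + analyticOrderAt (fun u => Λ (a + u)) u :=
    analyticOrderAt_mul (hh.analyticAt u) (hc.analyticAt u)
  have h2 : analyticOrderAt h u = 0 := (hh.analyticAt u).analyticOrderAt_eq_zero.2 (hh0 u)
  have h3 : analyticOrderAt (fun u => Λ (a + u)) u = analyticOrderAt Λ (a + u) := by
    have h4 : AnalyticAt ℂ (fun u : ℂ => a + u) u := by fun_prop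
    have h5 : deriv (fun u : ℂ => a + u) u ≠ 0 := by
      rw [deriv_const_add]
      simp
    have := analyticOrderAt_comp_of_deriv_ne_zero (f := Λ) h4 h5
    exact this
  unfold analyticOrderNatAt
  rw [h1, h2, h3, zero_add]

lemma fn_mu {m : ℕ} (hm : 1 ≤ m) {N : ℝ} {μ : Fin m → ℂ} (hN : 1 ≤ N) (hμ : ∀ j, (μ j).re ≤ 1 / 2)
    {Λ : ℂ → ℂ} (hΛ : Differentiable ℂ Λ) (y : ℝ) (u : ℂ) :
    mu (fn N μ Λ y) u = analyticOrderNatAt Λ (1 / 2 + (y : ℂ) * I + u) := by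
  have hg := gpos hm hN hμ y
  have hN0 : (N : ℂ) ≠ 0 := by
    have : N ≠ 0 := by linarith
    exact_mod_cast this
  obtain ⟨g, hgd⟩ : ∃ g : ℝ, g = (‖gaf N μ (3 / 2 + y * I)‖ * Real.exp (-(gaD N μ (3 / 2 + y * I)).re))⁻¹ := ⟨_, rfl⟩
  have hg0 : g ≠ 0 := by rw [hgd]; positivity
  have e : fn N μ Λ y = fun u => ((g : ℂ) * (N : ℂ) ^ ((1 / 2 + (y : ℂ) * I + u) / 2)) *
      Λ (1 / 2 + (y : ℂ) * I + u) := by
    funext u
    unfold fn XX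
    rw [← hgd]
    ring
  unfold mu
  rw [e]
  refine order_mul_comp (h := fun u => (g : ℂ) * (N : ℂ) ^ ((1 / 2 + (y : ℂ) * I + u) / 2)) hΛ ?_ ?_ _ u
  · refine Differentiable.const_mul (fun z => ?_) _
    exact DifferentiableAt.const_cpow (by fun_prop) (Or.inl hN0)
  · intro u h
    rcases mul_eq_zero.1 h with h1 | h1
    · exact hg0 (by exact_mod_cast h1)
    · exact hN0 (Complex.cpow_eq_zero_iff _ _ |>.1 h1).1

/-- transport of finite sets of zeros -/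
lemma to_fn {m : ℕ} (hm : 1 ≤ m) {N : ℝ} {μ : Fin m → ℂ} (hN : 1 ≤ N) (hμ : ∀ j, (μ j).re ≤ 1 / 2)
    {Λ : ℂ → ℂ} (hΛ : Differentiable ℂ Λ) (y : ℝ) (F : Finset ℂ) (hF : ∀ z ∈ F, Λ z = 0) :
    ∃ F' : Finset ℂ, (∀ u ∈ F', fn N μ Λ y u = 0 ∧ 1 / 2 + (y : ℂ) * I + u ∈ F) ∧
      ∑ u ∈ F', (mu (fn N μ Λ y) u : ℝ) = ∑ z ∈ F, (analyticOrderNatAt Λ z : ℝ) := by
  classical
  refine ⟨F.image fun z => z - (1 / 2 + (y : ℂ) * I), fun u hu => ?_, ?_⟩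
  · obtain ⟨z, hz, rfl⟩ := Finset.mem_image.1 hu
    rw [fn_zero hm hN hμ, add_sub_cancel]
    exact ⟨hF z hz, hz⟩
  · rw [Finset.sum_image (fun x _ y _ hxy => by simpa using hxy)]
    refine Finset.sum_congr rfl fun z _ => ?_
    rw [fn_mu hm hN hμ hΛ, add_sub_cancel]

lemma of_fn {m : ℕ} (hm : 1 ≤ m) {N : ℝ} {μ : Fin m → ℂ} (hN : 1 ≤ N) (hμ : ∀ j, (μ j).re ≤ 1 / 2)
    {Λ : ℂ → ℂ} (hΛ : Differentiable ℂ Λ) (y : ℝ) (F : Finset ℂ) (hF : ∀ u ∈ F, fn N μ Λ y u = 0) :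
    ∃ F' : Finset ℂ, (∀ z ∈ F', Λ z = 0 ∧ z - (1 / 2 + (y : ℂ) * I) ∈ F) ∧
      ∑ z ∈ F', (analyticOrderNatAt Λ z : ℝ) = ∑ u ∈ F, (mu (fn N μ Λ y) u : ℝ) := by
  classical
  refine ⟨F.image fun u => 1 / 2 + (y : ℂ) * I + u, fun z hz => ?_, ?_⟩
  · obtain ⟨u, hu, rfl⟩ := Finset.mem_image.1 hz
    rw [add_sub_cancel_left]
    exact ⟨(fn_zero hm hN hμ).1 (hF u hu), hu⟩
  · rw [Finset.sum_image (fun x _ y _ hxy => by simpa using hxy)]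
    refine Finset.sum_congr rfl fun u _ => ?_
    rw [fn_mu hm hN hμ hΛ]

/-- the bounds for `el` -/
lemma el_bd {m : ℕ} {N : ℝ} {μ : Fin m → ℂ} (hN : 1 ≤ N) (hμ : ∀ j, (μ j).re ≤ 1 / 2) (y : ℝ) :
    Real.log (cnd N μ y) ≤ 2 * el N μ y + 14 * m ∧ 2 * el N μ y ≤ Real.log (cnd N μ y) + 10 * m := by
  have hlo := gaD_re_ge hN hμ y
  have hup := gaD_re_le hN hμ y
  change 1 / 2 * Real.log (cnd N μ y) - 7 * m ≤ el N μ y at hlo
  change el N μ y ≤ 1 / 2 * Real.log (cnd N μ y) + 5 * m at hup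
  constructor <;> linarith

/-- the bound for `LL` from a bound for `fn` -/
lemma LL_fn {m : ℕ} (hm : 1 ≤ m) {N : ℝ} {μ : Fin m → ℂ} (hN : 1 ≤ N) (hμ : ∀ j, (μ j).re ≤ 1 / 2)
    (Λ : ℂ → ℂ) (y : ℝ) {M : ℝ} (h : ‖fn N μ Λ y 0‖ ≤ Real.exp M) :
    ‖LL μ Λ (1 / 2 + (y : ℂ) * I)‖ ≤ Real.exp (462 * m + M) := by
  have hg := gpos hm hN hμ y
  have h1 : ‖XX N Λ (1 / 2 + (y : ℂ) * I + ((0 : ℝ) : ℂ))‖ ≤
      (‖gaf N μ (3 / 2 + y * I)‖ * Real.exp (-(gaD N μ (3 / 2 + y * I)).re)) * Real.exp M := by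
    unfold fn at h
    rw [norm_mul, Complex.norm_real, Real.norm_of_nonneg (by positivity), inv_mul_le_iff₀ hg] at h
    rw [ofReal_zero]
    exact h
  have h2 := LL_le_r hm hN hμ Λ y le_rfl zero_le_one h1
  rw [ofReal_zero, add_zero, mul_zero, sub_zero] at h2
  exact h2

end Q270GD
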